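import Pool.Agent.H95.Scr.Defs

/-!
# Rigidity of the nonagon (TASK ALG)
-/

set_option autoImplicit false
set_option linter.unusedSimpArgs false
set_option linter.unusedVariables false
set_option linter.unusedSectionVars false

namespace Pool.Agent.H95.Scr.ALGx

/-- cross product -/
def cr (u v : Fin 3 → ℝ) : Fin 3 → ℝ :=
  ![u 1 * v 2 - u 2 * v 1, u 2 * v 0 - u 0 * v 2, u 0 * v 1 - u 1 * v 0]

/-- dot product -/
def dt (u w : Fin 3 → ℝ) : ℝ := u 0 * w 0 + u 1 * w 1 + u 2 * w 2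

theorem exists_mul {u v w : Fin 3 → ℝ} (h1 : dt u w = 0) (h2 : dt v w = 0) (h : cr u v ≠ 0) :
    ∃ k : ℝ, w = k • cr u v := by
  simp only [dt] at h1 h2
  set c0 := u 1 * v 2 - u 2 * v 1 with hc0
  set c1 := u 2 * v 0 - u 0 * v 2 with hc1
  set c2 := u 0 * v 1 - u 1 * v 0 with hc2
  have hcr : cr u v = ![c0, c1, c2] := rfl
  have hs : 0 < c0 ^ 2 + c1 ^ 2 + c2 ^ 2 := by
    by_contra hcon
    push Not at hcon
    apply h
    have e0 : c0 = 0 := by nlinarith [sq_nonneg c0, sq_nonneg c1, sq_nonneg c2]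
    have e1 : c1 = 0 := by nlinarith [sq_nonneg c0, sq_nonneg c1, sq_nonneg c2]
    have e2 : c2 = 0 := by nlinarith [sq_nonneg c0, sq_nonneg c1, sq_nonneg c2]
    rw [hcr, e0, e1, e2]
    ext i; fin_cases i <;> simp
  have z0 : c1 * w 2 - c2 * w 1 = 0 := by
    have : c1 * w 2 - c2 * w 1 = v 0 * (u 0 * w 0 + u 1 * w 1 + u 2 * w 2) -
      u 0 * (v 0 * w 0 + v 1 * w 1 + v 2 * w 2) := by rw [hc1, hc2]; ring
    rw [this, h1, h2]; ring
  have z1 : c2 * w 0 - c0 * w 2 = 0 := by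
    have : c2 * w 0 - c0 * w 2 = v 1 * (u 0 * w 0 + u 1 * w 1 + u 2 * w 2) -
      u 1 * (v 0 * w 0 + v 1 * w 1 + v 2 * w 2) := by rw [hc0, hc2]; ring
    rw [this, h1, h2]; ring
  have z2 : c0 * w 1 - c1 * w 0 = 0 := by
    have : c0 * w 1 - c1 * w 0 = v 2 * (u 0 * w 0 + u 1 * w 1 + u 2 * w 2) -
      u 2 * (v 0 * w 0 + v 1 * w 1 + v 2 * w 2) := by rw [hc0, hc1]; ring
    rw [this, h1, h2]; ring
  refine ⟨(c0 * w 0 + c1 * w 1 + c2 * w 2) / (c0 ^ 2 + c1 ^ 2 + c2 ^ 2), ?_⟩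
  rw [hcr]
  ext i
  fin_cases i
  · simp only [Fin.zero_eta, Pi.smul_apply, Matrix.cons_val_zero, smul_eq_mul]
    field_simp
    linear_combination c2 * z1 - c1 * z2
  · simp only [Fin.mk_one, Pi.smul_apply, Matrix.cons_val_one, Matrix.cons_val_zero, smul_eq_mul]
    field_simp
    linear_combination c0 * z2 - c2 * z0
  · simp only [Fin.reduceFinMk, Pi.smul_apply, Matrix.cons_val, smul_eq_mul]
    field_simp
    linear_combination c1 * z0 - c0 * z1

theorem f1 : ∀ i : Fin 9, i + 2 ≠ i ∧ i + 2 ≠ i + 1 ∧ i + 2 = i + 1 + 1 ∧ i ≠ i + 1 ∧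
    i ≠ i + 1 + 1 ∧ i + 1 ≠ i + 2 ∧ i + 1 ≠ i + 2 + 1 ∧ i + 1 + 1 ≠ i ∧ i + 1 + 1 ≠ i + 1 := by
  decide

theorem f2 : ∀ p q : Fin 9, q ≠ p → q ≠ p + 1 → p ≠ q + 1 → p + 1 ≠ q + 1 ∧ p + 1 ≠ q + 1 + 1 ∧
    p + 1 ≠ q ∧ q + 1 ≠ p + 1 ∧ q + 1 ≠ p + 1 + 1 ∧ q + 1 ≠ p := by
  decide

section

variable {V : Type*} [AddCommGroup V] [Module ℝ V]

theorem span3 (hV : Module.finrank ℝ V = 3) {x y z : V}
    (hind : ∀ a b c : ℝ, a • x + b • y + c • z = 0 → a = 0 ∧ b = 0 ∧ c = 0) (v : V) :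
    ∃ a b c : ℝ, v = a • x + b • y + c • z := by
  have li : LinearIndependent ℝ ![x, y, z] := by
    rw [Fintype.linearIndependent_iff]
    intro g hg
    rw [Fin.sum_univ_three] at hg
    obtain ⟨h0, h1, h2⟩ := hind _ _ _ hg
    intro i; fin_cases i <;> assumption
  have : Nonempty (Fin 3) := ⟨0⟩
  have hb := (basisOfLinearIndependentOfCardEqFinrank li (by simp [hV])).sum_repr v
  rw [Fin.sum_univ_three] at hb
  simp only [coe_basisOfLinearIndependentOfCardEqFinrank] at hb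
  exact ⟨_, _, _, hb.symm⟩

/-- positive combination -/
def Comb (P x y : V →ₗ[ℝ] ℝ) : Prop :=
  ∃ α β : ℝ, 0 < α ∧ 0 < β ∧ ∀ v, P v = α * x v + β * y v

theorem Comb.symm {P x y : V →ₗ[ℝ] ℝ} (h : Comb P x y) : Comb P y x := by
  obtain ⟨α, β, h1, h2, h3⟩ := h
  exact ⟨β, α, h2, h1, fun v => by rw [h3]; ring⟩

theorem ext_pos (hV : Module.finrank ℝ V = 3) {P nx ny : V →ₗ[ℝ] ℝ} {D gs gt : V} (hD : D ≠ 0)
    (PD : P D = 0) (xD : nx D = 0) (yD : ny D = 0) (xs : nx gs = 0) (ys : 0 < ny gs)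
    (Ps : 0 < P gs) (yt : ny gt = 0) (xt : 0 < nx gt) (Pt : 0 < P gt) : Comb P nx ny := by
  have hind : ∀ a b c : ℝ, a • gs + b • gt + c • D = 0 → a = 0 ∧ b = 0 ∧ c = 0 := by
    intro a b c h
    have e1 := congrArg nx h
    have e2 := congrArg ny h
    simp only [map_add, map_smul, smul_eq_mul, xs, ys, xD, yD, yt, mul_zero, add_zero, zero_add,
      map_zero] at e1 e2
    have hb : b = 0 := (mul_eq_zero.1 e1).resolve_right xt.ne'
    have ha : a = 0 := (mul_eq_zero.1 e2).resolve_right ys.ne'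
    refine ⟨ha, hb, ?_⟩
    rw [ha, hb, zero_smul, zero_smul, zero_add, zero_add] at h
    exact (smul_eq_zero.1 h).resolve_right hD
  refine ⟨P gt / nx gt, P gs / ny gs, div_pos Pt xt, div_pos Ps ys, ?_⟩
  intro v
  obtain ⟨a, b, c, rfl⟩ := span3 hV hind v
  simp only [map_add, map_smul, smul_eq_mul, xs, xD, yD, yt, PD, mul_zero, add_zero, zero_add]
  field_simp
  ring

variable {n : Fin 9 → V →ₗ[ℝ] ℝ} {g : Fin 9 → V}

/-- the four lines of two sides -/
theorem alt (hV : Module.finrank ℝ V = 3)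
    (h0 : ∀ i, n i (g i) = 0) (h1 : ∀ i, n i (g (i + 1)) = 0)
    (hp : ∀ i j, j ≠ i → j ≠ i + 1 → 0 < n i (g j)) (p q : Fin 9) (h2 : q ≠ p) (h3 : q ≠ p + 1)
    (h4 : p ≠ q + 1) :
    ∃ a b c d : ℝ, 0 < a ∧ 0 < b ∧ 0 < c ∧ 0 < d ∧
      ∀ v, a * n p v + b * n q v = c * n (p + 1) v + d * n (q + 1) v := by
  have : Module.Finite ℝ V := Module.finite_of_finrank_eq_succ hV
  set b := Module.finBasisOfFinrankEq ℝ V hV with hb
  set N : Fin 9 → Fin 3 → ℝ := fun i k => n i (b k) with hN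
  set co : V → Fin 3 → ℝ := fun v k => b.repr v k with hco
  have hdt : ∀ i v, n i v = dt (N i) (co v) := by
    intro i v
    conv_lhs => rw [← b.sum_repr v]
    rw [Fin.sum_univ_three]
    simp only [map_add, map_smul, smul_eq_mul, dt, hN, hco]
    ring
  have hcr : ∀ i, cr (N i) (N (i + 1)) ≠ 0 := by
    intro i hz
    -- evaluate at two vertices
    obtain ⟨g1, g2, g3, g4, g5, -⟩ := f1 i
    have e1 : 0 < n i (g (i + 2)) := hp _ _ g1 g2
    have e2 : n (i + 1) (g (i + 2)) = 0 := by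
      rw [g3]; exact h1 _
    have e3 : 0 < n (i + 1) (g i) := hp _ _ g4 g5
    have e4 : n i (g i) = 0 := h0 i
    have c0 : N i 1 * N (i + 1) 2 - N i 2 * N (i + 1) 1 = 0 := congrFun hz 0
    have c1 : N i 2 * N (i + 1) 0 - N i 0 * N (i + 1) 2 = 0 := congrFun hz 1
    have c2 : N i 0 * N (i + 1) 1 - N i 1 * N (i + 1) 0 = 0 := congrFun hz 2
    have key : n i (g (i + 2)) * n (i + 1) (g i) = n i (g i) * n (i + 1) (g (i + 2)) := by
      rw [hdt, hdt, hdt, hdt]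
      simp only [dt]
      set x := co (g (i + 2))
      set y := co (g i)
      linear_combination (x 1 * y 2 - x 2 * y 1) * c0 + (x 2 * y 0 - x 0 * y 2) * c1 +
        (x 0 * y 1 - x 1 * y 0) * c2
    rw [e2, e4] at key
    have : 0 < n i (g (i + 2)) * n (i + 1) (g i) := mul_pos e1 e3
    rw [key] at this
    simp at this
  have hk : ∀ i, ∃ k : ℝ, co (g (i + 1)) = k • cr (N i) (N (i + 1)) := fun i =>
    exists_mul (by rw [← hdt]; exact h1 i) (by rw [← hdt]; exact h0 (i + 1)) (hcr i)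
  choose k hk using hk
  have hval : ∀ i l, n l (g (i + 1)) = k i * dt (N l) (cr (N i) (N (i + 1))) := by
    intro i l
    rw [hdt, hk]
    simp only [dt, Pi.smul_apply, smul_eq_mul]; ring
  have hstep : ∀ i, 0 < k i * k (i + 1) := by
    intro i
    obtain ⟨-, -, g3, -, -, g6, g7, g8, g9⟩ := f1 i
    have e1 : 0 < n (i + 2) (g (i + 1)) := hp _ _ g6 g7
    have e2 : 0 < n i (g ((i + 1) + 1)) := hp _ _ g8 g9
    rw [hval] at e1 e2
    rw [g3] at e1
    have e4 : dt (N i) (cr (N (i + 1)) (N (i + 1 + 1))) =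
        dt (N (i + 1 + 1)) (cr (N i) (N (i + 1))) := by
      simp only [dt, cr, Matrix.cons_val_zero, Matrix.cons_val_one, Matrix.cons_val]
      ring
    rw [e4] at e2
    set X := dt (N (i + 1 + 1)) (cr (N i) (N (i + 1)))
    have h5 : 0 < (k i * k (i + 1)) * (X * X) := by
      have := mul_pos e1 e2
      nlinarith
    have hX : 0 < X * X := mul_self_pos.2 (by rintro hX; rw [hX] at e1; simp at e1)
    exact (mul_pos_iff_of_pos_right hX).1 h5
  have hchain : ∀ x y z : ℝ, 0 < x * y → 0 < y * z → 0 < x * z := by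
    intro x y z h1 h2
    have h3 : 0 < (x * z) * (y * y) := by
      have := mul_pos h1 h2
      nlinarith
    have hy : 0 < y * y := mul_self_pos.2 (by rintro hy; rw [hy] at h1; simp at h1)
    exact (mul_pos_iff_of_pos_right hy).1 h3
  have hall0 : ∀ i, 0 < k 0 * k i := by
    have s0 : 0 < k 0 * k 1 := hstep 0
    have s1 : 0 < k 0 * k 2 := hchain _ _ _ s0 (hstep 1)
    have s2 : 0 < k 0 * k 3 := hchain _ _ _ s1 (hstep 2)
    have s3 : 0 < k 0 * k 4 := hchain _ _ _ s2 (hstep 3)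
    have s4 : 0 < k 0 * k 5 := hchain _ _ _ s3 (hstep 4)
    have s5 : 0 < k 0 * k 6 := hchain _ _ _ s4 (hstep 5)
    have s6 : 0 < k 0 * k 7 := hchain _ _ _ s5 (hstep 6)
    have s7 : 0 < k 0 * k 8 := hchain _ _ _ s6 (hstep 7)
    have s8 : 0 < k 0 * k 0 := hchain _ _ _ s7 (hstep 8)
    intro i
    fin_cases i
    exacts [s8, s0, s1, s2, s3, s4, s5, s6, s7]
  have hpq : 0 < k p * k q := by
    apply hchain _ (k 0) _ _ (hall0 q)
    rw [mul_comm]; exact hall0 p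
  have hid : ∀ v, (k p * k q) * (dt (N (p + 1)) (cr (N q) (N (q + 1))) * n p v +
      dt (N (q + 1)) (cr (N p) (N (p + 1))) * n q v) =
      (k p * k q) * (dt (N p) (cr (N q) (N (q + 1))) * n (p + 1) v +
      dt (N q) (cr (N p) (N (p + 1))) * n (q + 1) v) := by
    intro v
    congr 1
    rw [hdt p, hdt q, hdt (p + 1), hdt (q + 1)]
    simp only [dt, cr, Matrix.cons_val_zero, Matrix.cons_val_one, Matrix.cons_val]
    ring
  have ep1 : n (q + 1) (g (p + 1)) = k p * dt (N (q + 1)) (cr (N p) (N (p + 1))) := hval _ _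
  have ep2 : n q (g (p + 1)) = k p * dt (N q) (cr (N p) (N (p + 1))) := hval _ _
  have eq1 : n (p + 1) (g (q + 1)) = k q * dt (N (p + 1)) (cr (N q) (N (q + 1))) := hval _ _
  have eq2 : n p (g (q + 1)) = k q * dt (N p) (cr (N q) (N (q + 1))) := hval _ _
  obtain ⟨i1, i2, i3, i4, i5, i6⟩ := f2 p q h2 h3 h4
  have d1 : 0 < n (q + 1) (g (p + 1)) := hp _ _ i1 i2
  have d2 : 0 < n q (g (p + 1)) := hp _ _ i3 i1
  have d3 : 0 < n (p + 1) (g (q + 1)) := hp _ _ i4 i5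
  have d4 : 0 < n p (g (q + 1)) := hp _ _ i6 i4
  rcases lt_or_gt_of_ne (show k p ≠ 0 by rintro e; rw [e] at hpq; simp at hpq) with hk0 | hk0
  · have hq0 : k q < 0 := by by_contra hh; push Not at hh; nlinarith
    refine ⟨-k p * n (p + 1) (g (q + 1)), -k q * n (q + 1) (g (p + 1)),
      -k p * n p (g (q + 1)), -k q * n q (g (p + 1)), mul_pos (by linarith) d3,
      mul_pos (by linarith) d1, mul_pos (by linarith) d4, mul_pos (by linarith) d2, ?_⟩
    intro v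
    rw [ep1, ep2, eq1, eq2]
    have := hid v
    linear_combination -this
  · have hq0 : 0 < k q := by by_contra hh; push Not at hh; nlinarith
    refine ⟨k p * n (p + 1) (g (q + 1)), k q * n (q + 1) (g (p + 1)),
      k p * n p (g (q + 1)), k q * n q (g (p + 1)), mul_pos (by linarith) d3,
      mul_pos (by linarith) d1, mul_pos (by linarith) d4, mul_pos (by linarith) d2, ?_⟩
    intro v
    rw [ep1, ep2, eq1, eq2]
    have := hid v
    linear_combination this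

end

end Pool.Agent.H95.Scr.ALGx

namespace Pool.Agent.H95.Scr.ALGx

variable {V : Type*} [AddCommGroup V] [Module ℝ V]
variable {n : Fin 9 → V →ₗ[ℝ] ℝ} {g : Fin 9 → V}

theorem relI_comb (hV : Module.finrank ℝ V = 3) {P : V →ₗ[ℝ] ℝ} {a b c d e f : Fin 9}
    (hab : Comb P (n a) (n b)) (hcd : Comb P (n c) (n d)) (I : RelI n a b c d e f) (s t : Fin 9)
    (es : n e (g s) = 0) (fs : 0 < n f (g s)) (Ps : 0 < P (g s))
    (ft : n f (g t) = 0) (et : 0 < n e (g t)) (Pt : 0 < P (g t)) :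
    Comb P (n e) (n f) := by
  obtain ⟨D1, D2, -, -, hD, k1, k2, k3, k4, k5, k6⟩ := I
  obtain ⟨α, β, hα, hβ, h1⟩ := hab
  obtain ⟨γ, δ, hγ, hδ, h2⟩ := hcd
  refine ext_pos hV hD ?_ k5 k6 es fs Ps ft et Pt
  rw [map_sub, h1 D1, h2 D2, k1, k2, k3, k4]; ring

theorem Comb.pos {P x y : V →ₗ[ℝ] ℝ} (h : Comb P x y) {v : V} (hx : 0 < x v) (hy : 0 < y v) :
    0 < P v := by
  obtain ⟨α, β, h1, h2, h3⟩ := h
  rw [h3]; positivity

/-- two positive combinations of the same pair -/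
theorem B1 {P Q z w w' x y : V →ₗ[ℝ] ℝ} (h1 : Comb P w z) (h2 : Comb Q z w') (h3 : Comb P x y)
    (h4 : Comb Q x y) (u v : V) (wu : w u = 0) (w'u : w' u = 0) (wv : w v = 0) (w'v : 0 < w' v)
    (zu : 0 < z u) (xv : x v = 0) (xu : 0 < x u) (yv : 0 < y v) :
    ∃ l m t s : ℝ, 0 < l ∧ 0 < m ∧ 0 < t ∧ 0 < s ∧ (∀ v, x v = l * (P v - t * Q v)) ∧
      (∀ v, y v = m * (Q v - s * P v)) := by
  obtain ⟨p1, p2, hp1, hp2, hP⟩ := h1
  obtain ⟨q1, q2, hq1, hq2, hQ⟩ := h2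
  obtain ⟨a1, a5, ha1, ha5, hP'⟩ := h3
  obtain ⟨c1, c5, hc1, hc5, hQ'⟩ := h4
  -- the cross inequality
  have e1 : P u = p2 * z u := by rw [hP, wu]; ring
  have e2 : Q u = q1 * z u := by rw [hQ, w'u]; ring
  have e3 : P v = p2 * z v := by rw [hP, wv]; ring
  have e4 : Q v = q1 * z v + q2 * w' v := hQ v
  have hcross : P v * Q u < P u * Q v := by
    rw [e1, e2, e3, e4]
    have : 0 < p2 * z u * (q2 * w' v) := by positivity
    nlinarith
  have e5 : P v = a5 * y v := by rw [hP', xv]; ring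
  have e6 : Q v = c5 * y v := by rw [hQ', xv]; ring
  rw [e5, e6] at hcross
  have hlt : a5 * Q u < c5 * P u := by
    have : 0 < (c5 * P u - a5 * Q u) * y v := by nlinarith
    have := (mul_pos_iff_of_pos_right yv).1 this
    linarith
  have hΔ : (a1 * c5 - a5 * c1) * x u = c5 * P u - a5 * Q u := by
    rw [hP' u, hQ' u]; ring
  have hΔ0 : 0 < a1 * c5 - a5 * c1 := by
    apply (mul_pos_iff_of_pos_right xu).1
    rw [hΔ]; linarith
  refine ⟨c5 / (a1 * c5 - a5 * c1), a1 / (a1 * c5 - a5 * c1), a5 / c5, c1 / a1, by positivity,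
    by positivity, by positivity, by positivity, ?_, ?_⟩
  · intro v
    have h5 : c5 * (P v - a5 / c5 * Q v) = (a1 * c5 - a5 * c1) * x v := by
      rw [hP', hQ']; field_simp; ring
    rw [div_mul_eq_mul_div, h5, mul_div_cancel_left₀ _ hΔ0.ne']
  · intro v
    have h5 : a1 * (Q v - c1 / a1 * P v) = (a1 * c5 - a5 * c1) * y v := by
      rw [hP', hQ']; field_simp; ring
    rw [div_mul_eq_mul_div, h5, mul_div_cancel_left₀ _ hΔ0.ne']

theorem ker_mul (hV : Module.finrank ℝ V = 3)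
    (h0 : ∀ i, n i (g i) = 0) (h1 : ∀ i, n i (g (i + 1)) = 0)
    (hp : ∀ i j, j ≠ i → j ≠ i + 1 → 0 < n i (g j)) (i : Fin 9) {v : V} (hv1 : n i v = 0)
    (hv2 : n (i + 1) v = 0) : ∃ c : ℝ, v = c • g (i + 1) := by
  obtain ⟨g1, g2, g3, g4, g5, g6, g7, -, -⟩ := f1 i
  have e1 : 0 < n i (g (i + 2)) := hp _ _ g1 g2
  have e2 : n (i + 1) (g (i + 2)) = 0 := by rw [g3]; exact h1 _
  have e3 : 0 < n (i + 1) (g i) := hp _ _ g4 g5
  have e4 : 0 < n (i + 2) (g (i + 1)) := hp _ _ g6 g7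
  have hind : ∀ a b c : ℝ, a • g i + b • g (i + 1) + c • g (i + 2) = 0 →
      a = 0 ∧ b = 0 ∧ c = 0 := by
    intro a b c h
    have k1 := congrArg (n i) h
    have k2 := congrArg (n (i + 1)) h
    have k3 := congrArg (n (i + 2)) h
    simp only [map_add, map_smul, smul_eq_mul, map_zero, h0, h1, e2, mul_zero, add_zero,
      zero_add] at k1 k2 k3
    have hc : c = 0 := (mul_eq_zero.1 k1).resolve_right e1.ne'
    have ha : a = 0 := (mul_eq_zero.1 k2).resolve_right e3.ne'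
    rw [ha, zero_mul, zero_add] at k3
    exact ⟨ha, (mul_eq_zero.1 k3).resolve_right e4.ne', hc⟩
  obtain ⟨a, b, c, rfl⟩ := span3 hV hind v
  simp only [map_add, map_smul, smul_eq_mul, h0, h1, e2, mul_zero, add_zero, zero_add] at hv1 hv2
  have hc : c = 0 := (mul_eq_zero.1 hv1).resolve_right e1.ne'
  have ha : a = 0 := (mul_eq_zero.1 hv2).resolve_right e3.ne'
  exact ⟨b, by rw [ha, hc]; simp⟩

theorem pos_of (hV : Module.finrank ℝ V = 3)
    (h0 : ∀ i, n i (g i) = 0) (h1 : ∀ i, n i (g (i + 1)) = 0)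
    (hp : ∀ i j, j ≠ i → j ≠ i + 1 → 0 < n i (g j)) (i : Fin 9) {v : V} (hv1 : n i v = 0)
    (hv2 : n (i + 1) v = 0) (hv3 : 0 < n (i + 2) v) : Pos v (g (i + 1)) := by
  obtain ⟨c, rfl⟩ := ker_mul hV h0 h1 hp i hv1 hv2
  obtain ⟨g1, g2, g3, g4, g5, g6, g7, -, -⟩ := f1 i
  have e4 : 0 < n (i + 2) (g (i + 1)) := hp _ _ g6 g7
  rw [map_smul, smul_eq_mul] at hv3
  exact ⟨c, (mul_pos_iff_of_pos_right e4).1 hv3, rfl⟩

theorem surj3 (hV : Module.finrank ℝ V = 3) {A B C : V →ₗ[ℝ] ℝ}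
    (hinj : ∀ v, A v = 0 → B v = 0 → C v = 0 → v = 0) (x y z : ℝ) :
    ∃ v, A v = x ∧ B v = y ∧ C v = z := by
  have : Module.Finite ℝ V := Module.finite_of_finrank_eq_succ hV
  set L : V →ₗ[ℝ] (Fin 3 → ℝ) := LinearMap.pi ![A, B, C] with hL
  have hLinj : Function.Injective L := by
    rw [← LinearMap.ker_eq_bot, LinearMap.ker_eq_bot']
    intro v hv
    exact hinj v (congrFun hv 0) (congrFun hv 1) (congrFun hv 2)
  have hsurj : Function.Surjective L :=
    (LinearMap.injective_iff_surjective_of_finrank_eq_finrank (by simp [hV])).1 hLinj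
  obtain ⟨v, hv⟩ := hsurj ![x, y, z]
  exact ⟨v, congrFun hv 0, congrFun hv 1, congrFun hv 2⟩

theorem B2 (hV : Module.finrank ℝ V = 3) {A B C x y y' : V →ₗ[ℝ] ℝ}
    (hinj : ∀ v, A v = 0 → B v = 0 → C v = 0 → v = 0) (h1 : Comb A x y) (h2 : Comb B x y')
    {l l' t s : ℝ} (hl : 0 < l) (hy : ∀ v, y v = l * (C v - t * B v))
    (hy' : ∀ v, y' v = l' * (C v - s * A v)) :
    ∃ k : ℝ, 0 < k ∧ ∀ v, x v = k * (s * A v + t * B v - C v) := by
  obtain ⟨a, b, ha, hb, hA⟩ := h1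
  obtain ⟨c, d, hc, hd, hB⟩ := h2
  have X1 : ∀ v, a * x v = A v - b * (l * (C v - t * B v)) := by
    intro v; rw [← hy v]; linarith [hA v]
  have X2 : ∀ v, c * x v = B v - d * (l' * (C v - s * A v)) := by
    intro v; rw [← hy' v]; linarith [hB v]
  have X3 : ∀ v, c * (A v - b * (l * (C v - t * B v))) =
      a * (B v - d * (l' * (C v - s * A v))) := by
    intro v; rw [← X1 v, ← X2 v]; ring
  obtain ⟨E0, u0, u1, u2⟩ := surj3 hV hinj 1 0 0
  obtain ⟨E1, v0, v1, v2⟩ := surj3 hV hinj 0 1 0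
  obtain ⟨E2, w0, w1, w2⟩ := surj3 hV hinj 0 0 1
  have r0 := X3 E0
  have r2 := X3 E2
  rw [u0, u1, u2] at r0
  rw [w0, w1, w2] at r2
  -- `c = a d l' s`, `c b l = a d l'`
  have q0 : c = a * (d * l' * s) := by linarith
  have q2 : c * (b * l) = a * (d * l') := by linarith
  refine ⟨b * l / a, by positivity, ?_⟩
  intro v
  have q3 : 1 = b * l * s := by
    have : c * 1 = c * (b * l * s) := by
      calc c * 1 = a * (d * l' * s) := by rw [mul_one]; exact q0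
        _ = a * (d * l') * s := by ring
        _ = c * (b * l * s) := by rw [← q2]; ring
    exact mul_left_cancel₀ hc.ne' this
  have h := X1 v
  field_simp
  have : A v = b * l * s * A v := by rw [← q3]; ring
  linarith

end Pool.Agent.H95.Scr.ALGx

namespace Pool.Agent.H95.Scr.ALGx

variable {V : Type*} [AddCommGroup V] [Module ℝ V]
variable {n : Fin 9 → V →ₗ[ℝ] ℝ} {g : Fin 9 → V}

/-- positive multiple of a function -/
def Mul (f X : V → ℝ) : Prop := ∃ l : ℝ, 0 < l ∧ ∀ v, f v = l * X v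

theorem Mul.zero {f X : V → ℝ} (h : Mul f X) {v : V} (hv : f v = 0) : X v = 0 := by
  obtain ⟨l, hl, h⟩ := h
  rw [h] at hv
  exact (mul_eq_zero.1 hv).resolve_left hl.ne'

/-- the normal form -/
structure NF (n : Fin 9 → V →ₗ[ℝ] ℝ) (P0 P1 P2 : V →ₗ[ℝ] ℝ) (t01 t10 t02 t20 t12 t21 : ℝ) :
    Prop where
  inj : ∀ v, P0 v = 0 → P1 v = 0 → P2 v = 0 → v = 0
  p01 : 0 < t01
  p10 : 0 < t10
  p02 : 0 < t02
  p20 : 0 < t20
  p12 : 0 < t12
  p21 : 0 < t21
  e0 : Mul (n 0) (fun v => t20 * P0 v + t21 * P1 v - P2 v)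
  e1 : Mul (n 1) (fun v => P0 v - t02 * P2 v)
  e2 : Mul (n 2) (fun v => P0 v - t01 * P1 v)
  e3 : Mul (n 3) (fun v => t10 * P0 v + t12 * P2 v - P1 v)
  e4 : Mul (n 4) (fun v => P2 v - t21 * P1 v)
  e5 : Mul (n 5) (fun v => P2 v - t20 * P0 v)
  e6 : Mul (n 6) (fun v => t01 * P1 v + t02 * P2 v - P0 v)
  e7 : Mul (n 7) (fun v => P1 v - t10 * P0 v)
  e8 : Mul (n 8) (fun v => P1 v - t12 * P2 v)

theorem stepB (hV : Module.finrank ℝ V = 3)
    (h0 : ∀ i, n i (g i) = 0) (h1 : ∀ i, n i (g (i + 1)) = 0)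
    (hp : ∀ i j, j ≠ i → j ≠ i + 1 → 0 < n i (g j))
    (I1 : RelI n 0 4 3 8 1 5) (I2 : RelI n 0 4 3 8 2 7)
    (I3 : RelI n 0 5 6 1 2 7) (I4 : RelI n 0 5 6 1 4 8)
    (I5 : RelI n 3 7 6 2 1 5) (I6 : RelI n 3 7 6 2 4 8) :
    ∃ (P0 P1 P2 : V →ₗ[ℝ] ℝ) (t01 t10 t02 t20 t12 t21 : ℝ),
      NF n P0 P1 P2 t01 t10 t02 t20 t12 t21 := by
  have q : ∀ i j, (j ≠ i ∧ j ≠ i + 1) → 0 < n i (g j) := fun i j h => hp i j h.1 h.2
  -- P0
  obtain ⟨a, b, c, d, ha, hb, hc, hd, hr⟩ := alt hV h0 h1 hp 8 3 (by decide) (by decide) (by decide)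
  have k83 : Comb (a • n 8 + b • n 3) (n 3) (n 8) :=
    ⟨b, a, hb, ha, fun v => by simp; ring⟩
  have k04 : Comb (a • n 8 + b • n 3) (n 0) (n 4) :=
    ⟨c, d, hc, hd, fun v => by simp only [LinearMap.add_apply, LinearMap.smul_apply, smul_eq_mul]; exact hr v⟩
  set P0 := a • n 8 + b • n 3 with hP0
  obtain ⟨a', b', c', d', ha', hb', hc', hd', hr'⟩ :=
    alt hV h0 h1 hp 5 0 (by decide) (by decide) (by decide)
  have k05 : Comb (a' • n 5 + b' • n 0) (n 0) (n 5) :=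
    ⟨b', a', hb', ha', fun v => by simp; ring⟩
  have k61 : Comb (a' • n 5 + b' • n 0) (n 6) (n 1) :=
    ⟨c', d', hc', hd', fun v => by simp only [LinearMap.add_apply, LinearMap.smul_apply, smul_eq_mul]; exact hr' v⟩
  set P1 := a' • n 5 + b' • n 0 with hP1
  obtain ⟨a'', b'', c'', d'', ha'', hb'', hc'', hd'', hr''⟩ :=
    alt hV h0 h1 hp 2 6 (by decide) (by decide) (by decide)
  have k62 : Comb (a'' • n 2 + b'' • n 6) (n 6) (n 2) :=
    ⟨b'', a'', hb'', ha'', fun v => by simp; ring⟩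
  have k37 : Comb (a'' • n 2 + b'' • n 6) (n 3) (n 7) :=
    ⟨c'', d'', hc'', hd'', fun v => by simp only [LinearMap.add_apply, LinearMap.smul_apply, smul_eq_mul]; exact hr'' v⟩
  set P2 := a'' • n 2 + b'' • n 6 with hP2
  have m15 : Comb P0 (n 1) (n 5) := relI_comb hV k04 k83 I1 1 6 (h0 1) (q 5 1 (by decide))
    (k83.pos (q 3 1 (by decide)) (q 8 1 (by decide))) (h1 5) (q 1 6 (by decide))
    (k83.pos (q 3 6 (by decide)) (q 8 6 (by decide)))
  have m27 : Comb P0 (n 2) (n 7) := relI_comb hV k04 k83 I2 2 7 (h0 2) (q 7 2 (by decide))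
    (k83.pos (q 3 2 (by decide)) (q 8 2 (by decide))) (h0 7) (q 2 7 (by decide))
    (k83.pos (q 3 7 (by decide)) (q 8 7 (by decide)))
  have m27' : Comb P1 (n 2) (n 7) := relI_comb hV k05 k61 I3 2 7 (h0 2) (q 7 2 (by decide))
    (k05.pos (q 0 2 (by decide)) (q 5 2 (by decide))) (h0 7) (q 2 7 (by decide))
    (k05.pos (q 0 7 (by decide)) (q 5 7 (by decide)))
  have m48 : Comb P1 (n 4) (n 8) := relI_comb hV k05 k61 I4 4 8 (h0 4) (q 8 4 (by decide))
    (k05.pos (q 0 4 (by decide)) (q 5 4 (by decide))) (h0 8) (q 4 8 (by decide))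
    (k05.pos (q 0 8 (by decide)) (q 5 8 (by decide)))
  have m15' : Comb P2 (n 1) (n 5) := relI_comb hV k37 k62 I5 1 5 (h0 1) (q 5 1 (by decide))
    (k62.pos (q 6 1 (by decide)) (q 2 1 (by decide))) (h0 5) (q 1 5 (by decide))
    (k62.pos (q 6 5 (by decide)) (q 2 5 (by decide)))
  have m48' : Comb P2 (n 4) (n 8) := relI_comb hV k37 k62 I6 4 8 (h0 4) (q 8 4 (by decide))
    (k62.pos (q 6 4 (by decide)) (q 2 4 (by decide))) (h0 8) (q 4 8 (by decide))
    (k62.pos (q 6 8 (by decide)) (q 2 8 (by decide)))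
  obtain ⟨l1, l5, t02, t20, hl1, hl5, ht02, ht20, x1, x5⟩ := B1 k04 m48' m15 m15' (g 0) (g 1)
    (h0 0) (h1 8) (h1 0) (q 8 1 (by decide)) (q 4 0 (by decide)) (h0 1)
    (q 1 0 (by decide)) (q 5 1 (by decide))
  obtain ⟨l2, l7, t01, t10, hl2, hl7, ht01, ht10, x2, x7⟩ := B1 k83 m48.symm m27 m27' (g 4) (g 3)
    (h1 3) (h0 4) (h0 3) (q 4 3 (by decide)) (q 8 4 (by decide)) (h1 2)
    (q 2 4 (by decide)) (q 7 3 (by decide))
  obtain ⟨l8, l4, t12, t21, hl8, hl4, ht12, ht21, x8, x4⟩ := B1 k05 m15'.symm m48.symm m48'.symm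
    (g 1) (g 0) (h1 0) (h0 1) (h0 0) (q 1 0 (by decide)) (q 5 1 (by decide)) (h1 8)
    (q 8 1 (by decide)) (q 4 0 (by decide))
  have hinj : ∀ v, P0 v = 0 → P1 v = 0 → P2 v = 0 → v = 0 := by
    intro v z0 z1 z2
    have y1 : n 1 v = 0 := by rw [x1, z0, z2]; ring
    have y2 : n (1 + 1) v = 0 := by
      have : n 2 v = 0 := by rw [x2, z0, z1]; ring
      exact this
    have y4 : n 4 v = 0 := by rw [x4, z1, z2]; ring
    obtain ⟨c, hc⟩ := ker_mul hV h0 h1 hp 1 y1 y2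
    rw [hc, map_smul, smul_eq_mul] at y4
    have : c = 0 := (mul_eq_zero.1 y4).resolve_right (q 4 2 (by decide)).ne'
    rw [hc, this, zero_smul]
  have hinj' : ∀ v, P0 v = 0 → P2 v = 0 → P1 v = 0 → v = 0 := fun v a b c => hinj v a c b
  have hinj'' : ∀ v, P1 v = 0 → P2 v = 0 → P0 v = 0 → v = 0 := fun v a b c => hinj v c a b
  obtain ⟨l0, hl0, x0⟩ := B2 hV hinj k04 k05 hl4 x4 x5
  obtain ⟨l3, hl3, x3⟩ := B2 hV hinj' k83 k37 hl8 x8 x7
  obtain ⟨l6, hl6, x6⟩ := B2 hV hinj'' k61 k62 hl1 x1 x2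
  exact ⟨P0, P1, P2, t01, t10, t02, t20, t12, t21, hinj, ht01, ht10, ht02, ht20, ht12, ht21,
    ⟨l0, hl0, x0⟩, ⟨l1, hl1, x1⟩, ⟨l2, hl2, x2⟩, ⟨l3, hl3, x3⟩, ⟨l4, hl4, x4⟩, ⟨l5, hl5, x5⟩,
    ⟨l6, hl6, x6⟩, ⟨l7, hl7, x7⟩, ⟨l8, hl8, x8⟩⟩

/-- first relation -/
theorem J1' {P0 P1 P2 : V →ₗ[ℝ] ℝ} {t01 t10 t02 t20 t12 t21 : ℝ}
    (h : NF n P0 P1 P2 t01 t10 t02 t20 t12 t21) (J : RelII n 0 3 7 6 2 6 1 3 8) :
    t20 * t02 = t21 * t12 := by
  obtain ⟨D1, D2, D1', D2', -, -, hD1', -, -, a1, a2, a3, a4, a5, a6, a7, a8, am, s, -, hs⟩ := J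
  have b1 := h.e3.zero a1
  have b2 := h.e7.zero a2
  have b3 := h.e6.zero a3
  have b4 := h.e2.zero a4
  have b5 := h.e6.zero a5
  have b6 := h.e1.zero a6
  have b7 := h.e3.zero a7
  have b8 := h.e8.zero a8
  have c1 : P2 D1 = 0 := by
    have : t12 * P2 D1 = 0 := by linarith
    exact (mul_eq_zero.1 this).resolve_left h.p12.ne'
  have c2 : P2 D2 = 0 := by
    have : t02 * P2 D2 = 0 := by linarith
    exact (mul_eq_zero.1 this).resolve_left h.p02.ne'
  have c3 : P2 D1' = P2 D2' := by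
    have := congrArg P2 hs
    rw [map_sub, map_smul, map_sub, c1, c2, sub_zero, smul_zero] at this
    linarith
  have c4 : n 0 (D1' - D2') = 0 := by rw [hs, map_smul, am, smul_zero]
  have c5 := h.e0.zero c4
  simp only [map_sub] at c5
  have c6 : P1 D1' = 0 := by
    have : t01 * P1 D1' = 0 := by linarith
    exact (mul_eq_zero.1 this).resolve_left h.p01.ne'
  have c7 : P0 D2' = 0 := by
    have : t10 * P0 D2' = 0 := by linarith
    exact (mul_eq_zero.1 this).resolve_left h.p10.ne'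
  have c8 : P0 D1' = t02 * P2 D1' := by linarith
  have c9 : P1 D2' = t12 * P2 D1' := by rw [c3]; linarith
  rw [c6, c7, c8, c9, ← c3] at c5
  have c10 : P2 D1' * (t20 * t02 - t21 * t12) = 0 := by linarith
  have c11 : P2 D1' ≠ 0 := by
    intro hz
    apply hD1'
    apply h.inj _ _ c6 hz
    rw [c8, hz, mul_zero]
  have := (mul_eq_zero.1 c10).resolve_left c11
  linarith

/-- second relation -/
theorem J2' {P0 P1 P2 : V →ₗ[ℝ] ℝ} {t01 t10 t02 t20 t12 t21 : ℝ}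
    (h : NF n P0 P1 P2 t01 t10 t02 t20 t12 t21) (J : RelII n 3 0 5 6 1 0 4 6 2) :
    t10 * t01 = t12 * t21 := by
  obtain ⟨D1, D2, D1', D2', -, -, hD1', -, -, a1, a2, a3, a4, a5, a6, a7, a8, am, s, -, hs⟩ := J
  have b1 := h.e0.zero a1
  have b2 := h.e5.zero a2
  have b3 := h.e6.zero a3
  have b4 := h.e1.zero a4
  have b5 := h.e0.zero a5
  have b6 := h.e4.zero a6
  have b7 := h.e6.zero a7
  have b8 := h.e2.zero a8
  have c1 : P1 D1 = 0 := by
    have : t21 * P1 D1 = 0 := by linarith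
    exact (mul_eq_zero.1 this).resolve_left h.p21.ne'
  have c2 : P1 D2 = 0 := by
    have : t01 * P1 D2 = 0 := by linarith
    exact (mul_eq_zero.1 this).resolve_left h.p01.ne'
  have c3 : P1 D1' = P1 D2' := by
    have := congrArg P1 hs
    rw [map_sub, map_smul, map_sub, c1, c2, sub_zero, smul_zero] at this
    linarith
  have c4 : n 3 (D1' - D2') = 0 := by rw [hs, map_smul, am, smul_zero]
  have c5 := h.e3.zero c4
  simp only [map_sub] at c5
  have c6 : P0 D1' = 0 := by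
    have : t20 * P0 D1' = 0 := by linarith
    exact (mul_eq_zero.1 this).resolve_left h.p20.ne'
  have c7 : P2 D2' = 0 := by
    have : t02 * P2 D2' = 0 := by linarith
    exact (mul_eq_zero.1 this).resolve_left h.p02.ne'
  have c8 : P2 D1' = t21 * P1 D1' := by linarith
  have c9 : P0 D2' = t01 * P1 D1' := by rw [c3]; linarith
  rw [c6, c7, c8, c9, ← c3] at c5
  have c10 : P1 D1' * (t12 * t21 - t10 * t01) = 0 := by linarith
  have c11 : P1 D1' ≠ 0 := by
    intro hz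
    apply hD1'
    apply h.inj _ c6 hz
    rw [c8, hz, mul_zero]
  have := (mul_eq_zero.1 c10).resolve_left c11
  linarith

/-- third relation -/
theorem J3' {P0 P1 P2 : V →ₗ[ℝ] ℝ} {t01 t10 t02 t20 t12 t21 : ℝ}
    (h : NF n P0 P1 P2 t01 t10 t02 t20 t12 t21) (J : RelII n 0 3 7 6 2 1 7 2 8) :
    t20 * (t02 - t01 * t12) + t21 * (t10 * t02 - t12) = 0 := by
  obtain ⟨D1, D2, D1', D2', -, -, hD1', -, -, a1, a2, a3, a4, a5, a6, a7, a8, am, s, -, hs⟩ := J
  have b1 := h.e3.zero a1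
  have b2 := h.e7.zero a2
  have b3 := h.e6.zero a3
  have b4 := h.e2.zero a4
  have b5 := h.e1.zero a5
  have b6 := h.e7.zero a6
  have b7 := h.e2.zero a7
  have b8 := h.e8.zero a8
  have c1 : P2 D1 = 0 := by
    have : t12 * P2 D1 = 0 := by linarith
    exact (mul_eq_zero.1 this).resolve_left h.p12.ne'
  have c2 : P2 D2 = 0 := by
    have : t02 * P2 D2 = 0 := by linarith
    exact (mul_eq_zero.1 this).resolve_left h.p02.ne'
  have c3 : P2 D1' = P2 D2' := by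
    have := congrArg P2 hs
    rw [map_sub, map_smul, map_sub, c1, c2, sub_zero, smul_zero] at this
    linarith
  have c4 : n 0 (D1' - D2') = 0 := by rw [hs, map_smul, am, smul_zero]
  have c5 := h.e0.zero c4
  simp only [map_sub] at c5
  have c6 : P0 D1' = t02 * P2 D1' := by linarith
  have c7 : P1 D1' = t10 * (t02 * P2 D1') := by rw [← c6]; linarith
  have c8 : P1 D2' = t12 * P2 D1' := by rw [c3]; linarith
  have c9 : P0 D2' = t01 * (t12 * P2 D1') := by rw [← c8]; linarith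
  rw [c6, c7, c8, c9, ← c3] at c5
  have c10 : P2 D1' * (t20 * (t02 - t01 * t12) + t21 * (t10 * t02 - t12)) = 0 := by linarith
  have c11 : P2 D1' ≠ 0 := by
    intro hz
    apply hD1'
    apply h.inj _ _ _ hz
    · rw [c6, hz, mul_zero]
    · rw [c7, hz, mul_zero, mul_zero]
  exact (mul_eq_zero.1 c10).resolve_left c11

theorem Mul.scale {f X Y : V → ℝ} (h : Mul f X) {c : ℝ} (hc : 0 < c) (hY : ∀ v, Y v = c * X v) :
    Mul f Y := by
  obtain ⟨l, hl, h⟩ := h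
  refine ⟨l / c, by positivity, fun v => ?_⟩
  rw [h, hY]
  field_simp

/-- rescaling -/
theorem rescale {P0 P1 P2 : V →ₗ[ℝ] ℝ} {t01 t10 t02 t20 t12 t21 : ℝ}
    (h : NF n P0 P1 P2 t01 t10 t02 t20 t12 t21) (r1 : t20 * t02 = t21 * t12)
    (r2 : t10 * t01 = t12 * t21)
    (r3 : t20 * (t02 - t01 * t12) + t21 * (t10 * t02 - t12) = 0) :
    ∃ (Q1 Q2 : V →ₗ[ℝ] ℝ) (t : ℝ), NF n P0 Q1 Q2 t t t t t t := by
  have p01 := h.p01
  have p10 := h.p10
  have p02 := h.p02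
  have p20 := h.p20
  have p12 := h.p12
  have p21 := h.p21
  set t := Real.sqrt (t01 * t10) with ht
  have htpos : 0 < t := Real.sqrt_pos.2 (by positivity)
  have K3 : t * t = t01 * t10 := Real.mul_self_sqrt (by positivity)
  have K5 : t12 * t21 = t * t := by rw [K3]; linarith
  have K4 : t02 * t20 = t * t := by linarith
  have r4 : t21 * t10 * t02 = t20 * t01 * t12 := by linarith
  have K1 : t02 * t21 = t * t01 := by
    have e1 : (t02 * t21) * (t02 * t21) * t10 = (t * t01) * (t * t01) * t10 := by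
      calc (t02 * t21) * (t02 * t21) * t10 = (t02 * t21) * (t21 * t10 * t02) := by ring
        _ = (t02 * t20) * (t12 * t21) * t01 := by rw [r4]; ring
        _ = (t * t) * (t * t) * t01 := by rw [K4, K5]
        _ = (t * t01) * (t * t01) * t10 := by
          calc (t * t) * (t * t) * t01 = (t * t) * (t01 * t10) * t01 := by rw [K3]
            _ = _ := by ring
    have e2 : (t02 * t21) * (t02 * t21) = (t * t01) * (t * t01) := mul_right_cancel₀ p10.ne' e1
    have e3 : (t02 * t21 - t * t01) * (t02 * t21 + t * t01) = 0 := by linarith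
    have e4 : 0 < t02 * t21 + t * t01 := by positivity
    have := (mul_eq_zero.1 e3).resolve_right e4.ne'
    linarith
  have K2 : t12 * t01 = t * t02 := by
    have e1 : t12 * t01 * t21 = t * t02 * t21 := by
      calc t12 * t01 * t21 = (t12 * t21) * t01 := by ring
        _ = t * (t * t01) := by rw [K5]; ring
        _ = t * t02 * t21 := by rw [← K1]; ring
    exact mul_right_cancel₀ p21.ne' e1
  refine ⟨(t01 / t) • P1, (t02 / t) • P2, t, ?_, htpos, htpos, htpos, htpos, htpos, htpos,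
    ?_, ?_, ?_, ?_, ?_, ?_, ?_, ?_, ?_⟩
  · intro v z0 z1 z2
    rw [LinearMap.smul_apply, smul_eq_mul] at z1 z2
    have y1 : P1 v = 0 := (mul_eq_zero.1 z1).resolve_left (by positivity)
    have y2 : P2 v = 0 := (mul_eq_zero.1 z2).resolve_left (by positivity)
    exact h.inj v z0 y1 y2
  · refine h.e0.scale (c := t02 / t) (by positivity) (fun v => ?_)
    simp only [LinearMap.smul_apply, smul_eq_mul]
    field_simp
    linear_combination (-P0 v) * K4 - (P1 v) * K1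
  · refine h.e1.scale (c := 1) one_pos (fun v => ?_)
    simp only [LinearMap.smul_apply, smul_eq_mul]
    field_simp
  · refine h.e2.scale (c := 1) one_pos (fun v => ?_)
    simp only [LinearMap.smul_apply, smul_eq_mul]
    field_simp
  · refine h.e3.scale (c := t01 / t) (by positivity) (fun v => ?_)
    simp only [LinearMap.smul_apply, smul_eq_mul]
    field_simp
    linear_combination (P0 v) * K3 - (P2 v) * K2
  · refine h.e4.scale (c := t02 / t) (by positivity) (fun v => ?_)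
    simp only [LinearMap.smul_apply, smul_eq_mul]
    field_simp
    linear_combination (P1 v) * K1
  · refine h.e5.scale (c := t02 / t) (by positivity) (fun v => ?_)
    simp only [LinearMap.smul_apply, smul_eq_mul]
    field_simp
    linear_combination (P0 v) * K4
  · refine h.e6.scale (c := 1) one_pos (fun v => ?_)
    simp only [LinearMap.smul_apply, smul_eq_mul]
    field_simp
  · refine h.e7.scale (c := t01 / t) (by positivity) (fun v => ?_)
    simp only [LinearMap.smul_apply, smul_eq_mul]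
    field_simp
    linear_combination (-P0 v) * K3
  · refine h.e8.scale (c := t01 / t) (by positivity) (fun v => ?_)
    simp only [LinearMap.smul_apply, smul_eq_mul]
    field_simp
    linear_combination (P2 v) * K2

/-- fourth relation -/
theorem J4' {P0 P1 P2 : V →ₗ[ℝ] ℝ} {t : ℝ}
    (h : NF n P0 P1 P2 t t t t t t) (J : RelII n 0 2 4 3 6 2 6 3 8) : t = 2 / 3 := by
  obtain ⟨D1, D2, D1', D2', -, -, hD1', -, -, a1, a2, a3, a4, a5, a6, a7, a8, am, s, -, hs⟩ := J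
  have ht := h.p01
  have b1 := h.e2.zero a1
  have b2 := h.e4.zero a2
  have b3 := h.e3.zero a3
  have b4 := h.e6.zero a4
  have b5 := h.e2.zero a5
  have b6 := h.e6.zero a6
  have b7 := h.e3.zero a7
  have b8 := h.e8.zero a8
  have c4 : n 0 (D1' - D2') = 0 := by rw [hs, map_smul, am, smul_zero]
  have c5 := h.e0.zero c4
  simp only [map_sub] at c5
  have d1 := congrArg P0 hs
  have d2 := congrArg P1 hs
  have d3 := congrArg P2 hs
  simp only [map_sub, map_smul, smul_eq_mul] at d1 d2 d3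
  have c6 : P2 D1' = 0 := by
    have : t * P2 D1' = 0 := by linarith
    exact (mul_eq_zero.1 this).resolve_left ht.ne'
  have c7 : P0 D2' = 0 := by
    have : t * P0 D2' = 0 := by linarith
    exact (mul_eq_zero.1 this).resolve_left ht.ne'
  set u := P1 D1' with hu
  set w := P2 D2' with hw
  set U := s * P1 D1 with hU
  set W0 := s * P0 D2 with hW0
  set W1 := s * P1 D2 with hW1
  set W2 := s * P2 D2 with hW2
  have f1 : P0 D1' = t * u := by linarith
  have f2 : P1 D2' = t * w := by linarith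
  have f3 : P0 D1 = t * P1 D1 := by linarith
  have f4 : P2 D1 = t * P1 D1 := by linarith
  rw [f1, c7, f3] at d1
  rw [f2] at d2
  rw [c6, f4] at d3
  have ea : t * u = t * U - W0 := by rw [hU, hW0]; linarith
  have eb : u - t * w = U - W1 := by rw [hU, hW1]; linarith
  have ec : -w = t * U - W2 := by rw [hU, hW2]; linarith
  have ed : t * W0 + t * W2 = W1 := by
    rw [hW0, hW1, hW2]; linear_combination s * b3
  have ee : t * W1 + t * W2 = W0 := by
    rw [hW0, hW1, hW2]; linear_combination s * b4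
  rw [f1, c7, f2, c6] at c5
  have eE : t * u + (1 - t) * w = 0 := by
    have : (1 + t) * (t * u + (1 - t) * w) = 0 := by linarith
    exact (mul_eq_zero.1 this).resolve_left (by positivity)
  have hu0 : u ≠ 0 := by
    intro hz
    apply hD1'
    apply h.inj _ _ hz c6
    rw [f1, hz, mul_zero]
  have eW0 : W0 = t * (U - u) := by linarith
  have eW2 : W2 = t * U + w := by linarith
  have eW1 : W1 = t * (t * (U - u)) + t * (t * U + w) := by rw [← ed, eW0, eW2]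
  have eF : u * (1 - t ^ 2) = U * (1 - 2 * t ^ 2) := by
    rw [eW1] at eb; linarith
  have eG : (2 * t - 1) * U + (1 - t) * u + w = 0 := by
    rw [eW1, eW2, eW0] at ee
    have : (t * (1 + t)) * ((2 * t - 1) * U + (1 - t) * u + w) = 0 := by linarith
    exact (mul_eq_zero.1 this).resolve_left (by positivity)
  have eH : (1 - t) * (1 - 2 * t) * U = (1 - 3 * t + t ^ 2) * u := by
    linear_combination (-(1 - t)) * eG + eE
  have key : u * (t ^ 2 * (3 * t - 2)) = 0 := by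
    linear_combination (-(1 - 2 * t ^ 2)) * eH - ((1 - t) * (1 - 2 * t)) * eF
  have k2 := (mul_eq_zero.1 key).resolve_left hu0
  have k3 := (mul_eq_zero.1 k2).resolve_left (by positivity)
  linarith

end Pool.Agent.H95.Scr.ALGx

namespace Pool.Agent.H95.Scr

open ALGx

theorem nonagon_rigid {V : Type*} [AddCommGroup V] [Module ℝ V] (hV : Module.finrank ℝ V = 3)
    (n : Fin 9 → V →ₗ[ℝ] ℝ) (g : Fin 9 → V)
    (h0 : ∀ i, n i (g i) = 0) (h1 : ∀ i, n i (g (i + 1)) = 0)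
    (hp : ∀ i j, j ≠ i → j ≠ i + 1 → 0 < n i (g j))
    (I1 : RelI n 0 4 3 8 1 5) (I2 : RelI n 0 4 3 8 2 7)
    (I3 : RelI n 0 5 6 1 2 7) (I4 : RelI n 0 5 6 1 4 8)
    (I5 : RelI n 3 7 6 2 1 5) (I6 : RelI n 3 7 6 2 4 8)
    (J1 : RelII n 0 3 7 6 2 6 1 3 8) (J2 : RelII n 3 0 5 6 1 0 4 6 2)
    (J3 : RelII n 0 3 7 6 2 1 7 2 8) (J4 : RelII n 0 2 4 3 6 2 6 3 8) :
    ∃ e : Fin 3 → V, ∀ j,
      Pos ((G9 j 0 : ℝ) • e 0 + (G9 j 1 : ℝ) • e 1 + (G9 j 2 : ℝ) • e 2) (g j) := by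
  obtain ⟨P0, P1, P2, t01, t10, t02, t20, t12, t21, h⟩ := stepB hV h0 h1 hp I1 I2 I3 I4 I5 I6
  obtain ⟨Q1, Q2, t, h⟩ := rescale h (J1' h J1) (J2' h J2) (J3' h J3)
  have ht := J4' h J4
  subst ht
  obtain ⟨v0, a0, a1, a2⟩ := surj3 hV h.inj 1 2 2
  obtain ⟨v1, b0, b1, b2⟩ := surj3 hV h.inj 2 1 2
  obtain ⟨v2, c0, c1, c2⟩ := surj3 hV h.inj 2 2 1
  obtain ⟨l0, p0, x0⟩ := h.e0
  obtain ⟨l1, p1, x1⟩ := h.e1
  obtain ⟨l2, p2, x2⟩ := h.e2
  obtain ⟨l3, p3, x3⟩ := h.e3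
  obtain ⟨l4, p4, x4⟩ := h.e4
  obtain ⟨l5, p5, x5⟩ := h.e5
  obtain ⟨l6, p6, x6⟩ := h.e6
  obtain ⟨l7, p7, x7⟩ := h.e7
  obtain ⟨l8, p8, x8⟩ := h.e8
  beta_reduce at x0 x1 x2 x3 x4 x5 x6 x7 x8
  have val0 : ∀ x y z : ℝ, P0 (x • v0 + y • v1 + z • v2) = x * 1 + y * 2 + z * 2 := by
    intro x y z; simp only [map_add, map_smul, smul_eq_mul, a0, b0, c0]
  have val1 : ∀ x y z : ℝ, Q1 (x • v0 + y • v1 + z • v2) = x * 2 + y * 1 + z * 2 := by
    intro x y z; simp only [map_add, map_smul, smul_eq_mul, a1, b1, c1]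
  have val2 : ∀ x y z : ℝ, Q2 (x • v0 + y • v1 + z • v2) = x * 2 + y * 2 + z * 1 := by
    intro x y z; simp only [map_add, map_smul, smul_eq_mul, a2, b2, c2]
  refine ⟨![v0, v1, v2], ?_⟩
  have pos := @pos_of V _ _ n g hV h0 h1 hp
  simp only [Matrix.cons_val_zero, Matrix.cons_val_one, Matrix.cons_val]
  have w0 : Pos ((1 : ℝ) • v0 + (2 : ℝ) • v1 + (0 : ℝ) • v2) (g 0) := by
    apply pos 8
    · rw [x8, val1, val2]; ring
    · show n 0 _ = 0
      rw [x0, val0, val1, val2]; ring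
    · show 0 < n 1 _
      rw [x1, val0, val2]; ring_nf; positivity
  have w1 : Pos ((2 : ℝ) • v0 + (1 : ℝ) • v1 + (0 : ℝ) • v2) (g 1) := by
    apply pos 0
    · rw [x0, val0, val1, val2]; ring
    · show n 1 _ = 0
      rw [x1, val0, val2]; ring
    · show 0 < n 2 _
      rw [x2, val0, val1]; ring_nf; positivity
  have w2 : Pos ((6 : ℝ) • v0 + (1 : ℝ) • v1 + (1 : ℝ) • v2) (g 2) := by
    apply pos 1
    · rw [x1, val0, val2]; ring
    · show n 2 _ = 0
      rw [x2, val0, val1]; ring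
    · show 0 < n 3 _
      rw [x3, val0, val1, val2]; ring_nf; positivity
  have w3 : Pos ((2 : ℝ) • v0 + (0 : ℝ) • v1 + (1 : ℝ) • v2) (g 3) := by
    apply pos 2
    · rw [x2, val0, val1]; ring
    · show n 3 _ = 0
      rw [x3, val0, val1, val2]; ring
    · show 0 < n 4 _
      rw [x4, val1, val2]; ring_nf; positivity
  have w4 : Pos ((1 : ℝ) • v0 + (0 : ℝ) • v1 + (2 : ℝ) • v2) (g 4) := by
    apply pos 3
    · rw [x3, val0, val1, val2]; ring
    · show n 4 _ = 0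
      rw [x4, val1, val2]; ring
    · show 0 < n 5 _
      rw [x5, val0, val2]; ring_nf; positivity
  have w5 : Pos ((1 : ℝ) • v0 + (1 : ℝ) • v1 + (6 : ℝ) • v2) (g 5) := by
    apply pos 4
    · rw [x4, val1, val2]; ring
    · show n 5 _ = 0
      rw [x5, val0, val2]; ring
    · show 0 < n 6 _
      rw [x6, val0, val1, val2]; ring_nf; positivity
  have w6 : Pos ((0 : ℝ) • v0 + (1 : ℝ) • v1 + (2 : ℝ) • v2) (g 6) := by
    apply pos 5
    · rw [x5, val0, val2]; ring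
    · show n 6 _ = 0
      rw [x6, val0, val1, val2]; ring
    · show 0 < n 7 _
      rw [x7, val0, val1]; ring_nf; positivity
  have w7 : Pos ((0 : ℝ) • v0 + (2 : ℝ) • v1 + (1 : ℝ) • v2) (g 7) := by
    apply pos 6
    · rw [x6, val0, val1, val2]; ring
    · show n 7 _ = 0
      rw [x7, val0, val1]; ring
    · show 0 < n 8 _
      rw [x8, val1, val2]; ring_nf; positivity
  have w8 : Pos ((1 : ℝ) • v0 + (6 : ℝ) • v1 + (1 : ℝ) • v2) (g 8) := by
    apply pos 7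
    · rw [x7, val0, val1]; ring
    · show n 8 _ = 0
      rw [x8, val1, val2]; ring
    · show 0 < n 0 _
      rw [x0, val0, val1, val2]; ring_nf; positivity
  intro j
  fin_cases j
  · show Pos (((G9 0 0 : ℤ) : ℝ) • v0 + ((G9 0 1 : ℤ) : ℝ) • v1 + ((G9 0 2 : ℤ) : ℝ) • v2) (g 0)
    rw [show G9 0 0 = 1 from rfl, show G9 0 1 = 2 from rfl, show G9 0 2 = 0 from rfl]
    simp only [Int.cast_one, Int.cast_zero, Int.cast_ofNat]
    exact w0
  · show Pos (((G9 1 0 : ℤ) : ℝ) • v0 + ((G9 1 1 : ℤ) : ℝ) • v1 + ((G9 1 2 : ℤ) : ℝ) • v2) (g 1)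
    rw [show G9 1 0 = 2 from rfl, show G9 1 1 = 1 from rfl, show G9 1 2 = 0 from rfl]
    simp only [Int.cast_one, Int.cast_zero, Int.cast_ofNat]
    exact w1
  · show Pos (((G9 2 0 : ℤ) : ℝ) • v0 + ((G9 2 1 : ℤ) : ℝ) • v1 + ((G9 2 2 : ℤ) : ℝ) • v2) (g 2)
    rw [show G9 2 0 = 6 from rfl, show G9 2 1 = 1 from rfl, show G9 2 2 = 1 from rfl]
    simp only [Int.cast_one, Int.cast_zero, Int.cast_ofNat]
    exact w2
  · show Pos (((G9 3 0 : ℤ) : ℝ) • v0 + ((G9 3 1 : ℤ) : ℝ) • v1 + ((G9 3 2 : ℤ) : ℝ) • v2) (g 3)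
    rw [show G9 3 0 = 2 from rfl, show G9 3 1 = 0 from rfl, show G9 3 2 = 1 from rfl]
    simp only [Int.cast_one, Int.cast_zero, Int.cast_ofNat]
    exact w3
  · show Pos (((G9 4 0 : ℤ) : ℝ) • v0 + ((G9 4 1 : ℤ) : ℝ) • v1 + ((G9 4 2 : ℤ) : ℝ) • v2) (g 4)
    rw [show G9 4 0 = 1 from rfl, show G9 4 1 = 0 from rfl, show G9 4 2 = 2 from rfl]
    simp only [Int.cast_one, Int.cast_zero, Int.cast_ofNat]
    exact w4
  · show Pos (((G9 5 0 : ℤ) : ℝ) • v0 + ((G9 5 1 : ℤ) : ℝ) • v1 + ((G9 5 2 : ℤ) : ℝ) • v2) (g 5)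
    rw [show G9 5 0 = 1 from rfl, show G9 5 1 = 1 from rfl, show G9 5 2 = 6 from rfl]
    simp only [Int.cast_one, Int.cast_zero, Int.cast_ofNat]
    exact w5
  · show Pos (((G9 6 0 : ℤ) : ℝ) • v0 + ((G9 6 1 : ℤ) : ℝ) • v1 + ((G9 6 2 : ℤ) : ℝ) • v2) (g 6)
    rw [show G9 6 0 = 0 from rfl, show G9 6 1 = 1 from rfl, show G9 6 2 = 2 from rfl]
    simp only [Int.cast_one, Int.cast_zero, Int.cast_ofNat]
    exact w6
  · show Pos (((G9 7 0 : ℤ) : ℝ) • v0 + ((G9 7 1 : ℤ) : ℝ) • v1 + ((G9 7 2 : ℤ) : ℝ) • v2) (g 7)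
    rw [show G9 7 0 = 0 from rfl, show G9 7 1 = 2 from rfl, show G9 7 2 = 1 from rfl]
    simp only [Int.cast_one, Int.cast_zero, Int.cast_ofNat]
    exact w7
  · show Pos (((G9 8 0 : ℤ) : ℝ) • v0 + ((G9 8 1 : ℤ) : ℝ) • v1 + ((G9 8 2 : ℤ) : ℝ) • v2) (g 8)
    rw [show G9 8 0 = 1 from rfl, show G9 8 1 = 6 from rfl, show G9 8 2 = 1 from rfl]
    simp only [Int.cast_one, Int.cast_zero, Int.cast_ofNat]
    exact w8

end Pool.Agent.H95.Scr
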