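import Pool.Agent.H95.Scr.Defs

set_option autoImplicit false

namespace Pool.Agent.H95.Scr

open Pool.Agent.Helper101_Scrib (Amb conicHull IsPolytopeCone linDim sphBall bil)

namespace BRIDGEx

variable {d : ℕ}

/-- forget the coordinate `0` -/
noncomputable def tl : Amb d →ₗ[ℝ] E d where
  toFun x := WithLp.toLp 2 (fun i => x i.succ)
  map_add' x y := by ext i; simp
  map_smul' a x := by ext i; simp

theorem tl_apply (x : Amb d) (i : Fin d) : tl x i = x i.succ := rfl

/-- the hyperplane `x 0 = 0` -/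
noncomputable def io : E d →ₗ[ℝ] Amb d where
  toFun y := Fin.cons 0 (fun i => y i)
  map_add' x y := by
    ext i
    refine Fin.cases ?_ (fun j => ?_) i
    · simp
    · simp
  map_smul' a x := by
    ext i
    refine Fin.cases ?_ (fun j => ?_) i
    · simp
    · simp

theorem io_zero (y : E d) : io y 0 = 0 := rfl

theorem io_succ (y : E d) (i : Fin d) : io y i.succ = y i := rfl

/-- the point `(1, y)` -/
noncomputable def hh (y : E d) : Amb d := Fin.cons 1 (fun i => y i)

theorem hh_zero (y : E d) : hh y 0 = 1 := rfl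

theorem hh_succ (y : E d) (i : Fin d) : hh y i.succ = y i := rfl

theorem hh_ne (y : E d) : hh y ≠ 0 := by
  intro h
  have := congrFun h 0
  rw [hh_zero] at this
  exact one_ne_zero this

theorem tl_hh (y : E d) : tl (hh y) = y := by
  ext i
  rw [tl_apply, hh_succ]

theorem hh_eq (y z : E d) : hh y = hh z + io (y - z) := by
  ext i
  refine Fin.cases ?_ (fun j => ?_) i
  · rw [Pi.add_apply, hh_zero, hh_zero, io_zero, add_zero]
  · rw [Pi.add_apply, hh_succ, hh_succ, io_succ, PiLp.sub_apply]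
    ring

/-- projection to the affine chart -/
noncomputable def prj (x : Amb d) : E d := (x 0)⁻¹ • tl x

theorem prj_hh (y : E d) : prj (hh y) = y := by
  rw [prj, hh_zero, inv_one, one_smul, tl_hh]

theorem smul_prj {x : Amb d} (hx : 0 < x 0) : x 0 • prj x = tl x := by
  rw [prj, smul_smul, mul_inv_cancel₀ hx.ne', one_smul]

theorem eq_smul {x : Amb d} (hx : 0 < x 0) : x = x 0 • hh (prj x) := by
  ext i
  refine Fin.cases ?_ (fun j => ?_) i
  · rw [Pi.smul_apply, hh_zero, smul_eq_mul, mul_one]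
  · rw [Pi.smul_apply, hh_succ, smul_eq_mul]
    have := congrArg (fun z : E d => z j) (smul_prj hx)
    simp only [PiLp.smul_apply, smul_eq_mul] at this
    rw [this, tl_apply]

theorem prj_smul {a : ℝ} (ha : 0 < a) (y : E d) : prj (a • hh y) = y := by
  rw [prj, map_smul, tl_hh, Pi.smul_apply, hh_zero, smul_eq_mul, mul_one, smul_smul,
    inv_mul_cancel₀ ha.ne', one_smul]

/-- the cone over `Q` -/
def cn (Q : Set (E d)) : Set (Amb d) := {x | x = 0 ∨ (0 < x 0 ∧ prj x ∈ Q)}

theorem hh_mem_cn {Q : Set (E d)} {y : E d} : hh y ∈ cn Q ↔ y ∈ Q := by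
  constructor
  · rintro (h | ⟨_, h⟩)
    · exact absurd h (hh_ne y)
    · rwa [prj_hh] at h
  · intro h
    right
    rw [hh_zero, prj_hh]
    exact ⟨one_pos, h⟩

theorem cn_subset {F G : Set (E d)} : cn F ⊆ cn G ↔ F ⊆ G := by
  constructor
  · intro h y hy
    exact hh_mem_cn.1 (h (hh_mem_cn.2 hy))
  · rintro h x (hx | ⟨h0, hx⟩)
    · exact Or.inl hx
    · exact Or.inr ⟨h0, h hx⟩

theorem hh_sum {ι : Type*} (t : Finset ι) (w : ι → ℝ) (z : ι → E d) (hw : ∑ i ∈ t, w i = 1) :
    hh (∑ i ∈ t, w i • z i) = ∑ i ∈ t, w i • hh (z i) := by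
  ext i
  rw [Finset.sum_apply]
  refine Fin.cases ?_ (fun j => ?_) i
  · simp only [Pi.smul_apply, hh_zero, smul_eq_mul, mul_one]
    exact hw.symm
  · simp only [Pi.smul_apply, hh_succ, smul_eq_mul]
    have : (∑ i ∈ t, w i • z i) j = ∑ i ∈ t, (w i • z i) j := by
      simp
    rw [this]
    rfl

open Classical in
theorem cn_convexHull (V : Finset (E d)) :
    cn (convexHull ℝ (V : Set (E d))) = conicHull (V.image hh) := by
  have hinj : ∀ x ∈ V, ∀ y ∈ V, hh x = hh y → x = y := by
    intro x _ y _ h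
    rw [← prj_hh x, h, prj_hh]
  apply Set.Subset.antisymm
  · rintro x (hx | ⟨h0, hx⟩)
    · rw [hx]
      exact Pool.Agent.Helper101_Scrib.zero_mem_conicHull _
    · rw [Finset.mem_convexHull'] at hx
      obtain ⟨w, hw0, hw1, hwx⟩ := hx
      rw [eq_smul h0, ← hwx, hh_sum V w (fun y => y) hw1]
      apply Pool.Agent.Helper101_Scrib.smul_mem_conicHull h0.le
      apply Pool.Agent.Helper101_Scrib.sum_mem_conicHull
      intro y hy
      exact Pool.Agent.Helper101_Scrib.smul_mem_conicHull (hw0 y hy)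
        (Pool.Agent.Helper101_Scrib.subset_conicHull _ (Finset.mem_image_of_mem _ hy))
  · rintro x ⟨c, hc, rfl⟩
    rw [Finset.sum_image hinj]
    set W := ∑ y ∈ V, c (hh y) with hW
    have hcV : ∀ y ∈ V, 0 ≤ c (hh y) := fun y hy => hc _ (Finset.mem_image_of_mem _ hy)
    have hW0 : 0 ≤ W := Finset.sum_nonneg hcV
    rcases hW0.eq_or_lt with h | h
    · left
      rw [hW] at h
      rw [eq_comm, Finset.sum_eq_zero_iff_of_nonneg hcV] at h
      apply Finset.sum_eq_zero
      intro y hy
      rw [h y hy, zero_smul]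
    · right
      have h1 : ∑ y ∈ V, c (hh y) • hh y = W • hh (∑ y ∈ V, (c (hh y) / W) • y) := by
        rw [hh_sum V (fun y => c (hh y) / W) (fun y => y), Finset.smul_sum]
        · apply Finset.sum_congr rfl
          intro y _
          rw [smul_smul, mul_div_cancel₀ _ h.ne']
        · rw [← Finset.sum_div, ← hW, div_self h.ne']
      rw [h1]
      refine ⟨?_, ?_⟩
      · rw [Pi.smul_apply, hh_zero, smul_eq_mul, mul_one]
        exact h
      · rw [prj_smul h, Finset.mem_convexHull']
        refine ⟨fun y => c (hh y) / W, fun y hy => div_nonneg (hcV y hy) h.le, ?_, rfl⟩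
        rw [← Finset.sum_div, ← hW, div_self h.ne']

/-- the linear functional `c x_0 - l` -/
noncomputable def LL (l : E d →ₗ[ℝ] ℝ) (c : ℝ) : Amb d →ₗ[ℝ] ℝ :=
  c • LinearMap.proj 0 - l.comp tl

theorem LL_apply (l : E d →ₗ[ℝ] ℝ) (c : ℝ) (x : Amb d) : LL l c x = c * x 0 - l (tl x) := by
  simp [LL]

theorem LL_pos (l : E d →ₗ[ℝ] ℝ) (c : ℝ) {x : Amb d} (hx : 0 < x 0) :
    LL l c x = x 0 * (c - l (prj x)) := by
  rw [LL_apply, ← smul_prj hx, map_smul, smul_eq_mul]
  ring

theorem face_cn {Q F : Set (E d)} (h : IsFace Q F) :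
    Pool.Agent.Helper101_Scrib.IsFace (cn Q) (cn F) := by
  obtain ⟨l, c, hl, rfl⟩ := h
  refine ⟨LL l c, ?_, ?_⟩
  · rintro x (hx | ⟨h0, hx⟩)
    · rw [hx, map_zero]
    · rw [LL_pos l c h0]
      exact mul_nonneg h0.le (by linarith [hl _ hx])
  · ext x
    constructor
    · rintro (hx | ⟨h0, hx1, hx2⟩)
      · exact ⟨Or.inl hx, by rw [hx, map_zero]⟩
      · refine ⟨Or.inr ⟨h0, hx1⟩, ?_⟩
        rw [LL_pos l c h0, hx2, sub_self, mul_zero]
    · rintro ⟨hx | ⟨h0, hx⟩, h2⟩
      · exact Or.inl hx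
      · refine Or.inr ⟨h0, hx, ?_⟩
        rw [LL_pos l c h0] at h2
        rcases mul_eq_zero.1 h2 with h3 | h3
        · exact absurd h3 h0.ne'
        · linarith

theorem L_hh (L : Amb d →ₗ[ℝ] ℝ) (y : E d) : L (hh y) = L (hh 0) - (-(L.comp io)) y := by
  rw [hh_eq y 0, map_add, sub_zero]
  simp

theorem face_of_cn {Q : Set (E d)} {G : Set (Amb d)}
    (h : Pool.Agent.Helper101_Scrib.IsFace (cn Q) G) : ∃ F, IsFace Q F ∧ cn F = G := by
  obtain ⟨L, hL, rfl⟩ := h
  refine ⟨{y | y ∈ Q ∧ (-(L.comp io)) y = L (hh 0)}, ⟨-(L.comp io), L (hh 0), ?_, rfl⟩, ?_⟩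
  · intro y hy
    have := hL _ (hh_mem_cn.2 hy)
    rw [L_hh] at this
    linarith
  · ext x
    constructor
    · rintro (hx | ⟨h0, hx1, hx2⟩)
      · exact ⟨Or.inl hx, by rw [hx, map_zero]⟩
      · refine ⟨Or.inr ⟨h0, hx1⟩, ?_⟩
        rw [eq_smul h0, map_smul, L_hh, hx2, sub_self, smul_zero]
    · rintro ⟨hx | ⟨h0, hx⟩, h2⟩
      · exact Or.inl hx
      · refine Or.inr ⟨h0, hx, ?_⟩
        rw [eq_smul h0, map_smul, L_hh, smul_eq_mul] at h2
        rcases mul_eq_zero.1 h2 with h3 | h3
        · exact absurd h3 h0.ne'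
        · linarith

/-- the face lattice of the cone -/
noncomputable def cnIso (Q : Set (E d)) :
    {F : Set (E d) // IsFace Q F} ≃o
      {G : Set (Amb d) // Pool.Agent.Helper101_Scrib.IsFace (cn Q) G} :=
  RelIso.ofSurjective
    (OrderEmbedding.ofMapLEIff
      (fun F => (⟨cn F.1, face_cn F.2⟩ :
        {G : Set (Amb d) // Pool.Agent.Helper101_Scrib.IsFace (cn Q) G}))
      (fun F G => cn_subset))
    (by
      rintro ⟨G, hG⟩
      obtain ⟨F, hF, hFG⟩ := face_of_cn hG
      exact ⟨⟨F, hF⟩, Subtype.ext hFG⟩)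

theorem span_cn (F : Set (E d)) : Submodule.span ℝ (cn F) = Submodule.span ℝ (hh '' F) := by
  apply le_antisymm
  · rw [Submodule.span_le]
    rintro x (hx | ⟨h0, hx⟩)
    · rw [hx]; exact Submodule.zero_mem _
    · rw [SetLike.mem_coe, eq_smul h0]
      exact Submodule.smul_mem _ _ (Submodule.subset_span ⟨_, hx, rfl⟩)
  · apply Submodule.span_mono
    rintro _ ⟨y, hy, rfl⟩
    exact hh_mem_cn.2 hy

theorem io_inj : Function.Injective (io : E d →ₗ[ℝ] Amb d) := by
  intro x y h
  ext i
  have := congrFun h i.succ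
  rwa [io_succ, io_succ] at this

theorem span_eq {F : Set (E d)} {y₀ : E d} (hy : y₀ ∈ F) : Submodule.span ℝ (hh '' F) =
    Submodule.span ℝ {hh y₀} ⊔ Submodule.map io (vectorSpan ℝ F) := by
  apply le_antisymm
  · rw [Submodule.span_le]
    rintro _ ⟨y, hy', rfl⟩
    rw [SetLike.mem_coe, hh_eq y y₀]
    apply Submodule.add_mem_sup
    · exact Submodule.mem_span_singleton_self _
    · exact Submodule.mem_map_of_mem (vsub_mem_vectorSpan ℝ hy' hy)
  · apply sup_le
    · rw [Submodule.span_le, Set.singleton_subset_iff]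
      exact Submodule.subset_span ⟨y₀, hy, rfl⟩
    · rw [vectorSpan_eq_span_vsub_set_right ℝ hy, Submodule.map_span, Submodule.span_le]
      rintro _ ⟨_, ⟨y, hy', rfl⟩, rfl⟩
      have h1 : io (y -ᵥ y₀) = hh y - hh y₀ := by
        rw [hh_eq y y₀, vsub_eq_sub]
        abel
      rw [SetLike.mem_coe]
      show io (y -ᵥ y₀) ∈ _
      rw [h1]
      exact Submodule.sub_mem _ (Submodule.subset_span ⟨y, hy', rfl⟩)
        (Submodule.subset_span ⟨y₀, hy, rfl⟩)

theorem linDim_cn {F : Set (E d)} (hF : F.Nonempty) : linDim (cn F) = faceDim F + 1 := by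
  obtain ⟨y₀, hy⟩ := hF
  rw [linDim, span_cn, span_eq hy, faceDim]
  have hdisj : Submodule.span ℝ {hh y₀} ⊓ Submodule.map io (vectorSpan ℝ F) = ⊥ := by
    rw [eq_bot_iff]
    rintro x ⟨h1, h2⟩
    rw [SetLike.mem_coe, Submodule.mem_span_singleton] at h1
    obtain ⟨a, rfl⟩ := h1
    rw [SetLike.mem_coe, Submodule.mem_map] at h2
    obtain ⟨y, _, hy2⟩ := h2
    have := congrFun hy2 0
    rw [io_zero, Pi.smul_apply, hh_zero, smul_eq_mul, mul_one] at this
    rw [← this, zero_smul]
    exact Submodule.zero_mem _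
  have h1 := Submodule.finrank_sup_add_finrank_inf_eq (Submodule.span ℝ {hh y₀})
    (Submodule.map io (vectorSpan ℝ F))
  rw [hdisj, finrank_bot, add_zero, finrank_span_singleton (hh_ne y₀)] at h1
  have h2 : Module.finrank ℝ (Submodule.map io (vectorSpan ℝ F)) =
      Module.finrank ℝ (vectorSpan ℝ F) :=
    (LinearEquiv.finrank_eq (Submodule.equivMapOfInjective io io_inj _)).symm
  omega

theorem cn_empty : cn (∅ : Set (E d)) = {0} := by
  ext x
  constructor
  · rintro (h | ⟨_, h⟩)
    · exact h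
    · exact absurd h (Set.notMem_empty _)
  · intro h
    exact Or.inl h

theorem linDim_cn_empty : linDim (cn (∅ : Set (E d))) = 0 := by
  rw [cn_empty, linDim, Submodule.span_zero_singleton, finrank_bot]

theorem nonempty_of_linDim {F : Set (E d)} (h : 1 ≤ linDim (cn F)) : F.Nonempty := by
  rw [Set.nonempty_iff_ne_empty]
  rintro rfl
  rw [linDim_cn_empty] at h
  omega

theorem cone_polytope {Q : Set (E d)} (hQ : IsPolytope d Q) : IsPolytopeCone d (cn Q) := by
  classical
  obtain ⟨⟨V, hV⟩, htop⟩ := hQ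
  refine ⟨⟨V.image hh, ?_⟩, ?_, ?_⟩
  · rw [hV]; exact cn_convexHull V
  · rintro x (hx | ⟨h0, _⟩) hx2
    · exact hx
    · rcases hx2 with h | ⟨h1, _⟩
      · exact neg_eq_zero.1 h
      · rw [Pi.neg_apply] at h1
        linarith
  · have hne : Q.Nonempty := by
      rw [Set.nonempty_iff_ne_empty]
      rintro rfl
      rw [AffineSubspace.span_empty] at htop
      exact AffineSubspace.bot_ne_top ℝ (E d) (E d) htop
    have h1 := AffineSubspace.vectorSpan_eq_top_of_affineSpan_eq_top ℝ (E d) (E d) htop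
    have h2 := linDim_cn hne
    rw [faceDim, h1, finrank_top, finrank_euclideanSpace_fin] at h2
    apply Submodule.eq_top_of_finrank_eq
    rw [Module.finrank_fin_fun]
    exact h2

end BRIDGEx

open BRIDGEx

theorem bridge {d : ℕ} (hd : 1 ≤ d) {s : Finset (Amb d)} (hpos : ∀ v ∈ s, 0 < v 0)
    (hspan : Submodule.span ℝ (s : Set (Amb d)) = ⊤)
    (hmain : ∀ K' : Set (Amb d), IsPolytopeCone d K' →
      Pool.Agent.Helper101_Scrib.SameType (conicHull s) K' →
      (∀ F, Pool.Agent.Helper101_Scrib.IsFace K' F → linDim F = 1 →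
        ∃ l : Amb d →ₗ[ℝ] ℝ, l ≠ 0 ∧ (∀ x ∈ sphBall d, 0 ≤ l x) ∧ ∀ x ∈ F, l x = 0) →
      (∀ F, Pool.Agent.Helper101_Scrib.IsFace K' F → linDim F = d →
        ∃ x ∈ F, x ≠ 0 ∧ bil x x ≤ 0) → False) :
    ∃ P : Set (E d), IsPolytope d P ∧ ¬ Scribable d 0 (d - 1) P := by
  classical
  set V : Finset (E d) := s.image prj with hV
  set P : Set (E d) := convexHull ℝ (V : Set (E d)) with hP
  have hcone : cn P = conicHull s := by
    rw [hP, cn_convexHull]
    apply Set.Subset.antisymm
    · apply Pool.Agent.Helper101_Scrib.conicHull_subset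
      intro u hu
      rw [hV, Finset.image_image, Finset.mem_image] at hu
      obtain ⟨v, hv, rfl⟩ := hu
      have h1 : (hh ∘ prj) v = (v 0)⁻¹ • v := by
        rw [Function.comp_apply]
        conv_rhs => rw [eq_smul (hpos v hv)]
        rw [Pi.smul_apply, hh_zero, smul_eq_mul, mul_one, smul_smul,
          inv_mul_cancel₀ (hpos v hv).ne', one_smul]
      rw [h1]
      exact Pool.Agent.Helper101_Scrib.smul_mem_conicHull (inv_nonneg.2 (hpos v hv).le)
        (Pool.Agent.Helper101_Scrib.subset_conicHull s hv)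
    · apply Pool.Agent.Helper101_Scrib.conicHull_subset
      intro v hv
      rw [eq_smul (hpos v hv)]
      apply Pool.Agent.Helper101_Scrib.smul_mem_conicHull (hpos v hv).le
      apply Pool.Agent.Helper101_Scrib.subset_conicHull
      exact Finset.mem_image_of_mem _ (Finset.mem_image_of_mem _ hv)
  have hsne : s.Nonempty := by
    rw [Finset.nonempty_iff_ne_empty]
    rintro rfl
    rw [Finset.coe_empty, Submodule.span_empty] at hspan
    have : (hh (0 : E d)) ∈ (⊥ : Submodule ℝ (Amb d)) := by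
      rw [hspan]; exact Submodule.mem_top
    exact hh_ne _ ((Submodule.mem_bot ℝ).1 this)
  have hPne : P.Nonempty := by
    obtain ⟨v, hv⟩ := hsne
    exact ⟨prj v, subset_convexHull ℝ _ (Finset.mem_coe.2 (Finset.mem_image_of_mem _ hv))⟩
  refine ⟨P, ⟨⟨V, rfl⟩, ?_⟩, ?_⟩
  · rw [AffineSubspace.affineSpan_eq_top_iff_vectorSpan_eq_top_of_nonempty ℝ (E d) (E d) hPne]
    apply Submodule.eq_top_of_finrank_eq
    have h1 := linDim_cn hPne
    rw [hcone, linDim, Pool.Agent.Helper101_Scrib.span_conicHull, hspan, finrank_top,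
      Module.finrank_fin_fun, faceDim] at h1
    rw [finrank_euclideanSpace_fin]
    omega
  · rintro ⟨Q, hQ, ⟨Φ⟩, hav, hcut⟩
    apply hmain (cn Q) (cone_polytope hQ)
    · rw [← hcone]
      exact ⟨(cnIso P).symm.trans (Φ.trans (cnIso Q))⟩
    · intro G hG hdim
      obtain ⟨F, hF, rfl⟩ := face_of_cn hG
      have hne : F.Nonempty := nonempty_of_linDim (by omega)
      have h1 := linDim_cn hne
      obtain ⟨l, c, hl0, hlQ, hFe, hball⟩ := hav F hF hne (by omega)
      refine ⟨LL l c, ?_, ?_, ?_⟩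
      · intro h
        apply hl0
        ext y
        have h2 : LL l c (io y) = 0 := by rw [h]; rfl
        rw [LL_apply, io_zero, mul_zero, zero_sub, neg_eq_zero] at h2
        have h3 : tl (io y) = y := by
          ext i
          rw [tl_apply, io_succ]
        rw [h3] at h2
        rw [h2]; rfl
      · intro x hx
        obtain ⟨hx1, hx2, hx3⟩ := hx
        have h0 : 0 < x 0 := by
          rcases hx2.eq_or_lt with h | h
          · exfalso
            rw [Fin.sum_univ_succ, ← h] at hx1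
            rw [← h] at hx3
            norm_num at hx1 hx3
            linarith
          · exact h
        rw [LL_pos l c h0]
        apply mul_nonneg h0.le
        have h2 : prj x ∈ ball d := by
          rw [ball, mem_closedBall_zero_iff]
          have h3 : ‖tl x‖ ≤ x 0 := by
            rw [EuclideanSpace.norm_eq]
            apply Real.sqrt_le_iff.2
            refine ⟨h0.le, ?_⟩
            refine le_trans (le_of_eq ?_) hx3
            apply Finset.sum_congr rfl
            intro i _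
            rw [tl_apply, Real.norm_eq_abs, sq_abs]
          rw [prj, norm_smul, Real.norm_eq_abs, abs_of_pos (inv_pos.2 h0)]
          rw [inv_mul_le_iff₀ h0, mul_one]
          exact h3
        linarith [hball _ h2]
      · rintro x (hx | ⟨h0, hx⟩)
        · rw [hx, map_zero]
        · rw [hFe] at hx
          rw [LL_pos l c h0, hx.2, sub_self, mul_zero]
    · intro G hG hdim
      obtain ⟨F, hF, rfl⟩ := face_of_cn hG
      have hne : F.Nonempty := nonempty_of_linDim (by omega)
      have h1 := linDim_cn hne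
      obtain ⟨y, hy1, hy2⟩ := hcut F hF hne (by omega)
      refine ⟨hh y, hh_mem_cn.2 (intrinsicInterior_subset hy1), hh_ne y, ?_⟩
      rw [Pool.Agent.Helper101_Scrib.bil_self, hh_zero]
      rw [ball, mem_closedBall_zero_iff] at hy2
      have h3 : ∑ i : Fin d, hh y i.succ ^ 2 = ‖y‖ ^ 2 := by
        rw [EuclideanSpace.norm_eq, Real.sq_sqrt (Finset.sum_nonneg (fun i _ => sq_nonneg _))]
        apply Finset.sum_congr rfl
        intro i _
        rw [hh_succ, Real.norm_eq_abs, sq_abs]
      rw [h3]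
      have h4 : ‖y‖ ^ 2 ≤ 1 := by
        have := norm_nonneg y
        nlinarith
      linarith

end Pool.Agent.H95.Scr

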