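import Pool.Agent.H95.Scr.Defs

/-!
# Project SCR (helper95), task FRAME: the frames of the triples of indices are restrictions of one frame
-/

set_option autoImplicit false

namespace Pool.Agent.H95.Scr

namespace FRAMEx

variable {V : Type*} [AddCommGroup V] [Module ℝ V] {m : ℕ}

lemma pos_smul {x y : V} (h : Pos x y) {t : ℝ} (ht : 0 < t) : Pos (t • x) y := by
  obtain ⟨c, hc, rfl⟩ := h
  exact ⟨t * c, mul_pos ht hc, by rw [smul_smul]⟩

/-- the nine relations of a frame -/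
def Fr (U : Fin m → Fin m → V) (W : Fin m → Fin m → Fin m → V) (k l r : Fin m) (e0 e1 e2 : V) : Prop :=
  Pos ((2 : ℝ) • e0 + e1) (U k l) ∧ Pos (e0 + (2 : ℝ) • e1) (U l k) ∧
  Pos ((2 : ℝ) • e0 + e2) (U k r) ∧ Pos (e0 + (2 : ℝ) • e2) (U r k) ∧
  Pos ((2 : ℝ) • e1 + e2) (U l r) ∧ Pos (e1 + (2 : ℝ) • e2) (U r l) ∧
  Pos ((6 : ℝ) • e0 + e1 + e2) (W k l r) ∧ Pos (e0 + (6 : ℝ) • e1 + e2) (W l k r) ∧
  Pos (e0 + e1 + (6 : ℝ) • e2) (W r k l)

variable {U : Fin m → Fin m → V} {W : Fin m → Fin m → Fin m → V}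

lemma fr_swap12 (hW : ∀ k l r, W k l r = W k r l) {k l r : Fin m} {x y z : V}
    (h : Fr U W k l r x y z) : Fr U W l k r y x z := by
  obtain ⟨h1, h2, h3, h4, h5, h6, h7, h8, h9⟩ := h
  refine ⟨?_, ?_, h5, h6, h3, h4, ?_, ?_, ?_⟩
  · rw [add_comm]; exact h2
  · rw [add_comm]; exact h1
  · rw [add_comm ((6 : ℝ) • y) x]; exact h8
  · rw [add_comm y ((6 : ℝ) • x)]; exact h7
  · rw [hW r l k, add_comm y x]; exact h9

lemma fr_swap23 (hW : ∀ k l r, W k l r = W k r l) {k l r : Fin m} {x y z : V}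
    (h : Fr U W k l r x y z) : Fr U W k r l x z y := by
  obtain ⟨h1, h2, h3, h4, h5, h6, h7, h8, h9⟩ := h
  refine ⟨h3, h4, h1, h2, ?_, ?_, ?_, ?_, ?_⟩
  · rw [add_comm]; exact h6
  · rw [add_comm]; exact h5
  · rw [hW k r l, add_assoc, add_comm z y, ← add_assoc]; exact h7
  · rw [add_right_comm]; exact h9
  · rw [hW l k r] at h8
    rw [hW l k r, add_right_comm]; exact h8

lemma fr_smul {k l r : Fin m} {x y z : V} (h : Fr U W k l r x y z) {t : ℝ} (ht : 0 < t) :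
    Fr U W k l r (t • x) (t • y) (t • z) := by
  obtain ⟨h1, h2, h3, h4, h5, h6, h7, h8, h9⟩ := h
  have e2 : ∀ (u v : V) (a b : ℝ), a • (t • u) + b • (t • v) = t • (a • u + b • v) := by
    intro u v a b; rw [smul_add, smul_comm t a u, smul_comm t b v]
  refine ⟨?_, ?_, ?_, ?_, ?_, ?_, ?_, ?_, ?_⟩
  · have := pos_smul h1 ht; rwa [smul_add, smul_comm t (2 : ℝ) x] at this
  · have := pos_smul h2 ht; rwa [smul_add, smul_comm t (2 : ℝ) y] at this
  · have := pos_smul h3 ht; rwa [smul_add, smul_comm t (2 : ℝ) x] at this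
  · have := pos_smul h4 ht; rwa [smul_add, smul_comm t (2 : ℝ) z] at this
  · have := pos_smul h5 ht; rwa [smul_add, smul_comm t (2 : ℝ) y] at this
  · have := pos_smul h6 ht; rwa [smul_add, smul_comm t (2 : ℝ) z] at this
  · have := pos_smul h7 ht; rwa [smul_add, smul_add, smul_comm t (6 : ℝ) x] at this
  · have := pos_smul h8 ht; rwa [smul_add, smul_add, smul_comm t (6 : ℝ) y] at this
  · have := pos_smul h9 ht; rwa [smul_add, smul_add, smul_comm t (6 : ℝ) z] at this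

/-- a property of triples that is symmetric and true for sorted triples is true for all distinct ones -/
lemma of_sorted (P : Fin m → Fin m → Fin m → Prop) (h12 : ∀ k l r, P k l r → P l k r)
    (h23 : ∀ k l r, P k l r → P k r l) (hs : ∀ k l r, k < l → l < r → P k l r) :
    ∀ k l r, k ≠ l → k ≠ r → l ≠ r → P k l r := by
  intro k l r hkl hkr hlr
  rcases lt_or_gt_of_ne hkl with h1 | h1
  · rcases lt_or_gt_of_ne hlr with h2 | h2
    · exact hs k l r h1 h2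
    · rcases lt_or_gt_of_ne hkr with h3 | h3
      · exact h23 _ _ _ (hs k r l h3 h2)
      · exact h23 _ _ _ (h12 _ _ _ (hs r k l h3 h1))
  · rcases lt_or_gt_of_ne hkr with h3 | h3
    · exact h12 _ _ _ (hs l k r h1 h3)
    · rcases lt_or_gt_of_ne hlr with h2 | h2
      · exact h12 _ _ _ (h23 _ _ _ (hs l r k h2 h3))
      · exact h12 _ _ _ (h23 _ _ _ (h12 _ _ _ (hs r l k h2 h1)))

/-- the functional of `hout` -/
def Out (U : Fin m → Fin m → V) (k l r : Fin m) : Prop :=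
  ∀ j, j ≠ k → j ≠ l → j ≠ r → ∃ ψ : V →ₗ[ℝ] ℝ,
      ψ (U k l) = 0 ∧ ψ (U l k) = 0 ∧ ψ (U k r) = 0 ∧ ψ (U r k) = 0 ∧ ψ (U l r) = 0 ∧
      ψ (U r l) = 0 ∧ ψ (U k j) ≠ 0 ∧ ψ (U l j) ≠ 0 ∧ ψ (U r j) ≠ 0

lemma out_swap12 (k l r : Fin m) (h : Out U k l r) : Out U l k r := by
  intro j h1 h2 h3
  obtain ⟨ψ, a1, a2, a3, a4, a5, a6, a7, a8, a9⟩ := h j h2 h1 h3
  exact ⟨ψ, a2, a1, a5, a6, a3, a4, a8, a7, a9⟩

lemma out_swap23 (k l r : Fin m) (h : Out U k l r) : Out U k r l := by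
  intro j h1 h2 h3
  obtain ⟨ψ, a1, a2, a3, a4, a5, a6, a7, a8, a9⟩ := h j h1 h3 h2
  exact ⟨ψ, a3, a4, a1, a2, a6, a5, a7, a9, a8⟩

/-- two frames which share the pair `(k, s)` agree on this pair up to a positive factor -/
lemma compare {k s l r : Fin m} (hsk : s ≠ k) (hsl : s ≠ l) (hsr : s ≠ r)
    (hout : Out U k l r) {x y z x' y' z' : V} (h : Fr U W k s l x y z)
    (h' : Fr U W k s r x' y' z') : ∃ c : ℝ, 0 < c ∧ x' = c • x ∧ y' = c • y := by
  obtain ⟨ψ, a1, a2, a3, a4, -, -, a7, -, -⟩ := hout s hsk hsl hsr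
  obtain ⟨⟨c1, c1p, e1⟩, ⟨c2, c2p, e2⟩, ⟨c3, c3p, e3⟩, ⟨c4, c4p, e4⟩, -⟩ := h
  obtain ⟨⟨d1, d1p, f1⟩, ⟨d2, d2p, f2⟩, ⟨d3, d3p, f3⟩, ⟨d4, d4p, f4⟩, -⟩ := h'
  have p3 : 2 * ψ x + ψ z = 0 := by
    have := congrArg ψ e3; simpa [a1] using this
  have p4 : ψ x + 2 * ψ z = 0 := by
    have := congrArg ψ e4; simpa [a2] using this
  have hx : ψ x = 0 := by linarith
  have q3 : 2 * ψ x' + ψ z' = 0 := by
    have := congrArg ψ f3; simpa [a3] using this
  have q4 : ψ x' + 2 * ψ z' = 0 := by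
    have := congrArg ψ f4; simpa [a4] using this
  have hx' : ψ x' = 0 := by linarith
  have p1 : 2 * ψ x + ψ y = c1 * ψ (U k s) := by
    have := congrArg ψ e1; simpa using this
  have hy : ψ y ≠ 0 := by
    have : ψ y = c1 * ψ (U k s) := by linarith
    rw [this]; exact mul_ne_zero c1p.ne' a7
  have g1 : (2 : ℝ) • x' + y' = (d1 / c1) • ((2 : ℝ) • x + y) := by
    rw [f1, e1, smul_smul, div_mul_cancel₀ _ c1p.ne']
  have g2 : x' + (2 : ℝ) • y' = (d2 / c2) • (x + (2 : ℝ) • y) := by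
    rw [f2, e2, smul_smul, div_mul_cancel₀ _ c2p.ne']
  set α := d1 / c1 with hα
  set β := d2 / c2 with hβ
  have hαp : 0 < α := div_pos d1p c1p
  have w1 : 2 * ψ x' + ψ y' = α * (2 * ψ x + ψ y) := by
    have := congrArg ψ g1
    simp only [map_add, map_smul, smul_eq_mul] at this
    exact this
  have w2 : ψ x' + 2 * ψ y' = β * (ψ x + 2 * ψ y) := by
    have := congrArg ψ g2
    simp only [map_add, map_smul, smul_eq_mul] at this
    exact this
  have hab : α = β := by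
    have h1 : ψ y' = α * ψ y := by rw [hx, hx'] at w1; linarith
    have h2 : 2 * ψ y' = β * (2 * ψ y) := by rw [hx, hx'] at w2; linarith
    have h3 : (α - β) * ψ y = 0 := by linarith
    rcases mul_eq_zero.1 h3 with h | h
    · linarith
    · exact absurd h hy
  rw [← hab] at g2
  refine ⟨α, hαp, ?_, ?_⟩
  · have h3 : (3 : ℝ) • x' = (3 : ℝ) • (α • x) := by
      have h4 : (3 : ℝ) • x' = (2 : ℝ) • ((2 : ℝ) • x' + y') - (x' + (2 : ℝ) • y') := by module
      rw [h4, g1, g2]; module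
    exact smul_right_injective V (by norm_num : (3 : ℝ) ≠ 0) h3
  · have h3 : (3 : ℝ) • y' = (3 : ℝ) • (α • y) := by
      have h4 : (3 : ℝ) • y' = (2 : ℝ) • (x' + (2 : ℝ) • y') - ((2 : ℝ) • x' + y') := by module
      rw [h4, g1, g2]; module
    exact smul_right_injective V (by norm_num : (3 : ℝ) ≠ 0) h3

/-- two frame vectors are independent -/
lemma indep {k l : Fin m} (hind : ∀ a b : ℝ, a • U k l + b • U l k = 0 → a = 0 ∧ b = 0) {x y : V}
    (h1 : Pos ((2 : ℝ) • x + y) (U k l)) (h2 : Pos (x + (2 : ℝ) • y) (U l k)) :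
    ∀ a b : ℝ, a • x + b • y = 0 → a = 0 ∧ b = 0 := by
  intro a b hab
  obtain ⟨c, hc, e1⟩ := h1
  obtain ⟨d, hd, e2⟩ := h2
  have h3 : ((2 * a - b) / 3 * c) • U k l + ((2 * b - a) / 3 * d) • U l k = 0 := by
    rw [mul_smul, mul_smul, ← e1, ← e2, ← hab]; module
  obtain ⟨h4, h5⟩ := hind _ _ h3
  have h6 : 2 * a - b = 0 := by
    rcases mul_eq_zero.1 h4 with h | h
    · linarith
    · exact absurd h hc.ne'
  have h7 : 2 * b - a = 0 := by
    rcases mul_eq_zero.1 h5 with h | h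
    · linarith
    · exact absurd h hd.ne'
  constructor <;> linarith

end FRAMEx

open FRAMEx in
theorem common_frame {V : Type*} [AddCommGroup V] [Module ℝ V] {m : ℕ} (hm : 4 ≤ m)
    (U : Fin m → Fin m → V) (W : Fin m → Fin m → Fin m → V) (hW : ∀ k l r, W k l r = W k r l)
    (hfr : ∀ k l r, k < l → l < r → ∃ e0 e1 e2 : V,
      Pos ((2 : ℝ) • e0 + e1) (U k l) ∧ Pos (e0 + (2 : ℝ) • e1) (U l k) ∧
      Pos ((2 : ℝ) • e0 + e2) (U k r) ∧ Pos (e0 + (2 : ℝ) • e2) (U r k) ∧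
      Pos ((2 : ℝ) • e1 + e2) (U l r) ∧ Pos (e1 + (2 : ℝ) • e2) (U r l) ∧
      Pos ((6 : ℝ) • e0 + e1 + e2) (W k l r) ∧ Pos (e0 + (6 : ℝ) • e1 + e2) (W l k r) ∧
      Pos (e0 + e1 + (6 : ℝ) • e2) (W r k l))
    (hind : ∀ k l r, k ≠ l → k ≠ r → l ≠ r → ∀ a b c : ℝ,
      a • U k l + b • U l k + c • U k r = 0 → a = 0 ∧ b = 0 ∧ c = 0)
    (hout : ∀ k l r, k < l → l < r → ∀ j, j ≠ k → j ≠ l → j ≠ r → ∃ ψ : V →ₗ[ℝ] ℝ,
      ψ (U k l) = 0 ∧ ψ (U l k) = 0 ∧ ψ (U k r) = 0 ∧ ψ (U r k) = 0 ∧ ψ (U l r) = 0 ∧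
      ψ (U r l) = 0 ∧ ψ (U k j) ≠ 0 ∧ ψ (U l j) ≠ 0 ∧ ψ (U r j) ≠ 0) :
    ∃ e : Fin m → V, (∀ k l, k ≠ l → Pos ((2 : ℝ) • e k + e l) (U k l)) ∧
      (∀ k l r, k ≠ l → k ≠ r → l ≠ r → Pos ((6 : ℝ) • e k + e l + e r) (W k l r)) ∧
      ∀ k l, k ≠ l → ∀ a b : ℝ, a • e k + b • e l = 0 → a = 0 ∧ b = 0 := by
  -- a third index
  have third : ∀ k l : Fin m, ∃ r, k ≠ r ∧ l ≠ r := by
    intro k l
    have hc : ({k, l} : Finset (Fin m)).card < (Finset.univ : Finset (Fin m)).card := by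
      rw [Finset.card_univ, Fintype.card_fin]
      exact lt_of_le_of_lt Finset.card_le_two (by omega)
    obtain ⟨r, -, hr⟩ := Finset.exists_mem_notMem_of_card_lt_card hc
    simp only [Finset.mem_insert, Finset.mem_singleton, not_or] at hr
    exact ⟨r, fun h => hr.1 h.symm, fun h => hr.2 h.symm⟩
  have hind2 : ∀ k l, k ≠ l → ∀ a b : ℝ, a • U k l + b • U l k = 0 → a = 0 ∧ b = 0 := by
    intro k l hkl a b hab
    obtain ⟨r, hr1, hr2⟩ := third k l
    have := hind k l r hkl hr1 hr2 a b 0 (by rw [zero_smul, add_zero]; exact hab)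
    exact ⟨this.1, this.2.1⟩
  have F : ∀ k l r, k ≠ l → k ≠ r → l ≠ r → ∃ x y z, Fr U W k l r x y z := by
    refine of_sorted (fun k l r => ∃ x y z, Fr U W k l r x y z) ?_ ?_ ?_
    · rintro k l r ⟨x, y, z, h⟩; exact ⟨y, x, z, fr_swap12 hW h⟩
    · rintro k l r ⟨x, y, z, h⟩; exact ⟨x, z, y, fr_swap23 hW h⟩
    · intro k l r h1 h2
      obtain ⟨x, y, z, h⟩ := hfr k l r h1 h2
      exact ⟨x, y, z, h⟩
  have O : ∀ k l r, k ≠ l → k ≠ r → l ≠ r → Out U k l r :=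
    of_sorted (fun k l r => Out U k l r) out_swap12 out_swap23 hout
  -- the two base indices
  let i0 : Fin m := ⟨0, by omega⟩
  let i1 : Fin m := ⟨1, by omega⟩
  have h01 : i0 ≠ i1 := by simp [i0, i1, Fin.ext_iff]
  obtain ⟨k2, h02, h12⟩ := third i0 i1
  obtain ⟨X0, X1, X2, hX⟩ := F i0 i1 k2 h01 h02 h12
  have hE : ∀ k, ∃ z, i0 ≠ k → i1 ≠ k → Fr U W i0 i1 k X0 X1 z := by
    intro k
    by_cases hk : i0 ≠ k ∧ i1 ≠ k
    · by_cases hk2 : k2 = k
      · exact ⟨X2, fun _ _ => hk2 ▸ hX⟩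
      · obtain ⟨x, y, z, h⟩ := F i0 i1 k h01 hk.1 hk.2
        obtain ⟨c, hc, e0, e1⟩ := compare (fun h => h01 h.symm) h12 hk.2
          (O i0 k2 k h02 hk.1 hk2) hX h
        refine ⟨c⁻¹ • z, fun _ _ => ?_⟩
        have := fr_smul h (inv_pos.2 hc)
        rwa [e0, e1, smul_smul, smul_smul, inv_mul_cancel₀ hc.ne', one_smul, one_smul] at this
    · exact ⟨0, fun h1 h2 => absurd ⟨h1, h2⟩ hk⟩
  choose E hE using hE
  classical
  let e : Fin m → V := fun k => if k = i0 then X0 else if k = i1 then X1 else E k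
  have he0 : e i0 = X0 := by simp [e]
  have he1 : e i1 = X1 := by simp [e, h01.symm]
  have hek : ∀ k, i0 ≠ k → i1 ≠ k → e k = E k := by
    intro k h0 h1; simp [e, h0.symm, h1.symm]
  let Good : Fin m → Fin m → Fin m → Prop := fun a b c => Fr U W a b c (e a) (e b) (e c)
  have s12 : ∀ {a b c}, Good a b c → Good b a c := fun h => fr_swap12 hW h
  have s23 : ∀ {a b c}, Good a b c → Good a c b := fun h => fr_swap23 hW h
  have G1 : ∀ k, i0 ≠ k → i1 ≠ k → Good i0 i1 k := by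
    intro k h0 h1
    show Fr U W i0 i1 k (e i0) (e i1) (e k)
    rw [he0, he1, hek k h0 h1]
    exact hE k h0 h1
  have Q : ∀ a b c p, a ≠ b → a ≠ c → b ≠ c → p ≠ a → p ≠ b → p ≠ c →
      Good a b p → Good a c p → Good a b c := by
    intro a b c p hab hac hbc hpa hpb hpc g1 g2
    obtain ⟨x, y, z, h⟩ := F a b c hab hac hbc
    obtain ⟨c1, hc1, e1, e2⟩ := compare hab.symm hpb.symm hbc
      (O a p c hpa.symm hac hpc) g1 h
    obtain ⟨c2, hc2, e3, e4⟩ := compare hac.symm hpc.symm hbc.symm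
      (O a p b hpa.symm hab hpb) g2 (fr_swap23 hW h)
    have hne := indep (hind2 a b hab) g1.1 g1.2.1
    have h12' : c1 = c2 := by
      have h3 : (c1 - c2) • e a + (0 : ℝ) • e b = 0 := by
        rw [sub_smul, ← e1, ← e3]; simp
      have := (hne _ _ h3).1
      linarith
    subst h12'
    have h4 := fr_smul h (inv_pos.2 hc1)
    rw [e1, e2, e4, smul_smul, smul_smul, smul_smul, inv_mul_cancel₀ hc1.ne', one_smul, one_smul,
      one_smul] at h4
    exact h4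
  have G2 : ∀ a b, a ≠ b → i0 ≠ a → i0 ≠ b → i1 ≠ a → i1 ≠ b → Good i0 a b :=
    fun a b hab h0a h0b h1a h1b => Q i0 a b i1 h0a h0b hab h01.symm h1a h1b
      (s23 (G1 a h0a h1a)) (s23 (G1 b h0b h1b))
  have G3 : ∀ a b, a ≠ b → i0 ≠ a → i0 ≠ b → i1 ≠ a → i1 ≠ b → Good i1 a b :=
    fun a b hab h0a h0b h1a h1b => Q i1 a b i0 h1a h1b hab h01 h0a h0b
      (s23 (s12 (G1 a h0a h1a))) (s23 (s12 (G1 b h0b h1b)))
  have G4 : ∀ a b c, a ≠ b → a ≠ c → b ≠ c → i0 ≠ a → i0 ≠ b → i0 ≠ c → i1 ≠ a → i1 ≠ b →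
      i1 ≠ c → Good a b c :=
    fun a b c hab hac hbc h0a h0b h0c h1a h1b h1c => Q a b c i0 hab hac hbc h0a h0b h0c
      (s23 (s12 (G2 a b hab h0a h0b h1a h1b))) (s23 (s12 (G2 a c hac h0a h0c h1a h1c)))
  have GG : ∀ a b c, a ≠ b → a ≠ c → b ≠ c → Good a b c := by
    intro a b c hab hac hbc
    by_cases a0 : i0 = a
    · subst a0
      by_cases b1 : i1 = b
      · subst b1; exact G1 c hac hbc
      · by_cases c1 : i1 = c
        · subst c1; exact s23 (G1 b hab b1)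
        · exact G2 b c hbc hab hac b1 c1
    · by_cases a1 : i1 = a
      · subst a1
        by_cases b0 : i0 = b
        · subst b0; exact s12 (G1 c hbc hac)
        · by_cases c0 : i0 = c
          · subst c0; exact s23 (s12 (G1 b b0 hab))
          · exact G3 b c hbc b0 c0 hab hac
      · by_cases b0 : i0 = b
        · subst b0
          by_cases c1 : i1 = c
          · subst c1; exact s12 (s23 (G1 a a0 a1))
          · exact s12 (G2 a c hac a0 hbc a1 c1)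
        · by_cases b1 : i1 = b
          · subst b1
            by_cases c0 : i0 = c
            · subst c0; exact s12 (s23 (s12 (G1 a a0 a1)))
            · exact s12 (G3 a c hac a0 c0 a1 hbc)
          · by_cases c0 : i0 = c
            · subst c0; exact s23 (s12 (G2 a b hab a0 b0 a1 b1))
            · by_cases c1 : i1 = c
              · subst c1; exact s23 (s12 (G3 a b hab a0 b0 a1 b1))
              · exact G4 a b c hab hac hbc a0 b0 c0 a1 b1 c1
  refine ⟨e, ?_, ?_, ?_⟩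
  · intro k l hkl
    obtain ⟨r, hr1, hr2⟩ := third k l
    exact (GG k l r hkl hr1 hr2).1
  · intro k l r h1 h2 h3
    exact (GG k l r h1 h2 h3).2.2.2.2.2.2.1
  · intro k l hkl
    obtain ⟨r, hr1, hr2⟩ := third k l
    have g := GG k l r hkl hr1 hr2
    exact indep (hind2 k l hkl) g.1 g.2.1

end Pool.Agent.H95.Scr
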