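import Pool.Agent.H95.Scr.Geo2

/-!
# The vertex faces, the facets and the gadgets of a realization
-/

namespace Pool.Agent.H95.Scr

open Pool.Agent.Helper101_Scrib (Amb conicHull IsPolytopeCone linDim sphBall bil Rz L4)
open Pool.Agent.Helper101_Scrib renaming IsFace → CFace
open Submodule

namespace Fr

variable {d : ℕ} (F : Fr d)

/-- The functional exposing the vertex `u k l`. -/
noncomputable def fu (k l : Fin (d + 1)) : Fin (d + 1) → ℝ := fun n =>
  if n = k then -1 else if n = l then 2 else 10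

/-- The functional exposing the vertex `w k l m`. -/
noncomputable def fw (k l m : Fin (d + 1)) : Fin (d + 1) → ℝ := fun n =>
  if n = k then -1 else if n = l then 3 else if n = m then 3 else 4

/-- The functional exposing the facet `k`. -/
noncomputable def ff (k : Fin (d + 1)) : Fin (d + 1) → ℝ := fun n => if n = k then -1 else 3

theorem fu_lo (k l n : Fin (d + 1)) : -1 ≤ fu k l n := by
  unfold fu
  split_ifs <;> norm_num

theorem fu_hi (k l n : Fin (d + 1)) : fu k l n ≤ 10 := by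
  unfold fu
  split_ifs <;> norm_num

theorem fu_ge {k l n : Fin (d + 1)} (h : n ≠ k) : 2 ≤ fu k l n := by
  unfold fu
  rw [if_neg h]
  split_ifs <;> norm_num

theorem fu_big {k l n : Fin (d + 1)} (h : n ≠ k) (h' : n ≠ l) : fu k l n = 10 := by
  unfold fu
  rw [if_neg h, if_neg h']

theorem fu_k (k l : Fin (d + 1)) : fu k l k = -1 := by simp [fu]

theorem fu_l {k l : Fin (d + 1)} (h : k ≠ l) : fu k l l = 2 := by simp [fu, h.symm]

theorem fw_lo (k l m n : Fin (d + 1)) : -1 ≤ fw k l m n := by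
  unfold fw
  split_ifs <;> norm_num

theorem fw_hi (k l m n : Fin (d + 1)) : fw k l m n ≤ 4 := by
  unfold fw
  split_ifs <;> norm_num

theorem fw_ge {k l m n : Fin (d + 1)} (h : n ≠ k) : 3 ≤ fw k l m n := by
  unfold fw
  rw [if_neg h]
  split_ifs <;> norm_num

theorem fw_big {k l m n : Fin (d + 1)} (h : n ≠ k) (h1 : n ≠ l) (h2 : n ≠ m) :
    fw k l m n = 4 := by
  unfold fw
  rw [if_neg h, if_neg h1, if_neg h2]

theorem fw_k (k l m : Fin (d + 1)) : fw k l m k = -1 := by simp [fw]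

theorem fw_l {k l : Fin (d + 1)} (m : Fin (d + 1)) (h : k ≠ l) : fw k l m l = 3 := by
  simp [fw, h.symm]

theorem fw_m {k m : Fin (d + 1)} (l : Fin (d + 1)) (h : k ≠ m) : fw k l m m = 3 := by
  simp [fw, h.symm]

theorem ff_k (k : Fin (d + 1)) : ff k k = -1 := by simp [ff]

theorem ff_ne {k n : Fin (d + 1)} (h : n ≠ k) : ff k n = 3 := by simp [ff, h]

theorem ff_lo (k n : Fin (d + 1)) : -1 ≤ ff k n := by
  unfold ff
  split_ifs <;> norm_num

theorem ff_hi (k n : Fin (d + 1)) : ff k n ≤ 3 := by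
  unfold ff
  split_ifs <;> norm_num

/-- Positivity on gadgets for functionals with at most one negative entry. -/
theorem kap_pos_of {f : Fin (d + 1) → ℝ} (k : Fin (d + 1)) (h1 : ∀ m, -1 ≤ f m)
    (h2 : ∀ m, f m ≤ 10) (h3 : ∀ m, m ≠ k → 2 ≤ f m) {T : Fin 3 → Fin (d + 1)}
    (hT : StrictMono T) {q : Q} (hq : q ∈ KL) : 0 < F.lf f (F.kap T q) := by
  apply F.kap_pos_of_generic h1 h2 _ hT hq
  intro a b c hab hac hbc
  by_cases ha : a = k
  · have e1 := h3 b (fun h => hab (ha.trans h.symm))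
    have e2 := h3 c (fun h => hac (ha.trans h.symm))
    have e3 := h1 a
    linarith
  · have e0 := h3 a ha
    by_cases hb : b = k
    · have e2 := h3 c (fun h => hbc (hb.trans h.symm))
      have e3 := h1 b
      linarith
    · have e1 := h3 b hb
      have e3 := h1 c
      linarith

theorem one_pos_of_mem {v : Amb d} (hv : v ∈ F.verts) : 0 < F.lf (fun _ => 1) v := by
  rcases (F.mem_verts v).1 hv with ⟨k, l, hkl, rfl⟩ | ⟨k, l, m, h1, h2, h3, rfl⟩ | ⟨T, hT, q, hq, rfl⟩
  · rw [F.lf_u]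
    norm_num
  · rw [F.lf_w]
    norm_num
  · apply F.kap_pos_of_generic _ _ _ hT hq
    · intro m; norm_num
    · intro m; norm_num
    · intro k l m _ _ _; norm_num

theorem empty_face : CFace (F.verts : Set (Amb d)) ∅ := by
  refine ⟨F.lf (fun _ => 1), fun v hv => (F.one_pos_of_mem hv).le, ?_⟩
  ext v
  simp only [Set.mem_empty_iff_false, Set.mem_ofPred_eq, false_iff, not_and]
  intro hv
  exact (F.one_pos_of_mem hv).ne'

theorem first_pos {v : Amb d} (hv : v ∈ F.verts) : 0 < v 0 := by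
  have h1 : F.lf (fun _ => 1) v = v 0 := by
    have : F.lf (fun _ => 1) = (LinearMap.proj 0 : Amb d →ₗ[ℝ] ℝ) := by
      apply F.b.ext
      intro k
      rw [F.lf_b, LinearMap.proj_apply, F.hb k]
    rw [this, LinearMap.proj_apply]
  rw [← h1]
  exact F.one_pos_of_mem hv

theorem span_verts (hd : 1 ≤ d) : span ℝ (F.verts : Set (Amb d)) = ⊤ := by
  rw [eq_top_iff, ← F.b.span_eq, Submodule.span_le]
  rintro _ ⟨k, rfl⟩
  obtain ⟨l, hl⟩ : ∃ l : Fin (d + 1), l ≠ k := by
    by_cases h : k = 0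
    · refine ⟨⟨1, by omega⟩, ?_⟩
      rw [h]
      intro h'
      have := congrArg Fin.val h'
      simp at this
    · exact ⟨0, fun h' => h h'.symm⟩
  have h1 : F.u k l ∈ span ℝ (F.verts : Set (Amb d)) := subset_span (F.u_mem hl.symm)
  have h2 : F.u l k ∈ span ℝ (F.verts : Set (Amb d)) := subset_span (F.u_mem hl)
  have h3 : F.b k = (2 / 3 : ℝ) • F.u k l - (1 / 3 : ℝ) • F.u l k := by
    unfold u
    module
  rw [h3]
  exact sub_mem (smul_mem _ _ h1) (smul_mem _ _ h2)

/-- The functional of `u k l` and its zero set. -/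
theorem fu_spec {k l : Fin (d + 1)} (hkl : k ≠ l) :
    (∀ v ∈ F.verts, 0 ≤ F.lf (fu k l) v) ∧
      ({v | v ∈ F.verts ∧ F.lf (fu k l) v = 0} : Set (Amb d)) = {F.u k l} := by
  have key : ∀ v ∈ F.verts, v ≠ F.u k l → 0 < F.lf (fu k l) v := by
    intro v hv hne
    rcases (F.mem_verts v).1 hv with ⟨k', l', h', rfl⟩ | ⟨k', l', m', h1, h2, h3, rfl⟩ |
      ⟨T, hT, q, hq, rfl⟩
    · rw [F.lf_u]
      by_cases hk : k' = k
      · subst hk
        have hl : l' ≠ l := fun h => hne (by rw [h])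
        rw [fu_k, fu_big h'.symm hl]
        norm_num
      · have e1 := fu_ge (l := l) hk
        have e2 := fu_lo k l l'
        linarith
    · rw [F.lf_w]
      by_cases hk : k' = k
      · subst hk
        by_cases hl : l' = l
        · subst hl
          rw [fu_k, fu_l hkl, fu_big h2.symm h3.symm]
          norm_num
        · rw [fu_k, fu_big h1.symm hl]
          have := fu_ge (l := l) h2.symm
          linarith
      · have e1 := fu_ge (l := l) hk
        have e2 := fu_lo k l l'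
        have e3 := fu_lo k l m'
        linarith
    · exact F.kap_pos_of k (fu_lo k l) (fu_hi k l) (fun m hm => fu_ge hm) hT hq
  have h0 : F.lf (fu k l) (F.u k l) = 0 := by
    rw [F.lf_u, fu_k, fu_l hkl]
    norm_num
  refine ⟨fun v hv => ?_, ?_⟩
  · by_cases h : v = F.u k l
    · rw [h, h0]
    · exact (key v hv h).le
  · ext v
    simp only [Set.mem_ofPred_eq, Set.mem_singleton_iff]
    constructor
    · rintro ⟨hv, h⟩
      by_contra hne
      exact (key v hv hne).ne' h
    · rintro rfl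
      exact ⟨F.u_mem hkl, h0⟩

/-- The functional of `w k l m` and its zero set. -/
theorem fw_spec {k l m : Fin (d + 1)} (hkl : k ≠ l) (hkm : k ≠ m) (hlm : l ≠ m) :
    (∀ v ∈ F.verts, 0 ≤ F.lf (fw k l m) v) ∧
      ({v | v ∈ F.verts ∧ F.lf (fw k l m) v = 0} : Set (Amb d)) = {F.w k l m} := by
  have key : ∀ v ∈ F.verts, v ≠ F.w k l m → 0 < F.lf (fw k l m) v := by
    intro v hv hne
    rcases (F.mem_verts v).1 hv with ⟨k', l', h', rfl⟩ | ⟨k', l', m', h1, h2, h3, rfl⟩ |
      ⟨T, hT, q, hq, rfl⟩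
    · rw [F.lf_u]
      by_cases hk : k' = k
      · subst hk
        rw [fw_k]
        have := fw_ge (l := l) (m := m) h'.symm
        linarith
      · have e1 := fw_ge (l := l) (m := m) hk
        have e2 := fw_lo k l m l'
        linarith
    · rw [F.lf_w]
      by_cases hk : k' = k
      · subst hk
        rw [fw_k]
        have e1 := fw_ge (l := l) (m := m) h1.symm
        have e2 := fw_ge (l := l) (m := m) h2.symm
        by_cases hl : l' = l
        · have hm : m' ≠ m := by
            rintro rfl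
            exact hne (by rw [hl])
          have hm2 : m' ≠ l := by
            rw [← hl]
            exact h3.symm
          have := fw_big h2.symm hm2 hm
          linarith
        · by_cases hl2 : l' = m
          · have hm : m' ≠ l := by
              rintro rfl
              exact hne (by rw [hl2, F.w_comm])
            have hm2 : m' ≠ m := by
              rw [← hl2]
              exact h3.symm
            have := fw_big h2.symm hm hm2
            linarith
          · have := fw_big h1.symm hl hl2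
            linarith
      · have e1 := fw_ge (l := l) (m := m) hk
        have e2 := fw_lo k l m l'
        have e3 := fw_lo k l m m'
        linarith
    · exact F.kap_pos_of k (fw_lo k l m) (fun n => (fw_hi k l m n).trans (by norm_num))
        (fun n hn => le_trans (by norm_num) (fw_ge hn)) hT hq
  have h0 : F.lf (fw k l m) (F.w k l m) = 0 := by
    rw [F.lf_w, fw_k, fw_l m hkl, fw_m l hkm]
    norm_num
  refine ⟨fun v hv => ?_, ?_⟩
  · by_cases h : v = F.w k l m
    · rw [h, h0]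
    · exact (key v hv h).le
  · ext v
    simp only [Set.mem_ofPred_eq, Set.mem_singleton_iff]
    constructor
    · rintro ⟨hv, h⟩
      by_contra hne
      exact (key v hv hne).ne' h
    · rintro rfl
      exact ⟨F.w_mem hkl hkm hlm, h0⟩

theorem cf_vertex {T : Fin 3 → Fin (d + 1)} (hT : StrictMono T) {q : Q} (hq : q ∈ KL) :
    CFace (F.verts : Set (Amb d)) {F.kap T q} := by
  have h := VC_all
  simp only [List.all_eq_true, List.any_eq_true, decide_eq_true_eq] at h
  obtain ⟨c, hc, hz⟩ := h q hq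
  obtain ⟨o1, o2, o3⟩ := ok_spec (List.all_eq_true.1 VC_ok c hc)
  have s1 := posOk_spec (List.all_eq_true.1 VC_pos c hc)
  refine ⟨F.lf (F.cf T c), F.cf_nonneg hT o3 (fun j => (s1 j).le) (fun q hq => (o1 q hq).1), ?_⟩
  ext v
  simp only [Set.mem_ofPred_eq, Set.mem_singleton_iff]
  constructor
  · rintro rfl
    refine ⟨F.kap_mem hT hq, ?_⟩
    rw [F.lf_cf_kap hT, (o1 q hq).2.2 (by rw [hz]; simp)]
    norm_num
  · rintro ⟨hv, h0⟩
    rcases F.cf_zero hT o3 hv h0 with ⟨j, hj, rfl⟩ | ⟨q', hq', hq0, rfl⟩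
    · exact absurd hj (s1 j).ne'
    · have := (o1 q' hq').2.1 hq0
      rw [hz, List.mem_singleton] at this
      rw [this]

theorem vertex {v : Amb d} (hv : v ∈ F.verts) : CFace (F.verts : Set (Amb d)) {v} := by
  rcases (F.mem_verts v).1 hv with ⟨k, l, h, rfl⟩ | ⟨k, l, m, h1, h2, h3, rfl⟩ |
    ⟨T, hT, q, hq, rfl⟩
  · exact ⟨F.lf (fu k l), (F.fu_spec h).1, (F.fu_spec h).2.symm⟩
  · exact ⟨F.lf (fw k l m), (F.fw_spec h1 h2 h3).1, (F.fw_spec h1 h2 h3).2.symm⟩
  · exact F.cf_vertex hT hq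

/-- The facet `k`. -/
theorem ff_spec (k : Fin (d + 1)) :
    (∀ v ∈ F.verts, 0 ≤ F.lf (ff k) v) ∧
      ({v | v ∈ F.verts ∧ F.lf (ff k) v = 0} : Set (Amb d)) =
        {v | ∃ l m, k ≠ l ∧ k ≠ m ∧ l ≠ m ∧ v = F.w k l m} := by
  have key : ∀ v ∈ F.verts, (∃ l m, k ≠ l ∧ k ≠ m ∧ l ≠ m ∧ v = F.w k l m) ∨
      0 < F.lf (ff k) v := by
    intro v hv
    rcases (F.mem_verts v).1 hv with ⟨k', l', h', rfl⟩ | ⟨k', l', m', h1, h2, h3, rfl⟩ |
      ⟨T, hT, q, hq, rfl⟩
    · right
      rw [F.lf_u]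
      by_cases hk : k' = k
      · subst hk
        rw [ff_k, ff_ne h'.symm]
        norm_num
      · rw [ff_ne hk]
        have := ff_lo k l'
        linarith
    · by_cases hk : k' = k
      · subst hk
        exact Or.inl ⟨l', m', h1, h2, h3, rfl⟩
      · right
        rw [F.lf_w, ff_ne hk]
        have e1 := ff_lo k l'
        have e2 := ff_lo k m'
        linarith
    · right
      exact F.kap_pos_of k (ff_lo k) (fun n => (ff_hi k n).trans (by norm_num))
        (fun n hn => by rw [ff_ne hn]; norm_num) hT hq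
  have h0 : ∀ l m, k ≠ l → k ≠ m → F.lf (ff k) (F.w k l m) = 0 := by
    intro l m h1 h2
    rw [F.lf_w, ff_k, ff_ne h1.symm, ff_ne h2.symm]
    norm_num
  refine ⟨fun v hv => ?_, ?_⟩
  · rcases key v hv with ⟨l, m, h1, h2, h3, rfl⟩ | h
    · rw [h0 l m h1 h2]
    · exact h.le
  · ext v
    simp only [Set.mem_ofPred_eq]
    constructor
    · rintro ⟨hv, h⟩
      rcases key v hv with h' | h'
      · exact h'
      · exact absurd h h'.ne'
    · rintro ⟨l, m, h1, h2, h3, rfl⟩
      exact ⟨F.w_mem h1 h2 h3, h0 l m h1 h2⟩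

theorem linDim_facet (hd : 4 ≤ d) (k : Fin (d + 1)) :
    linDim {v | v ∈ F.verts ∧ F.lf (ff k) v = 0} = d := by
  rw [(F.ff_spec k).2]
  have hli : LinearIndependent ℝ
      (fun m : Fin d => (3 : ℝ) • F.b k + F.b (k.succAbove m)) := by
    rw [Fintype.linearIndependent_iff]
    intro g hg m
    have e1 := congrArg (F.lf (fun n => if n = k.succAbove m then 1 else 0)) hg
    rw [map_sum, map_zero] at e1
    simp only [map_smul, map_add, F.lf_b, smul_eq_mul] at e1
    rw [Finset.sum_eq_single m] at e1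
    · have hne : k ≠ k.succAbove m := (Fin.succAbove_ne k m).symm
      rw [if_neg hne, if_pos rfl] at e1
      linarith
    · intro m' _ hm'
      have hne : k ≠ k.succAbove m := (Fin.succAbove_ne k m).symm
      have hne' : k.succAbove m' ≠ k.succAbove m := fun h => hm' (Fin.succAbove_right_injective h)
      rw [if_neg hne, if_neg hne']
      ring
    · intro h
      exact absurd (Finset.mem_univ m) h
  have hspan : span ℝ ({v | ∃ l m, k ≠ l ∧ k ≠ m ∧ l ≠ m ∧ v = F.w k l m} : Set (Amb d)) =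
      span ℝ (Set.range fun m : Fin d => (3 : ℝ) • F.b k + F.b (k.succAbove m)) := by
    apply le_antisymm
    · rw [Submodule.span_le]
      rintro _ ⟨l, m, h1, h2, h3, rfl⟩
      obtain ⟨l', rfl⟩ := Fin.exists_succAbove_eq h1.symm
      obtain ⟨m', rfl⟩ := Fin.exists_succAbove_eq h2.symm
      have : F.w k (k.succAbove l') (k.succAbove m') =
          ((3 : ℝ) • F.b k + F.b (k.succAbove l')) + ((3 : ℝ) • F.b k + F.b (k.succAbove m')) := by
        unfold w
        module
      rw [this]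
      exact add_mem (subset_span ⟨l', rfl⟩) (subset_span ⟨m', rfl⟩)
    · rw [Submodule.span_le]
      rintro _ ⟨l', rfl⟩
      have hne : k ≠ k.succAbove l' := (Fin.succAbove_ne k l').symm
      obtain ⟨m, hm⟩ : ∃ m, m ∉ ({k, k.succAbove l'} : Finset (Fin (d + 1))) := by
        by_contra hcon
        push Not at hcon
        have h1 : (Finset.univ : Finset (Fin (d + 1))) ⊆ {k, k.succAbove l'} := fun x _ => hcon x
        have h2 := Finset.card_le_card h1
        have h3 := Finset.card_le_two (a := k) (b := k.succAbove l')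
        simp only [Finset.card_univ, Fintype.card_fin] at h2
        omega
      obtain ⟨n, hn⟩ : ∃ n, n ∉ ({k, k.succAbove l', m} : Finset (Fin (d + 1))) := by
        by_contra hcon
        push Not at hcon
        have h1 : (Finset.univ : Finset (Fin (d + 1))) ⊆ {k, k.succAbove l', m} :=
          fun x _ => hcon x
        have h2 := Finset.card_le_card h1
        have h3 := Finset.card_le_three (a := k) (b := k.succAbove l') (c := m)
        simp only [Finset.card_univ, Fintype.card_fin] at h2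
        omega
      simp only [Finset.mem_insert, Finset.mem_singleton, not_or] at hm hn
      have e : (3 : ℝ) • F.b k + F.b (k.succAbove l') =
          (1 / 2 : ℝ) • (F.w k (k.succAbove l') m + F.w k (k.succAbove l') n - F.w k m n) := by
        unfold w
        module
      show (3 : ℝ) • F.b k + F.b (k.succAbove l') ∈ _
      rw [e]
      apply smul_mem
      apply sub_mem (add_mem _ _)
      · exact subset_span ⟨_, _, Ne.symm hm.1, Ne.symm hn.1, Ne.symm hn.2.2, rfl⟩
      · exact subset_span ⟨_, _, hne, Ne.symm hm.1, Ne.symm hm.2, rfl⟩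
      · exact subset_span ⟨_, _, hne, Ne.symm hn.1, Ne.symm hn.2.1, rfl⟩
  unfold linDim
  rw [hspan, finrank_span_eq_card hli, Fintype.card_fin]

theorem ne_zero_of_mem {v : Amb d} (hv : v ∈ F.verts) : v ≠ 0 := by
  rintro rfl
  have := F.one_pos_of_mem hv
  rw [map_zero] at this
  exact lt_irrefl _ this

theorem linDim_u {k l : Fin (d + 1)} (h : k ≠ l) :
    linDim {v | v ∈ F.verts ∧ F.lf (fu k l) v = 0} = 1 := by
  rw [(F.fu_spec h).2]
  unfold linDim
  exact finrank_span_singleton (F.ne_zero_of_mem (F.u_mem h))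

/-- The gadgets of a realization. -/
theorem gad {X : Amb d → Amb d} (hX : Rz F.verts X) {T : Fin 3 → Fin (d + 1)}
    (hT : StrictMono T) : Gad (fun q => X (F.kap T q)) (fun j => X (F.g T j)) := by
  have hs : ∀ v ∈ F.verts, CFace (F.verts : Set (Amb d)) {v} := fun v hv => F.vertex hv
  have ne1 : ∀ i : Fin 9, i ≠ i + 1 := by decide
  have ne2 : ∀ i : Fin 9, i ≠ i + 2 := by decide
  have ne3 : ∀ i : Fin 9, i + 1 ≠ i + 2 := by decide
  have gne : ∀ i j : Fin 9, i ≠ j → F.g T i ≠ F.g T j := fun i j h h' => h (F.g_inj hT h')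
  have kne : ∀ q q' : Q, q ≠ q' → F.kap T q ≠ F.kap T q' := fun q q' h h' => h (F.kap_inj hT h')
  -- realized functionals of the faces of type `U`
  have hU : ∀ p ∈ UC, ∃ φ : Amb d →ₗ[ℝ] ℝ, φ (X (F.g T p.1)) = 0 ∧
      φ (X (F.g T (p.1 + 1))) = 0 ∧ (∀ j, j ≠ p.1 → j ≠ p.1 + 1 → 0 < φ (X (F.g T j))) ∧
      (∀ q ∈ p.2.zq, φ (X (F.kap T q)) = 0) ∧
      ∀ q ∈ KL, q ∉ p.2.zq → 0 < φ (X (F.kap T q)) := by
    intro p hp
    obtain ⟨o1, o2, o3⟩ := ok_spec (List.all_eq_true.1 UC_ok p hp)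
    obtain ⟨s1, s2, s3⟩ := sideOk_spec (List.all_eq_true.1 UC_side p hp)
    have hg : ∀ j, 0 ≤ p.2.gval j := by
      intro j
      by_cases h1 : j = p.1
      · rw [h1, s1]
      · by_cases h2 : j = p.1 + 1
        · rw [h2, s2]
        · exact (s3 j h1 h2).le
    obtain ⟨φ, f1, f2, _⟩ := hX (F.lf (F.cf T p.2))
      (F.cf_nonneg hT o3 hg (fun q hq => (o1 q hq).1))
    refine ⟨φ, ?_, ?_, ?_, ?_, ?_⟩
    · rw [f2 _ (F.g_mem hT _), F.lf_cf_g hT, s1]
      norm_num
    · rw [f2 _ (F.g_mem hT _), F.lf_cf_g hT, s2]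
      norm_num
    · intro j h1 h2
      refine lt_of_le_of_ne (f1 _ (F.g_mem hT _)) (fun h => ?_)
      have h4 := (f2 _ (F.g_mem hT j)).1 h.symm
      rw [F.lf_cf_g hT] at h4
      have h5 : p.2.gval j = 0 := by exact_mod_cast h4
      exact (s3 j h1 h2).ne' h5
    · intro q hq
      rw [f2 _ (F.kap_mem hT (o2 q hq)), F.lf_cf_kap hT, (o1 q (o2 q hq)).2.2 hq]
      norm_num
    · intro q hq hqz
      refine lt_of_le_of_ne (f1 _ (F.kap_mem hT hq)) (fun h => hqz ?_)
      have h4 := (f2 _ (F.kap_mem hT hq)).1 h.symm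
      rw [F.lf_cf_kap hT] at h4
      exact (o1 q hq).2.1 (by exact_mod_cast h4)
  refine ⟨?_, ?_, ?_, ?_, ?_, ?_, ?_, ?_⟩
  · intro i
    obtain ⟨p, hp, rfl⟩ := side_all i
    obtain ⟨φ, f1, f2, f3, _⟩ := hU p hp
    exact ⟨φ, f1, f2, f3⟩
  · obtain ⟨φ, f1, f2, _⟩ := hX (F.lf (F.cf T c0)) (F.c0_nonneg hT)
    refine ⟨φ, fun j => ?_, fun q hq => ?_⟩
    · rw [f2 _ (F.g_mem hT _), F.lf_cf_g hT, c0_gval]
      norm_num
    · refine lt_of_le_of_ne (f1 _ (F.kap_mem hT hq)) (fun h => ?_)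
      have h4 := (f2 _ (F.kap_mem hT hq)).1 h.symm
      rw [F.lf_cf_kap hT] at h4
      have h5 : c0.val q = 0 := by exact_mod_cast h4
      exact (c0_val hq).ne' h5
  · intro i a b hab
    have := hX.indep3 hs (F.g_mem hT i) (F.g_mem hT (i + 1)) (F.g_mem hT (i + 2))
      (gne _ _ (ne1 i)) (gne _ _ (ne2 i)) (gne _ _ (ne3 i)) (a := a) (b := b) (c := 0) (by
        rw [zero_smul, add_zero]
        exact hab)
    exact ⟨this.1, this.2.1⟩
  · obtain ⟨φ, f1, f2, f3⟩ := hX (F.lf (F.cf T c0)) (F.c0_nonneg hT)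
    rw [F.linDim_plane hT, F.plane_set hT, ← Set.range_comp] at f3
    exact f3
  · intro p hp
    exact (ok_spec (List.all_eq_true.1 UC_ok p hp)).2.1
  · intro p hp q hq q' hq' hne
    obtain ⟨o1, o2, o3⟩ := ok_spec (List.all_eq_true.1 UC_ok p hp)
    obtain ⟨s1, s2, s3⟩ := sideOk_spec (List.all_eq_true.1 UC_side p hp)
    have hg : ∀ j, 0 ≤ p.2.gval j := by
      intro j
      by_cases h1 : j = p.1
      · rw [h1, s1]
      · by_cases h2 : j = p.1 + 1
        · rw [h2, s2]
        · exact (s3 j h1 h2).le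
    apply hX.rel4 hs (F.lf (F.cf T p.2)) (F.cf_nonneg hT o3 hg (fun q hq => (o1 q hq).1))
      (F.linDim_U hT hp) (F.kap_mem hT (o2 q hq)) (F.kap_mem hT (o2 q' hq')) (F.g_mem hT _)
      (F.g_mem hT _)
    · rw [F.lf_cf_kap hT, (o1 q (o2 q hq)).2.2 hq]
      norm_num
    · rw [F.lf_cf_kap hT, (o1 q' (o2 q' hq')).2.2 hq']
      norm_num
    · rw [F.lf_cf_g hT, s1]
      norm_num
    · rw [F.lf_cf_g hT, s2]
      norm_num
    · exact kne _ _ hne
    · exact F.kap_ne_g hT (o2 q hq) _
    · exact F.kap_ne_g hT (o2 q hq) _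
    · exact F.kap_ne_g hT (o2 q' hq') _
    · exact F.kap_ne_g hT (o2 q' hq') _
    · exact gne _ _ (ne1 _)
  · intro p hp
    obtain ⟨φ, f1, f2, f3, f4, f5⟩ := hU p hp
    exact ⟨φ, f1, f2, f4, f5⟩
  · intro c hc q hq q' hq' m hm m' hm' n1 n2 n3 n4 n5 n6
    obtain ⟨o1, o2, o3⟩ := ok_spec (List.all_eq_true.1 ZC_ok c hc)
    have s1 := posOk_spec (List.all_eq_true.1 ZC_pos c hc)
    apply hX.rel4 hs (F.lf (F.cf T c)) (F.cf_nonneg hT o3 (fun j => (s1 j).le)
      (fun q hq => (o1 q hq).1)) (F.linDim_Z hT hc) (F.kap_mem hT (o2 q hq))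
      (F.kap_mem hT (o2 q' hq')) (F.kap_mem hT (o2 m hm)) (F.kap_mem hT (o2 m' hm'))
    · rw [F.lf_cf_kap hT, (o1 q (o2 q hq)).2.2 hq]
      norm_num
    · rw [F.lf_cf_kap hT, (o1 q' (o2 q' hq')).2.2 hq']
      norm_num
    · rw [F.lf_cf_kap hT, (o1 m (o2 m hm)).2.2 hm]
      norm_num
    · rw [F.lf_cf_kap hT, (o1 m' (o2 m' hm')).2.2 hm']
      norm_num
    · exact kne _ _ n1
    · exact kne _ _ n2
    · exact kne _ _ n3
    · exact kne _ _ n4
    · exact kne _ _ n5
    · exact kne _ _ n6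

end Fr

end Pool.Agent.H95.Scr
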