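import Pool.Agent.H95.Scr.Defs

/-!
# TASK LOR: the Lorentz form inequality
-/

namespace Pool.Agent.H95.Scr

open Pool.Agent.Helper101_Scrib (Amb conicHull IsPolytopeCone linDim sphBall bil bil_comm bil_self)

namespace LORx

theorem pos_of_zero {d : ℕ} {v : Amb d} (h0 : v 0 = 0) (hv : v ≠ 0) : 0 < bil v v := by
  rw [bil_self, h0]
  have h1 : (0 : ℝ) ≤ ∑ i : Fin d, v i.succ ^ 2 := Finset.sum_nonneg fun i _ => sq_nonneg _
  rcases h1.lt_or_eq with h | h
  · simpa using h
  · exfalso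
    apply hv
    have h2 := (Finset.sum_eq_zero_iff_of_nonneg (fun i _ => sq_nonneg (v (Fin.succ i)))).1 h.symm
    funext i
    refine Fin.cases h0 (fun j => ?_) i
    have := h2 j (Finset.mem_univ _)
    exact pow_eq_zero_iff (two_ne_zero) |>.1 this

theorem caseNeg {d : ℕ} (hd : 2 ≤ d) {e : Fin (d + 1) → Amb d}
    (hind : ∀ k l, k ≠ l → ∀ a b : ℝ, a • e k + b • e l = 0 → a = 0 ∧ b = 0)
    (hq : ∀ k l, k ≠ l → 0 ≤ bil (e k) (e l)) (hn : ∀ k, bil (e k) (e k) ≤ 0) : False := by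
  have hne : ∀ k, e k ≠ 0 := by
    intro k hk
    obtain ⟨l, hl⟩ : ∃ l : Fin (d + 1), k ≠ l := by
      by_cases h : k = 0
      · refine ⟨⟨1, by omega⟩, ?_⟩
        rw [h]
        intro h'
        have := congrArg Fin.val h'
        simp at this
      · exact ⟨0, h⟩
    have := (hind k l hl 1 0 (by rw [hk]; simp)).1
    exact one_ne_zero this
  have h0 : ∀ k, e k 0 ≠ 0 := fun k hk => absurd (pos_of_zero hk (hne k)) (not_lt.2 (hn k))
  have key : ∀ k l, k ≠ l → 0 < e k 0 * e l 0 → False := by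
    intro k l hkl hpos
    set v : Amb d := (e l 0) • e k + (-(e k 0)) • e l with hv
    have hv0 : v 0 = 0 := by
      simp only [hv, Pi.add_apply, Pi.smul_apply, smul_eq_mul]; ring
    have hvne : v ≠ 0 := fun h => h0 l (hind k l hkl _ _ h).1
    have h1 := pos_of_zero hv0 hvne
    have h2 : bil v v = (e l 0) ^ 2 * bil (e k) (e k) + (e k 0) ^ 2 * bil (e l) (e l)
        - 2 * (e k 0 * e l 0) * bil (e k) (e l) := by
      simp only [hv, map_add, map_smul, LinearMap.add_apply, LinearMap.smul_apply, smul_eq_mul,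
        bil_comm (e l) (e k)]
      ring
    rw [h2] at h1
    have h3 := mul_nonneg (sq_nonneg (e l 0)) (neg_nonneg.2 (hn k))
    have h4 := mul_nonneg (sq_nonneg (e k 0)) (neg_nonneg.2 (hn l))
    have h5 := mul_nonneg hpos.le (hq k l hkl)
    nlinarith
  have hab : ∀ a b c : ℝ, a ≠ 0 → b ≠ 0 → c ≠ 0 → 0 < a * b ∨ 0 < a * c ∨ 0 < b * c := by
    intro a b c ha hb hc
    rcases lt_or_gt_of_ne ha with ha | ha <;> rcases lt_or_gt_of_ne hb with hb | hb <;>
      rcases lt_or_gt_of_ne hc with hc | hc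
    · exact Or.inl (mul_pos_of_neg_of_neg ha hb)
    · exact Or.inl (mul_pos_of_neg_of_neg ha hb)
    · exact Or.inr (Or.inl (mul_pos_of_neg_of_neg ha hc))
    · exact Or.inr (Or.inr (mul_pos hb hc))
    · exact Or.inr (Or.inr (mul_pos_of_neg_of_neg hb hc))
    · exact Or.inr (Or.inl (mul_pos ha hc))
    · exact Or.inl (mul_pos ha hb)
    · exact Or.inl (mul_pos ha hb)
  have i1 : (⟨0, by omega⟩ : Fin (d + 1)) ≠ ⟨1, by omega⟩ := by simp
  have i2 : (⟨0, by omega⟩ : Fin (d + 1)) ≠ ⟨2, by omega⟩ := by simp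
  have i3 : (⟨1, by omega⟩ : Fin (d + 1)) ≠ ⟨2, by omega⟩ := by simp
  rcases hab _ _ _ (h0 ⟨0, by omega⟩) (h0 ⟨1, by omega⟩) (h0 ⟨2, by omega⟩) with h | h | h
  · exact key _ _ i1 h
  · exact key _ _ i2 h
  · exact key _ _ i3 h

theorem expand {d : ℕ} {e : Fin (d + 1) → Amb d} (k : Fin (d + 1)) (W : ℝ)
    (t : Fin (d + 1) → ℝ) :
    bil (W • e k + ∑ l, t l • e l) (W • e k + ∑ l, t l • e l) =
      W ^ 2 * bil (e k) (e k) +
        ∑ l, (2 * W * (t l * bil (e k) (e l)) + ∑ m, t l * t m * bil (e l) (e m)) := by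
  have h0 : ∀ y : Amb d, bil y (∑ l, t l • e l) = ∑ l, t l * bil y (e l) := by
    intro y
    rw [map_sum]
    exact Finset.sum_congr rfl fun l _ => by rw [map_smul, smul_eq_mul]
  have h2 : bil (∑ l, t l • e l) (∑ l, t l • e l) = ∑ l, ∑ m, t l * t m * bil (e l) (e m) := by
    rw [h0]
    refine Finset.sum_congr rfl fun l _ => ?_
    rw [bil_comm, h0, Finset.mul_sum]
    exact Finset.sum_congr rfl fun m _ => by ring
  have h3 : bil (W • e k + ∑ l, t l • e l) (W • e k + ∑ l, t l • e l) =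
      W ^ 2 * bil (e k) (e k) + 2 * W * bil (e k) (∑ l, t l • e l) +
        bil (∑ l, t l • e l) (∑ l, t l • e l) := by
    simp only [map_add, map_smul, LinearMap.add_apply, LinearMap.smul_apply, smul_eq_mul,
      bil_comm (∑ l, t l • e l) (e k)]
    ring
  rw [h3, h2, h0, Finset.sum_add_distrib, ← Finset.mul_sum]
  ring

theorem casePos {d : ℕ} {e : Fin (d + 1) → Amb d}
    (hu : ∀ k l, k ≠ l → 0 ≤ 4 * bil (e k) (e k) + 4 * bil (e k) (e l) + bil (e l) (e l))
    (k : Fin (d + 1)) (hM : 0 < bil (e k) (e k)) (hmax : ∀ l, bil (e l) (e l) ≤ bil (e k) (e k))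
    {x : Amb d} (hx : x ≠ 0) (hxx : bil x x ≤ 0) {W : ℝ} {t : Fin (d + 1) → ℝ}
    (ht : ∀ l, 0 ≤ t l) (htk : t k = 0) (hW : 3 * ∑ l, t l = W)
    (hxe : x = W • e k + ∑ l, t l • e l) : False := by
  set M := bil (e k) (e k) with hMdef
  set S := ∑ l, t l with hS
  have hS0 : 0 ≤ S := Finset.sum_nonneg fun l _ => ht l
  have hSpos : 0 < S := by
    rcases hS0.lt_or_eq with h | h
    · exact h
    · exfalso
      apply hx
      have h2 := (Finset.sum_eq_zero_iff_of_nonneg (fun i _ => ht i)).1 (hS.symm.trans h.symm)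
      have h3 : W = 0 := by rw [← hW, ← h]; simp
      rw [hxe, h3, zero_smul, zero_add]
      exact Finset.sum_eq_zero fun l hl => by rw [h2 l hl, zero_smul]
  have htS : ∀ l, t l ≤ S := fun l =>
    Finset.single_le_sum (f := t) (fun i _ => ht i) (Finset.mem_univ l)
  have hexp : bil x x = W ^ 2 * M +
      ∑ l, (2 * W * (t l * bil (e k) (e l)) + ∑ m, t l * t m * bil (e l) (e m)) := by
    rw [hxe, expand]
  have hterm : ∀ l, -(5 / 2) * W * t l * M - 5 / 4 * M * t l * S ≤
      2 * W * (t l * bil (e k) (e l)) + ∑ m, t l * t m * bil (e l) (e m) := by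
    intro l
    have hin : (-(5 / 4) * M * t l * S + (t l ^ 2 * bil (e l) (e l) + 5 / 4 * M * t l ^ 2)) ≤
        ∑ m, t l * t m * bil (e l) (e m) := by
      have hc : ∑ m, (-(5 / 4) * M * t l * t m +
          if m = l then (t l ^ 2 * bil (e l) (e l) + 5 / 4 * M * t l ^ 2) else 0) =
          (-(5 / 4) * M * t l * S + (t l ^ 2 * bil (e l) (e l) + 5 / 4 * M * t l ^ 2)) := by
        rw [Finset.sum_add_distrib, Finset.sum_ite_eq' Finset.univ l, if_pos (Finset.mem_univ l),
          ← Finset.mul_sum]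
      rw [← hc]
      refine Finset.sum_le_sum fun m _ => ?_
      by_cases hml : m = l
      · subst hml
        rw [if_pos rfl]
        nlinarith
      · rw [if_neg hml]
        have h1 := hu l m (Ne.symm hml)
        have h2 := hmax l
        have h3 := hmax m
        have h4 : -(5 / 4) * M ≤ bil (e l) (e m) := by linarith
        have h5 := mul_le_mul_of_nonneg_left h4 (mul_nonneg (ht l) (ht m))
        nlinarith
    have hk : -(2 * W) * t l * bil (e l) (e l) - W / 2 * t l * M ≤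
        2 * W * (t l * bil (e k) (e l)) := by
      by_cases hlk : l = k
      · rw [hlk, htk]; simp
      · have h1 := hu l k hlk
        rw [bil_comm (e l) (e k)] at h1
        have h2 : -(bil (e l) (e l)) - M / 4 ≤ bil (e k) (e l) := by linarith
        have hWt : 0 ≤ 2 * W * t l := by
          have : 0 ≤ W := by rw [← hW]; linarith
          exact mul_nonneg (by linarith) (ht l)
        have h5 := mul_le_mul_of_nonneg_left h2 hWt
        nlinarith
    have hd1 : 0 ≤ (2 * W - t l) * t l * (M - bil (e l) (e l)) := by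
      refine mul_nonneg (mul_nonneg ?_ (ht l)) (by linarith [hmax l])
      have := htS l
      rw [← hW]
      linarith
    have hd2 : 0 ≤ M * t l ^ 2 := mul_nonneg hM.le (sq_nonneg _)
    nlinarith
  have hsum : ∑ l, (-(5 / 2) * W * t l * M - 5 / 4 * M * t l * S) =
      -(5 / 2) * W * S * M - 5 / 4 * M * S * S := by
    have : ∀ l, (-(5 / 2) * W * t l * M - 5 / 4 * M * t l * S) =
        (-(5 / 2) * W * M - 5 / 4 * M * S) * t l := fun l => by ring
    rw [Finset.sum_congr rfl fun l _ => this l, ← Finset.mul_sum]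
    ring
  have hge := Finset.sum_le_sum (s := Finset.univ) (fun l _ => hterm l)
  rw [hsum] at hge
  have hfin : 0 < bil x x := by
    rw [hexp]
    have : 0 < M * S ^ 2 := mul_pos hM (pow_pos hSpos 2)
    rw [← hW] at hge ⊢
    nlinarith
  linarith

end LORx

theorem lorentz_contra {d : ℕ} (hd : 2 ≤ d) {e : Fin (d + 1) → Amb d}
    (hind : ∀ k l, k ≠ l → ∀ a b : ℝ, a • e k + b • e l = 0 → a = 0 ∧ b = 0)
    (hu : ∀ k l, k ≠ l → 0 ≤ bil ((2 : ℝ) • e k + e l) ((2 : ℝ) • e k + e l))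
    (hcut : ∀ k, ∃ x : Amb d, x ≠ 0 ∧ bil x x ≤ 0 ∧ ∃ W : ℝ, ∃ t : Fin (d + 1) → ℝ,
      (∀ l, 0 ≤ t l) ∧ t k = 0 ∧ 3 * ∑ l, t l = W ∧ x = W • e k + ∑ l, t l • e l) : False := by
  have hu' : ∀ k l, k ≠ l →
      0 ≤ 4 * bil (e k) (e k) + 4 * bil (e k) (e l) + bil (e l) (e l) := by
    intro k l hkl
    have h := hu k l hkl
    have h2 : bil ((2 : ℝ) • e k + e l) ((2 : ℝ) • e k + e l) =
        4 * bil (e k) (e k) + 4 * bil (e k) (e l) + bil (e l) (e l) := by
      simp only [map_add, map_smul, LinearMap.add_apply, LinearMap.smul_apply, smul_eq_mul,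
        bil_comm (e l) (e k)]
      ring
    linarith
  obtain ⟨k, -, hk⟩ := Finset.exists_max_image (Finset.univ : Finset (Fin (d + 1)))
    (fun l => bil (e l) (e l)) ⟨0, Finset.mem_univ _⟩
  rcases lt_or_ge 0 (bil (e k) (e k)) with h | h
  · obtain ⟨x, hx, hxx, W, t, ht, htk, hW, hxe⟩ := hcut k
    exact LORx.casePos hu' k h (fun l => hk l (Finset.mem_univ _)) hx hxx ht htk hW hxe
  · have hn : ∀ l, bil (e l) (e l) ≤ 0 := fun l => (hk l (Finset.mem_univ _)).trans h
    refine LORx.caseNeg hd hind (fun a b hab => ?_) hn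
    have h1 := hu' a b hab
    have h2 := hn a
    have h3 := hn b
    linarith

end Pool.Agent.H95.Scr
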