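import Pool.Agent.H95.Scr.GadFrame
import Pool.Agent.H95.Scr.Geo3
import Pool.Agent.H95.Scr.Lor
import Pool.Agent.H95.Scr.FrameC
import Pool.Agent.H95.Scr.Bridge

/-!
# The main theorem
-/

namespace Pool.Agent.H95.Scr

open Pool.Agent.Helper101_Scrib (Amb conicHull IsPolytopeCone linDim sphBall bil Rz)
open Pool.Agent.Helper101_Scrib renaming IsFace → CFace
open Submodule

/-- The cone generated by the vectors `6 e k + e l + e m`. -/
def Wc {d : ℕ} (e : Fin (d + 1) → Amb d) (k : Fin (d + 1)) (x : Amb d) : Prop :=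
  ∃ W : ℝ, ∃ t : Fin (d + 1) → ℝ,
    (∀ l, 0 ≤ t l) ∧ t k = 0 ∧ 3 * ∑ l, t l = W ∧ x = W • e k + ∑ l, t l • e l

theorem Wc.add {d : ℕ} {e : Fin (d + 1) → Amb d} {k : Fin (d + 1)} {x y : Amb d}
    (hx : Wc e k x) (hy : Wc e k y) : Wc e k (x + y) := by
  obtain ⟨W, t, h1, h2, h3, rfl⟩ := hx
  obtain ⟨W', t', h1', h2', h3', rfl⟩ := hy
  refine ⟨W + W', fun l => t l + t' l, fun l => add_nonneg (h1 l) (h1' l), by simp [h2, h2'], ?_, ?_⟩
  · rw [Finset.sum_add_distrib, mul_add, h3, h3']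
  · simp only [add_smul, Finset.sum_add_distrib]
    abel

theorem Wc.zero {d : ℕ} {e : Fin (d + 1) → Amb d} {k : Fin (d + 1)} : Wc e k 0 :=
  ⟨0, fun _ => 0, fun _ => le_rfl, rfl, by simp, by simp⟩

theorem Wc.smul {d : ℕ} {e : Fin (d + 1) → Amb d} {k : Fin (d + 1)} {x : Amb d} {c : ℝ}
    (hc : 0 ≤ c) (hx : Wc e k x) : Wc e k (c • x) := by
  obtain ⟨W, t, h1, h2, h3, rfl⟩ := hx
  refine ⟨c * W, fun l => c * t l, fun l => mul_nonneg hc (h1 l), by simp [h2], ?_, ?_⟩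
  · rw [← Finset.mul_sum, ← h3]
    ring
  · rw [smul_add, smul_smul, Finset.smul_sum]
    simp only [smul_smul]

theorem Wc.w {d : ℕ} {e : Fin (d + 1) → Amb d} {k l m : Fin (d + 1)} (hl : k ≠ l) (hm : k ≠ m) :
    Wc e k ((6 : ℝ) • e k + e l + e m) := by
  refine ⟨6, fun n => (if n = l then 1 else 0) + (if n = m then 1 else 0), fun n => ?_, ?_, ?_, ?_⟩
  · positivity
  · simp [hl, hm]
  · rw [Finset.sum_add_distrib]
    simp
    norm_num
  · simp only [add_smul, Finset.sum_add_distrib, ite_smul, one_smul, zero_smul,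
      Finset.sum_ite_eq', Finset.mem_univ, if_true]
    abel

theorem strictMono_three {n : ℕ} {k l r : Fin n} (hkl : k < l) (hlr : l < r) :
    StrictMono ![k, l, r] := by
  have h : ∀ i j : Fin 3, i < j → ![k, l, r] i < ![k, l, r] j := by
    intro i j hij
    fin_cases i <;> fin_cases j <;> first
      | exact absurd hij (by decide)
      | exact hkl
      | exact hlr
      | exact hkl.trans hlr
  exact fun i j hij => h i j hij

/-- The frames of the triples. -/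
theorem frame_triple {d : ℕ} (F : Fr d) {X : Amb d → Amb d} (hRz : Rz F.verts X)
    (k l r : Fin (d + 1)) (hkl : k < l) (hlr : l < r) : ∃ e0 e1 e2 : Amb d,
      Pos ((2 : ℝ) • e0 + e1) (X (F.u k l)) ∧ Pos (e0 + (2 : ℝ) • e1) (X (F.u l k)) ∧
      Pos ((2 : ℝ) • e0 + e2) (X (F.u k r)) ∧ Pos (e0 + (2 : ℝ) • e2) (X (F.u r k)) ∧
      Pos ((2 : ℝ) • e1 + e2) (X (F.u l r)) ∧ Pos (e1 + (2 : ℝ) • e2) (X (F.u r l)) ∧
      Pos ((6 : ℝ) • e0 + e1 + e2) (X (F.w k l r)) ∧ Pos (e0 + (6 : ℝ) • e1 + e2) (X (F.w l k r)) ∧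
      Pos (e0 + e1 + (6 : ℝ) • e2) (X (F.w r k l)) := by
  have hT := strictMono_three hkl hlr
  obtain ⟨e, he⟩ := (F.gad hRz hT).frame
  have g0 : F.g ![k, l, r] 0 = F.u l k := by simp [Fr.u, Fr.g, Fr.emb, G9t, G9, add_comm]
  have g1 : F.g ![k, l, r] 1 = F.u k l := by simp [Fr.u, Fr.g, Fr.emb, G9t, G9]
  have g2 : F.g ![k, l, r] 2 = F.w k l r := by simp [Fr.w, Fr.g, Fr.emb, G9t, G9]
  have g3 : F.g ![k, l, r] 3 = F.u k r := by simp [Fr.u, Fr.g, Fr.emb, G9t, G9]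
  have g4 : F.g ![k, l, r] 4 = F.u r k := by simp [Fr.u, Fr.g, Fr.emb, G9t, G9, add_comm]
  have g5 : F.g ![k, l, r] 5 = F.w r k l := by
    simp only [Fr.w, Fr.g, Fr.emb, G9t, G9]
    simp
    abel
  have g6 : F.g ![k, l, r] 6 = F.u r l := by simp [Fr.u, Fr.g, Fr.emb, G9t, G9, add_comm]
  have g7 : F.g ![k, l, r] 7 = F.u l r := by simp [Fr.u, Fr.g, Fr.emb, G9t, G9]
  have g8 : F.g ![k, l, r] 8 = F.w l k r := by simp [Fr.w, Fr.g, Fr.emb, G9t, G9, add_comm]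
  have p0 := he 0
  have p1 := he 1
  have p2 := he 2
  have p3 := he 3
  have p4 := he 4
  have p5 := he 5
  have p6 := he 6
  have p7 := he 7
  have p8 := he 8
  simp only [g0, G9] at p0
  simp only [g1, G9] at p1
  simp only [g2, G9] at p2
  simp only [g3, G9] at p3
  simp only [g4, G9] at p4
  simp only [g5, G9] at p5
  simp only [g6, G9] at p6
  simp only [g7, G9] at p7
  simp only [g8, G9] at p8
  refine ⟨e 0, e 1, e 2, ?_, ?_, ?_, ?_, ?_, ?_, ?_, ?_, ?_⟩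
  · simpa using p1
  · simpa using p0
  · simpa using p3
  · simpa using p4
  · simpa using p7
  · simpa using p6
  · simpa using p2
  · simpa using p8
  · simpa using p5

theorem out_triple {d : ℕ} (F : Fr d) {X : Amb d → Amb d} (hRz : Rz F.verts X)
    (k l r : Fin (d + 1)) (hkl : k < l) (hlr : l < r) (j : Fin (d + 1)) (hjk : j ≠ k)
    (hjl : j ≠ l) (hjr : j ≠ r) : ∃ ψ : Amb d →ₗ[ℝ] ℝ,
      ψ (X (F.u k l)) = 0 ∧ ψ (X (F.u l k)) = 0 ∧ ψ (X (F.u k r)) = 0 ∧ ψ (X (F.u r k)) = 0 ∧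
      ψ (X (F.u l r)) = 0 ∧ ψ (X (F.u r l)) = 0 ∧ ψ (X (F.u k j)) ≠ 0 ∧ ψ (X (F.u l j)) ≠ 0 ∧
      ψ (X (F.u r j)) ≠ 0 := by
  have hT := strictMono_three hkl hlr
  obtain ⟨ψ, p1, p2, _⟩ := hRz (F.lf (F.cf ![k, l, r] c0)) (F.c0_nonneg hT)
  have z : ∀ i j : Fin 3, i ≠ j → ψ (X (F.u (![k, l, r] i) (![k, l, r] j))) = 0 := by
    intro i j hij
    obtain ⟨n, hn⟩ := F.u_eq_g ![k, l, r] hij
    rw [hn, p2 _ (F.g_mem hT n), F.lf_cf_g hT, c0_gval]
    norm_num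
  have nz : ∀ i : Fin 3, ψ (X (F.u (![k, l, r] i) j)) ≠ 0 := by
    intro i h
    have hj : ∀ i, j ≠ ![k, l, r] i := by
      intro i
      fin_cases i
      · exact hjk
      · exact hjl
      · exact hjr
    rw [p2 _ (F.u_mem (hj i).symm)] at h
    exact (F.cf_u_pos c0_bd (Or.inr hj)).ne' h
  exact ⟨ψ, z 0 1 (by decide), z 1 0 (by decide), z 0 2 (by decide), z 2 0 (by decide),
    z 1 2 (by decide), z 2 1 (by decide), nz 0, nz 1, nz 2⟩

theorem main_cone {d : ℕ} (hd : 4 ≤ d) (F : Fr d) (K' : Set (Amb d)) (hK' : IsPolytopeCone d K')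
    (hST : Pool.Agent.Helper101_Scrib.SameType (conicHull F.verts) K')
    (havoid : ∀ G, CFace K' G → linDim G = 1 →
      ∃ l : Amb d →ₗ[ℝ] ℝ, l ≠ 0 ∧ (∀ x ∈ sphBall d, 0 ≤ l x) ∧ ∀ x ∈ G, l x = 0)
    (hcut : ∀ G, CFace K' G → linDim G = d → ∃ x ∈ G, x ≠ 0 ∧ bil x x ≤ 0) : False := by
  have hs : ∀ v ∈ F.verts, CFace (F.verts : Set (Amb d)) {v} := fun v hv => F.vertex hv
  obtain ⟨X, hXK, hX⟩ := Pool.Agent.Helper101_Scrib.realization (by omega) F.empty_face hs hK' hST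
  have hRz : Rz F.verts X := by
    intro φ hφ
    obtain ⟨φ', h1, h2, h3, _⟩ := hX φ hφ
    exact ⟨φ', fun v hv => h1 _ (hXK v hv), h2, h3⟩
  have une : ∀ {k l k' l' : Fin (d + 1)}, k ≠ l → k' ≠ l' → (k ≠ k' ∨ l ≠ l') →
      F.u k l ≠ F.u k' l' := by
    intro k l k' l' h h' hne heq
    have h1 := congrArg (F.lf (Fr.fu k l)) heq
    rw [F.lf_u, F.lf_u, Fr.fu_k, Fr.fu_l h] at h1
    by_cases hk : k' = k
    · subst hk
      rcases hne with hne | hne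
      · exact hne rfl
      · rw [Fr.fu_k, Fr.fu_big h'.symm hne.symm] at h1
        norm_num at h1
    · have e1 := Fr.fu_ge (l := l) hk
      have e2 := Fr.fu_lo k l l'
      linarith
  obtain ⟨e, he1, he2, he3⟩ := common_frame (m := d + 1) (by omega) (fun k l => X (F.u k l))
    (fun k l r => X (F.w k l r)) (fun k l r => by rw [F.w_comm]) (frame_triple F hRz)
    (by
      intro k l r hkl hkr hlr a b c habc
      exact hRz.indep3 hs (F.u_mem hkl) (F.u_mem hkl.symm) (F.u_mem hkr)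
        (une hkl hkl.symm (Or.inl hkl)) (une hkl hkr (Or.inr hlr))
        (une hkl.symm hkr (Or.inl hkl.symm)) habc)
    (out_triple F hRz)
  refine lorentz_contra (by omega) he3 ?_ ?_
  · intro k l hkl
    obtain ⟨φ', h1, h2, h3, h4, _⟩ := hX _ (F.fu_spec hkl).1
    rw [F.linDim_u hkl] at h4
    obtain ⟨l', hl1, hl2, hl3⟩ := havoid _ ⟨φ', h1, rfl⟩ h4
    have h0 : F.lf (Fr.fu k l) (F.u k l) = 0 := by
      have : F.u k l ∈ ({v | v ∈ F.verts ∧ F.lf (Fr.fu k l) v = 0} : Set (Amb d)) := by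
        rw [(F.fu_spec hkl).2]
        rfl
      exact this.2
    have h5 := hl3 (X (F.u k l)) ⟨hXK _ (F.u_mem hkl), (h2 _ (F.u_mem hkl)).2 h0⟩
    have h6 := Pool.Agent.Helper101_Scrib.lorentz hl1 hl2 h5
    obtain ⟨c, hc, h7⟩ := he1 k l hkl
    rw [h7, map_smul, map_smul, LinearMap.smul_apply, smul_eq_mul, smul_eq_mul]
    positivity
  · intro k
    obtain ⟨φ', h1, h2, h3, h4, h5⟩ := hX _ (F.ff_spec k).1
    rw [F.linDim_facet hd k] at h4
    obtain ⟨x, ⟨hxK, hx0⟩, hne, hbil⟩ := hcut _ ⟨φ', h1, rfl⟩ h4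
    refine ⟨x, hne, hbil, ?_⟩
    obtain ⟨c, hc1, hc2, rfl⟩ := h5 x hxK hx0
    show Wc e k _
    apply Finset.sum_induction _ (Wc e k) (fun _ _ => Wc.add) Wc.zero
    intro v hv
    by_cases hv0 : F.lf (Fr.ff k) v = 0
    · have : v ∈ ({v | v ∈ F.verts ∧ F.lf (Fr.ff k) v = 0} : Set (Amb d)) := ⟨hv, hv0⟩
      rw [(F.ff_spec k).2] at this
      obtain ⟨l, m, hl, hm, hlm, rfl⟩ := this
      obtain ⟨a, ha, h6⟩ := he2 k l m hl hm hlm
      have h7 : X (F.w k l m) = a⁻¹ • ((6 : ℝ) • e k + e l + e m) := by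
        rw [h6, smul_smul, inv_mul_cancel₀ ha.ne', one_smul]
      rw [h7]
      exact ((Wc.w hl hm).smul (inv_nonneg.2 ha.le)).smul (hc1 _ hv)
    · rw [hc2 v hv hv0, zero_smul]
      exact Wc.zero

theorem main {d : ℕ} (hd : 4 ≤ d) : ∃ P : Set (E d), IsPolytope d P ∧ ¬ Scribable d 0 (d - 1) P := by
  obtain ⟨F⟩ := exists_Fr hd
  exact bridge (by omega) (s := F.verts) (fun v hv => F.first_pos hv) (F.span_verts (by omega))
    (main_cone hd F)

end Pool.Agent.H95.Scr
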