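import Pool.Agent.H95.Scr.Tables

/-!
# Verification of the tables
-/

namespace Pool.Agent.H95.Scr

/-- The value of the functional of a certificate at a gadget vertex. -/
def Cert.val (c : Cert) (q : Q) : ℤ :=
  c.n0 * q.2.1 + c.n1 * q.2.2.1 + c.n2 * q.2.2.2 + KK * q.1 * q.1 * (c.n0 + c.n1 + c.n2) + c.pa -
    q.1 * c.pc

/-- The gadget vertices are fine. -/
def qok (q : Q) : Bool :=
  decide (1 ≤ q.1) && decide (q.1 ≤ 48) && decide (-300 ≤ q.2.1) && decide (q.2.1 ≤ 300) &&
    decide (-300 ≤ q.2.2.1) && decide (q.2.2.1 ≤ 300) && decide (-300 ≤ q.2.2.2) &&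
    decide (q.2.2.2 ≤ 300)

/-- The functional is nonnegative on the gadget vertices and vanishes exactly on the list. -/
def Cert.ok (c : Cert) : Bool :=
  (KL.all fun q => decide (0 ≤ c.val q) && (decide (c.val q = 0) == decide (q ∈ c.zq))) &&
  (c.zq.all fun q => decide (q ∈ KL)) &&
  decide (-28 ≤ c.n0) && decide (c.n0 ≤ 28) && decide (-28 ≤ c.n1) && decide (c.n1 ≤ 28) &&
  decide (-28 ≤ c.n2) && decide (c.n2 ≤ 28) && decide (50000000 ≤ c.pa) && decide (50000000 ≤ c.pc) &&
  decide (c.pa ≤ 10000000000000) && decide (c.pc ≤ 10000000000000)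

theorem KL_ok : KL.all qok = true := by decide +kernel

theorem VC_ok : VC.all Cert.ok = true := by decide +kernel

theorem ZC_ok : ZC.all Cert.ok = true := by decide +kernel

theorem UC_ok : UC.all (fun c => c.2.ok) = true := by decide +kernel

end Pool.Agent.H95.Scr
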