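import Pool.Agent.H95.Scr.Tables

/-!
# Verification of the tables, second part: values on the nonagon and the blocks
-/

namespace Pool.Agent.H95.Scr

/-- The value of the functional of a certificate at a vertex of the nonagon. -/
def Cert.gval (c : Cert) (j : Fin 9) : ℤ := c.n0 * G9 j 0 + c.n1 * G9 j 1 + c.n2 * G9 j 2

/-- The functional vanishes exactly on the side `i` of the nonagon and is positive on the other
vertices. -/
def Cert.sideOk (c : Cert) (i : Fin 9) : Bool :=
  (List.finRange 9).all fun j => if j = i ∨ j = i + 1 then decide (c.gval j = 0) else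
    decide (0 < c.gval j)

/-- The functional is positive on the nonagon. -/
def Cert.posOk (c : Cert) : Bool := (List.finRange 9).all fun j => decide (0 < c.gval j)

def dotp (a b : ℤ × ℤ × ℤ) : ℤ := a.1 * b.1 + a.2.1 * b.2.1 + a.2.2 * b.2.2

def crossp (a b : ℤ × ℤ × ℤ) : ℤ × ℤ × ℤ :=
  (a.2.1 * b.2.2 - a.2.2 * b.2.1, a.2.2 * b.1 - a.1 * b.2.2, a.1 * b.2.1 - a.2.1 * b.1)

def subp (a b : ℤ × ℤ × ℤ) : ℤ × ℤ × ℤ := (a.1 - b.1, a.2.1 - b.2.1, a.2.2 - b.2.2)

def G9t (j : Fin 9) : ℤ × ℤ × ℤ := (G9 j 0, G9 j 1, G9 j 2)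

/-- `c • y = a • u + b • v` -/
def comb (c : ℤ) (y : ℤ × ℤ × ℤ) (a : ℤ) (u : ℤ × ℤ × ℤ) (b : ℤ) (v : ℤ × ℤ × ℤ) : Bool :=
  decide (c ≠ 0) && decide (c * y.1 = a * u.1 + b * v.1) &&
  decide (c * y.2.1 = a * u.2.1 + b * v.2.1) && decide (c * y.2.2 = a * u.2.2 + b * v.2.2)

/-- The points of the face lie in one layer and differ by vectors in the span of the side. -/
def uDim (i : Fin 9) (c : Cert) : Bool :=
  match c.zq with
  | [] => false
  | q0 :: l => l.all fun q => decide (q.1 = q0.1) &&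
      (let y := subp q.2 q0.2
       let u := G9t i
       let v := G9t (i + 1)
       let n := crossp u v
       comb (dotp n n) y (dotp (crossp y v) n) u (dotp (crossp u y) n) v)

/-- The face has four points which are two parallel pairs. -/
def zDim (c : Cert) : Bool :=
  match c.zq with
  | [q0, q1, m0, m1] => decide (q0.1 = q1.1) && decide (m0.1 = m1.1) &&
      (let y := subp q1.2 q0.2
       let z := subp m1.2 m0.2
       comb (dotp y y) z (dotp y z) y 0 y)
  | _ => false

theorem UC_side : UC.all (fun p => p.2.sideOk p.1) = true := by decide +kernel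

theorem ZC_pos : ZC.all Cert.posOk = true := by decide +kernel

theorem VC_pos : VC.all Cert.posOk = true := by decide +kernel

theorem UC_dim : UC.all (fun p => uDim p.1 p.2) = true := by decide +kernel

theorem ZC_dim : ZC.all zDim = true := by decide +kernel

/-- Every gadget vertex has a certificate. -/
theorem VC_all : KL.all (fun q => VC.any fun c => decide (c.zq = [q])) = true := by decide +kernel

/-! ## The blocks -/

def hasU (i : Fin 9) (q q' : Q) : Bool :=
  decide (q ≠ q') && UC.any fun p => decide (p.1 = i) && decide (q ∈ p.2.zq) &&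
    decide (q' ∈ p.2.zq)

def hasUm (i : Fin 9) (q q' m : Q) : Bool :=
  decide (q ≠ q') && decide (m ∈ KL) && UC.any fun p => decide (p.1 = i) && decide (q ∈ p.2.zq) &&
    decide (q' ∈ p.2.zq) && decide (m ∉ p.2.zq)

def hasZ (a b c e : Q) : Bool :=
  decide (a ≠ b) && decide (a ≠ c) && decide (a ≠ e) && decide (b ≠ c) && decide (b ≠ e) &&
    decide (c ≠ e) && ZC.any fun p => decide (a ∈ p.zq) && decide (b ∈ p.zq) &&
      decide (c ∈ p.zq) && decide (e ∈ p.zq)

def linkOk (i : Fin 9) (q q' m m' : Q) : Bool := hasUm i q q' m && hasU i m m' && hasZ q q' m m'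

def HB.ok (b : HB) : Bool :=
  hasU b.n2 b.q1 b.q2 && hasU b.n2p b.q1 b.q2 && linkOk b.n2 b.q1 b.q2 b.Sa b.Sb &&
  linkOk b.n2 b.Sa b.Sb b.R12 b.R2n && hasU b.n1 b.Sc b.Sd && hasU b.n1p b.Sc b.Sd &&
  linkOk b.n1 b.Sc b.Sd b.R12 b.R1n && hasU b.n b.R1n b.R2n

theorem TI_ok : TI.all (fun t => t.1.ok && linkOk t.1.n t.1.R1n t.1.R2n t.2.2.1 t.2.2.2 &&
    hasU t.2.1 t.2.2.1 t.2.2.2) = true := by decide +kernel

theorem TII_ok : TII.all (fun t => t.1.ok && t.2.ok && decide (t.2.n = t.1.n) &&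
    linkOk t.1.n t.1.R1n t.1.R2n t.2.R1n t.2.R2n) = true := by decide +kernel

end Pool.Agent.H95.Scr
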