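import Pool.Graph.R_pool_sql_team_seeded_620a6dc7.Helper101_Scrib.Common

/-!
# Definitions for the `(0, d-1)`-scribability problem (MP_3c8515_co)

Euclidean polytopes, their faces, combinatorial type and strong scribability, and the relations
used in the rigidity argument of the nonagon.
-/

namespace Pool.Agent.H95.Scr

open Pool.Agent.Helper101_Scrib (Amb)

/-- Euclidean `d`-space. -/
abbrev E (d : ℕ) : Type := EuclideanSpace ℝ (Fin d)

/-- `P` is a `d`-polytope in `ℝ^d`: the convex hull of finitely many points, not contained in a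
hyperplane. -/
def IsPolytope (d : ℕ) (P : Set (E d)) : Prop :=
  (∃ V : Finset (E d), P = convexHull ℝ (V : Set (E d))) ∧ affineSpan ℝ P = ⊤

/-- `F` is a face of `P`: the set of points of `P` on a hyperplane `l x = c` with `l x ≤ c` on
`P` (this includes the empty face, and `P` itself for `l = 0`). -/
def IsFace {d : ℕ} (P F : Set (E d)) : Prop :=
  ∃ (l : E d →ₗ[ℝ] ℝ) (c : ℝ), (∀ x ∈ P, l x ≤ c) ∧ F = {x | x ∈ P ∧ l x = c}

/-- The dimension of a (nonempty) set. -/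
noncomputable def faceDim {d : ℕ} (F : Set (E d)) : ℕ := Module.finrank ℝ (vectorSpan ℝ F)

/-- Combinatorial equivalence: isomorphic face lattices. -/
def SameType {d : ℕ} (P Q : Set (E d)) : Prop :=
  Nonempty ({F : Set (E d) // IsFace P F} ≃o {F : Set (E d) // IsFace Q F})

/-- The closed unit ball. -/
def ball (d : ℕ) : Set (E d) := Metric.closedBall 0 1

/-- The face `F` of `Q` strongly avoids the unit sphere: some supporting hyperplane of `Q` meets
`Q` exactly in `F` and has the unit ball on the same (closed) side as `Q`. -/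
def StronglyAvoids {d : ℕ} (Q F : Set (E d)) : Prop :=
  ∃ (l : E d →ₗ[ℝ] ℝ) (c : ℝ), l ≠ 0 ∧ (∀ x ∈ Q, l x ≤ c) ∧ F = {x | x ∈ Q ∧ l x = c} ∧
    ∀ x ∈ ball d, l x ≤ c

/-- The face `F` strongly cuts the unit sphere: its relative interior meets the unit ball. -/
def StronglyCuts {d : ℕ} (F : Set (E d)) : Prop :=
  (intrinsicInterior ℝ F ∩ ball d).Nonempty

/-- `P` is (strongly) `(i, j)`-scribable: some realization `Q` of `P` has all `i`-faces strongly
avoiding and all `j`-faces strongly cutting the sphere. -/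
def Scribable (d i j : ℕ) (P : Set (E d)) : Prop :=
  ∃ Q : Set (E d), IsPolytope d Q ∧ SameType P Q ∧
    (∀ F, IsFace Q F → F.Nonempty → faceDim F = i → StronglyAvoids Q F) ∧
    (∀ F, IsFace Q F → F.Nonempty → faceDim F = j → StronglyCuts F)

/-- `x` is a positive multiple of `y`. -/
def Pos {V : Type*} [AddCommGroup V] [Module ℝ V] (x y : V) : Prop := ∃ c : ℝ, 0 < c ∧ x = c • y

/-- The nine vertices of the nonagon, in cyclic order; side `i` joins vertices `i` and `i + 1`. -/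
def G9 : Fin 9 → Fin 3 → ℤ :=
  ![![1, 2, 0], ![2, 1, 0], ![6, 1, 1], ![2, 0, 1], ![1, 0, 2], ![1, 1, 6], ![0, 1, 2], ![0, 2, 1],
    ![1, 6, 1]]

/-- The side lines `a, b`, the side lines `c, d` and the side lines `e, f` meet in three
collinear points (in the form: three nonzero dependent vectors). -/
def RelI {V : Type*} [AddCommGroup V] [Module ℝ V] (n : Fin 9 → V →ₗ[ℝ] ℝ)
    (a b c d e f : Fin 9) : Prop :=
  ∃ D₁ D₂ : V, D₁ ≠ 0 ∧ D₂ ≠ 0 ∧ D₁ - D₂ ≠ 0 ∧ n a D₁ = 0 ∧ n b D₁ = 0 ∧ n c D₂ = 0 ∧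
    n d D₂ = 0 ∧ n e (D₁ - D₂) = 0 ∧ n f (D₁ - D₂) = 0

/-- The line through `a ∩ b` and `c ∩ d`, the line through `a' ∩ b'` and `c' ∩ d'`, and the side
line `m` meet in a point. -/
def RelII {V : Type*} [AddCommGroup V] [Module ℝ V] (n : Fin 9 → V →ₗ[ℝ] ℝ)
    (m a b c d a' b' c' d' : Fin 9) : Prop :=
  ∃ D₁ D₂ D₁' D₂' : V, D₁ ≠ 0 ∧ D₂ ≠ 0 ∧ D₁' ≠ 0 ∧ D₂' ≠ 0 ∧ D₁ - D₂ ≠ 0 ∧
    n a D₁ = 0 ∧ n b D₁ = 0 ∧ n c D₂ = 0 ∧ n d D₂ = 0 ∧
    n a' D₁' = 0 ∧ n b' D₁' = 0 ∧ n c' D₂' = 0 ∧ n d' D₂' = 0 ∧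
    n m (D₁ - D₂) = 0 ∧ ∃ s : ℝ, s ≠ 0 ∧ D₁' - D₂' = s • (D₁ - D₂)

end Pool.Agent.H95.Scr
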