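import Pool.Agent.H95.Scr.Check2
import Pool.Graph.R_pool_sql_team_seeded_620a6dc7.Helper101_Scrib.Rel

/-!
# The relations forced by a gadget
-/

namespace Pool.Agent.H95.Scr

open Pool.Agent.Helper101_Scrib (L4)
open Submodule

variable {E : Type*} [AddCommGroup E] [Module ℝ E]

/-- The faces of a gadget, for the realized vertices `x q`, `g j`. -/
structure Gad (x : Q → E) (g : Fin 9 → E) : Prop where
  side : ∀ i, ∃ φ : E →ₗ[ℝ] ℝ, φ (g i) = 0 ∧ φ (g (i + 1)) = 0 ∧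
    ∀ j, j ≠ i → j ≠ i + 1 → 0 < φ (g j)
  plane : ∃ ψ : E →ₗ[ℝ] ℝ, (∀ j, ψ (g j) = 0) ∧ ∀ q ∈ KL, 0 < ψ (x q)
  ind : ∀ i, ∀ a b : ℝ, a • g i + b • g (i + 1) = 0 → a = 0 ∧ b = 0
  dim : Module.finrank ℝ (span ℝ (Set.range g)) = 3
  mem : ∀ p ∈ UC, ∀ q ∈ p.2.zq, q ∈ KL
  U : ∀ p ∈ UC, ∀ q ∈ p.2.zq, ∀ q' ∈ p.2.zq, q ≠ q' → L4 (x q) (x q') (g p.1) (g (p.1 + 1))
  Uf : ∀ p ∈ UC, ∃ φ : E →ₗ[ℝ] ℝ, φ (g p.1) = 0 ∧ φ (g (p.1 + 1)) = 0 ∧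
    (∀ q ∈ p.2.zq, φ (x q) = 0) ∧ ∀ q ∈ KL, q ∉ p.2.zq → 0 < φ (x q)
  Z : ∀ c ∈ ZC, ∀ q ∈ c.zq, ∀ q' ∈ c.zq, ∀ m ∈ c.zq, ∀ m' ∈ c.zq, q ≠ q' → q ≠ m → q ≠ m' →
    q' ≠ m → q' ≠ m' → m ≠ m' → L4 (x q) (x q') (x m) (x m')

theorem hasU_spec {i : Fin 9} {q q' : Q} (h : hasU i q q' = true) :
    q ≠ q' ∧ ∃ p ∈ UC, p.1 = i ∧ q ∈ p.2.zq ∧ q' ∈ p.2.zq := by
  simp only [hasU, Bool.and_eq_true, decide_eq_true_eq, List.any_eq_true] at h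
  obtain ⟨h1, p, hp, ⟨h2, h3⟩, h4⟩ := h
  exact ⟨h1, p, hp, h2, h3, h4⟩

theorem hasUm_spec {i : Fin 9} {q q' m : Q} (h : hasUm i q q' m = true) :
    q ≠ q' ∧ m ∈ KL ∧ ∃ p ∈ UC, p.1 = i ∧ q ∈ p.2.zq ∧ q' ∈ p.2.zq ∧ m ∉ p.2.zq := by
  simp only [hasUm, Bool.and_eq_true, decide_eq_true_eq, List.any_eq_true] at h
  obtain ⟨⟨h1, h5⟩, p, hp, ⟨⟨h2, h3⟩, h4⟩, h6⟩ := h
  exact ⟨h1, h5, p, hp, h2, h3, h4, h6⟩

theorem hasZ_spec {a b c e : Q} (h : hasZ a b c e = true) :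
    a ≠ b ∧ a ≠ c ∧ a ≠ e ∧ b ≠ c ∧ b ≠ e ∧ c ≠ e ∧
      ∃ p ∈ ZC, a ∈ p.zq ∧ b ∈ p.zq ∧ c ∈ p.zq ∧ e ∈ p.zq := by
  simp only [hasZ, Bool.and_eq_true, decide_eq_true_eq, List.any_eq_true] at h
  obtain ⟨⟨⟨⟨⟨⟨h1, h2⟩, h3⟩, h4⟩, h5⟩, h6⟩, p, hp, ⟨⟨h7, h8⟩, h9⟩, h10⟩ := h
  exact ⟨h1, h2, h3, h4, h5, h6, p, hp, h7, h8, h9, h10⟩

namespace Gad

variable {x : Q → E} {g : Fin 9 → E}

/-- The normalized difference. -/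
noncomputable def dif (x : Q → E) (ψ : E →ₗ[ℝ] ℝ) (q q' : Q) : E :=
  (ψ (x q))⁻¹ • x q - (ψ (x q'))⁻¹ • x q'

theorem dif_U (G : Gad x g) {ψ : E →ₗ[ℝ] ℝ} (h0 : ∀ j, ψ (g j) = 0)
    (hp : ∀ q ∈ KL, 0 < ψ (x q)) {i : Fin 9} {q q' : Q} (h : hasU i q q' = true) :
    dif x ψ q q' ∈ span ℝ {g i, g (i + 1)} ∧ dif x ψ q q' ≠ 0 := by
  obtain ⟨hne, p, hpU, rfl, hq, hq'⟩ := hasU_spec h
  obtain ⟨α, β, γ, δ, hα, hβ, hγ, hδ, hrel⟩ := G.U p hpU q hq q' hq' hne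
  have hψ := congrArg ψ hrel
  simp only [map_add, map_smul, h0, add_zero, map_zero, smul_eq_mul, mul_zero] at hψ
  have p1 := hp q (G.mem p hpU q hq)
  have p2 := hp q' (G.mem p hpU q' hq')
  have e1 : dif x ψ q q' = (-(γ * (α * ψ (x q))⁻¹)) • g p.1 +
      (-(δ * (α * ψ (x q))⁻¹)) • g (p.1 + 1) := by
    have h1 : (ψ (x q'))⁻¹ = -(β * (α * ψ (x q))⁻¹) := by
      field_simp
      linarith
    have h2 : (ψ (x q))⁻¹ = α * (α * ψ (x q))⁻¹ := by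
      field_simp
    have h3 : α • x q = - (β • x q' + γ • g p.1 + δ • g (p.1 + 1)) := by
      rw [← sub_eq_zero, ← hrel]
      module
    unfold dif
    rw [h1]
    nth_rw 1 [h2]
    rw [mul_comm α, mul_smul, h3]
    module
  refine ⟨?_, fun hz => ?_⟩
  · rw [mem_span_pair]
    exact ⟨_, _, e1.symm⟩
  · rw [hz] at e1
    obtain ⟨e2, _⟩ := G.ind p.1 _ _ e1.symm
    have : γ * (α * ψ (x q))⁻¹ ≠ 0 := mul_ne_zero hγ (inv_ne_zero (mul_ne_zero hα p1.ne'))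
    exact this (neg_eq_zero.1 e2)

theorem dif_link (G : Gad x g) {ψ : E →ₗ[ℝ] ℝ} (h0 : ∀ j, ψ (g j) = 0)
    (hp : ∀ q ∈ KL, 0 < ψ (x q)) {i : Fin 9} {q q' m m' : Q}
    (h : linkOk i q q' m m' = true) :
    ∃ s : ℝ, s ≠ 0 ∧ dif x ψ m m' = s • dif x ψ q q' := by
  simp only [linkOk, Bool.and_eq_true] at h
  obtain ⟨⟨h1, h2⟩, h3⟩ := h
  obtain ⟨hm2, _⟩ := G.dif_U h0 hp h2
  obtain ⟨hne2, p2, hpU2, hpi2, hm, hm'⟩ := hasU_spec h2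
  obtain ⟨hne, hmK, p, hpU, rfl, hq, hq', hmz⟩ := hasUm_spec h1
  obtain ⟨n1, n2, n3, n4, n5, n6, c, hc, z1, z2, z3, z4⟩ := hasZ_spec h3
  obtain ⟨α, β, γ, δ, hα, hβ, hγ, hδ, hrel⟩ := G.Z c hc q z1 q' z2 m z3 m' z4 n1 n2 n3 n4 n5 n6
  obtain ⟨φ, f1, f2, f3, f4⟩ := G.Uf p hpU
  have P1 := hp q (G.mem p hpU q hq)
  have P2 := hp q' (G.mem p hpU q' hq')
  have P3 := hp m hmK
  have P4 := hp m' (G.mem p2 hpU2 m' hm')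
  have hφm := f4 m hmK hmz
  have hφd : φ (dif x ψ m m') = 0 := by
    rw [mem_span_pair] at hm2
    obtain ⟨a, b, hab⟩ := hm2
    rw [← hab, map_add, map_smul, map_smul, f1, f2, smul_zero, smul_zero, add_zero]
  have hψ := congrArg ψ hrel
  simp only [map_add, map_smul, map_zero, smul_eq_mul] at hψ
  have hφ := congrArg φ hrel
  simp only [map_add, map_smul, map_zero, smul_eq_mul, f3 q hq, f3 q' hq', mul_zero, zero_add] at hφ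
  -- `φ (x m') = ψ (x m') / ψ (x m) * φ (x m)`
  have hm' : φ (x m') * ψ (x m) = ψ (x m') * φ (x m) := by
    have : (ψ (x m))⁻¹ * φ (x m) - (ψ (x m'))⁻¹ * φ (x m') = 0 := by
      simpa [dif, map_sub, map_smul] using hφd
    field_simp at this
    linarith
  have hsum : γ * ψ (x m) + δ * ψ (x m') = 0 := by
    have : φ (x m) * (γ * ψ (x m) + δ * ψ (x m')) = 0 := by
      calc φ (x m) * (γ * ψ (x m) + δ * ψ (x m')) = γ * φ (x m) * ψ (x m) +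
            δ * (ψ (x m') * φ (x m)) := by ring
        _ = (γ * φ (x m) + δ * φ (x m')) * ψ (x m) := by rw [← hm']; ring
        _ = 0 := by rw [hφ, zero_mul]
    exact (mul_eq_zero.1 this).resolve_left hφm.ne'
  have hsum2 : α * ψ (x q) + β * ψ (x q') = 0 := by linarith
  refine ⟨-(α * ψ (x q)) / (γ * ψ (x m)), ?_, ?_⟩
  · exact div_ne_zero (neg_ne_zero.2 (mul_ne_zero hα P1.ne')) (mul_ne_zero hγ P3.ne')
  · have e1 : (γ * ψ (x m)) • dif x ψ m m' = γ • x m + δ • x m' := by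
      have : δ = -(γ * ψ (x m)) * (ψ (x m'))⁻¹ := by
        field_simp
        linarith
      unfold dif
      rw [smul_sub, smul_smul, smul_smul, mul_assoc, mul_inv_cancel₀ P3.ne', mul_one]
      rw [this, neg_mul, neg_smul, ← sub_eq_add_neg]
    have e2 : (α * ψ (x q)) • dif x ψ q q' = α • x q + β • x q' := by
      have : β = -(α * ψ (x q)) * (ψ (x q'))⁻¹ := by
        field_simp
        linarith
      unfold dif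
      rw [smul_sub, smul_smul, smul_smul, mul_assoc, mul_inv_cancel₀ P1.ne', mul_one]
      rw [this, neg_mul, neg_smul, ← sub_eq_add_neg]
    have e3 : (γ * ψ (x m)) • dif x ψ m m' = -((α * ψ (x q)) • dif x ψ q q') := by
      rw [e1, e2, eq_neg_iff_add_eq_zero, ← hrel]
      module
    have hne : γ * ψ (x m) ≠ 0 := mul_ne_zero hγ P3.ne'
    calc dif x ψ m m' = (γ * ψ (x m))⁻¹ • ((γ * ψ (x m)) • dif x ψ m m') := by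
          rw [smul_smul, inv_mul_cancel₀ hne, one_smul]
      _ = (γ * ψ (x m))⁻¹ • (-((α * ψ (x q)) • dif x ψ q q')) := by rw [e3]
      _ = _ := by
        rw [smul_neg, smul_smul, ← neg_smul]
        congr 1
        field_simp

/-- The plane of the nonagon. -/
abbrev pl (g : Fin 9 → E) : Submodule ℝ E := span ℝ (Set.range g)

theorem mem_pl {i : Fin 9} {v : E} (h : v ∈ span ℝ {g i, g (i + 1)}) : v ∈ pl g := by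
  refine (Submodule.span_mono ?_) h
  rintro w (rfl | rfl)
  · exact ⟨i, rfl⟩
  · exact ⟨i + 1, rfl⟩

theorem ker_of_mem {φ : Fin 9 → E →ₗ[ℝ] ℝ} (h1 : ∀ i, φ i (g i) = 0)
    (h2 : ∀ i, φ i (g (i + 1)) = 0) {i : Fin 9} {v : E} (h : v ∈ span ℝ {g i, g (i + 1)}) :
    φ i v = 0 := by
  rw [mem_span_pair] at h
  obtain ⟨a, b, rfl⟩ := h
  rw [map_add, map_smul, map_smul, h1, h2, smul_zero, smul_zero, add_zero]

/-- The data of a block. -/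
theorem block (G : Gad x g) {ψ : E →ₗ[ℝ] ℝ} (h0 : ∀ j, ψ (g j) = 0)
    (hp : ∀ q ∈ KL, 0 < ψ (x q)) {φ : Fin 9 → E →ₗ[ℝ] ℝ} (h1 : ∀ i, φ i (g i) = 0)
    (h2 : ∀ i, φ i (g (i + 1)) = 0) {b : HB} (h : b.ok = true) :
    dif x ψ b.R12 b.R1n ∈ pl g ∧ dif x ψ b.R12 b.R2n ∈ pl g ∧ dif x ψ b.R12 b.R1n ≠ 0 ∧
    dif x ψ b.R12 b.R2n ≠ 0 ∧ dif x ψ b.R1n b.R2n ≠ 0 ∧
    φ b.n1 (dif x ψ b.R12 b.R1n) = 0 ∧ φ b.n1p (dif x ψ b.R12 b.R1n) = 0 ∧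
    φ b.n2 (dif x ψ b.R12 b.R2n) = 0 ∧ φ b.n2p (dif x ψ b.R12 b.R2n) = 0 ∧
    φ b.n (dif x ψ b.R1n b.R2n) = 0 := by
  simp only [HB.ok, Bool.and_eq_true] at h
  obtain ⟨⟨⟨⟨⟨⟨⟨a1, a2⟩, a3⟩, a4⟩, a5⟩, a6⟩, a7⟩, a8⟩ := h
  have b1 := G.dif_U h0 hp a1
  have b2 := G.dif_U h0 hp a2
  obtain ⟨s1, hs1, b3⟩ := G.dif_link h0 hp a3
  obtain ⟨s2, hs2, b4⟩ := G.dif_link h0 hp a4
  have b5 := G.dif_U h0 hp a5
  have b6 := G.dif_U h0 hp a6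
  obtain ⟨s3, hs3, b7⟩ := G.dif_link h0 hp a7
  have b8 := G.dif_U h0 hp a8
  rw [b4, b3, b7]
  refine ⟨smul_mem _ _ (mem_pl b5.1), smul_mem _ _ (smul_mem _ _ (mem_pl b1.1)),
    smul_ne_zero hs3 b5.2, smul_ne_zero hs2 (smul_ne_zero hs1 b1.2), b8.2, ?_, ?_, ?_, ?_,
    ker_of_mem h1 h2 b8.1⟩
  · rw [map_smul, ker_of_mem h1 h2 b5.1, smul_zero]
  · rw [map_smul, ker_of_mem h1 h2 b6.1, smul_zero]
  · rw [map_smul, map_smul, ker_of_mem h1 h2 b1.1, smul_zero, smul_zero]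
  · rw [map_smul, map_smul, ker_of_mem h1 h2 b2.1, smul_zero, smul_zero]

theorem dif_sub (x : Q → E) (ψ : E →ₗ[ℝ] ℝ) (a b c : Q) :
    dif x ψ a b - dif x ψ a c = - dif x ψ b c := by
  unfold dif
  module

theorem relI (G : Gad x g) {ψ : E →ₗ[ℝ] ℝ} (h0 : ∀ j, ψ (g j) = 0)
    (hp : ∀ q ∈ KL, 0 < ψ (x q)) {φ : Fin 9 → E →ₗ[ℝ] ℝ} (h1 : ∀ i, φ i (g i) = 0)
    (h2 : ∀ i, φ i (g (i + 1)) = 0) {t : HB × Fin 9 × Q × Q} (ht : t ∈ TI) :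
    RelI (fun i => (φ i).domRestrict (pl g)) t.1.n1 t.1.n1p t.1.n2 t.1.n2p t.1.n t.2.1 := by
  have h := List.all_eq_true.1 TI_ok t ht
  simp only [Bool.and_eq_true] at h
  obtain ⟨⟨hb, hl⟩, hu⟩ := h
  obtain ⟨c1, c2, c3, c4, c5, c6, c7, c8, c9, c10⟩ := G.block h0 hp h1 h2 hb
  obtain ⟨s, hs, e1⟩ := G.dif_link h0 hp hl
  have e2 := G.dif_U h0 hp hu
  have e3 : φ t.2.1 (dif x ψ t.1.R1n t.1.R2n) = 0 := by
    have e4 := ker_of_mem h1 h2 e2.1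
    rw [e1, map_smul, smul_eq_mul] at e4
    exact (mul_eq_zero.1 e4).resolve_left hs
  have e5 := dif_sub x ψ t.1.R12 t.1.R1n t.1.R2n
  refine ⟨⟨_, c1⟩, ⟨_, c2⟩, ?_, ?_, ?_, c6, c7, c8, c9, ?_, ?_⟩
  · intro h; exact c3 (congrArg Subtype.val h)
  · intro h; exact c4 (congrArg Subtype.val h)
  · intro h
    have h' := congrArg Subtype.val h
    simp only [AddSubgroupClass.coe_sub, ZeroMemClass.coe_zero] at h'
    rw [e5, neg_eq_zero] at h'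
    exact c5 h'
  · show φ _ (dif x ψ t.1.R12 t.1.R1n - dif x ψ t.1.R12 t.1.R2n) = 0
    rw [e5, map_neg, c10, neg_zero]
  · show φ _ (dif x ψ t.1.R12 t.1.R1n - dif x ψ t.1.R12 t.1.R2n) = 0
    rw [e5, map_neg, e3, neg_zero]

theorem relII (G : Gad x g) {ψ : E →ₗ[ℝ] ℝ} (h0 : ∀ j, ψ (g j) = 0)
    (hp : ∀ q ∈ KL, 0 < ψ (x q)) {φ : Fin 9 → E →ₗ[ℝ] ℝ} (h1 : ∀ i, φ i (g i) = 0)
    (h2 : ∀ i, φ i (g (i + 1)) = 0) {t : HB × HB} (ht : t ∈ TII) :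
    RelII (fun i => (φ i).domRestrict (pl g)) t.1.n t.1.n1 t.1.n1p t.1.n2 t.1.n2p t.2.n1 t.2.n1p
      t.2.n2 t.2.n2p := by
  have h := List.all_eq_true.1 TII_ok t ht
  simp only [Bool.and_eq_true, decide_eq_true_eq] at h
  obtain ⟨⟨⟨hb, hb'⟩, hn⟩, hl⟩ := h
  obtain ⟨c1, c2, c3, c4, c5, c6, c7, c8, c9, c10⟩ := G.block h0 hp h1 h2 hb
  obtain ⟨d1, d2, d3, d4, d5, d6, d7, d8, d9, d10⟩ := G.block h0 hp h1 h2 hb'
  obtain ⟨s, hs, e1⟩ := G.dif_link h0 hp hl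
  have e5 := dif_sub x ψ t.1.R12 t.1.R1n t.1.R2n
  have e6 := dif_sub x ψ t.2.R12 t.2.R1n t.2.R2n
  refine ⟨⟨_, c1⟩, ⟨_, c2⟩, ⟨_, d1⟩, ⟨_, d2⟩, ?_, ?_, ?_, ?_, ?_, c6, c7, c8, c9, d6, d7, d8, d9,
    ?_, s, hs, ?_⟩
  · intro h; exact c3 (congrArg Subtype.val h)
  · intro h; exact c4 (congrArg Subtype.val h)
  · intro h; exact d3 (congrArg Subtype.val h)
  · intro h; exact d4 (congrArg Subtype.val h)
  · intro h
    have h' := congrArg Subtype.val h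
    simp only [AddSubgroupClass.coe_sub, ZeroMemClass.coe_zero] at h'
    rw [e5, neg_eq_zero] at h'
    exact c5 h'
  · show φ _ (dif x ψ t.1.R12 t.1.R1n - dif x ψ t.1.R12 t.1.R2n) = 0
    rw [e5, map_neg, c10, neg_zero]
  · apply Subtype.ext
    show dif x ψ t.2.R12 t.2.R1n - dif x ψ t.2.R12 t.2.R2n =
      s • (dif x ψ t.1.R12 t.1.R1n - dif x ψ t.1.R12 t.1.R2n)
    rw [e5, e6, e1, smul_neg]

/-- `RelI` is symmetric inside the pairs. -/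
theorem relI_symm {V : Type*} [AddCommGroup V] [Module ℝ V] {n : Fin 9 → V →ₗ[ℝ] ℝ}
    {a b c d e f : Fin 9} (h : RelI n a b c d e f) : RelI n b a c d e f ∧ RelI n a b d c e f := by
  obtain ⟨D1, D2, h1, h2, h3, h4, h5, h6, h7, h8, h9⟩ := h
  exact ⟨⟨D1, D2, h1, h2, h3, h5, h4, h6, h7, h8, h9⟩, ⟨D1, D2, h1, h2, h3, h4, h5, h7, h6, h8, h9⟩⟩

theorem relII_symm {V : Type*} [AddCommGroup V] [Module ℝ V] {n : Fin 9 → V →ₗ[ℝ] ℝ}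
    {m a b c d a' b' c' d' : Fin 9} (h : RelII n m a b c d a' b' c' d') :
    RelII n m b a c d a' b' c' d' ∧ RelII n m a b d c a' b' c' d' ∧
    RelII n m a b c d b' a' c' d' ∧ RelII n m a b c d a' b' d' c' := by
  obtain ⟨D1, D2, D1', D2', h1, h2, h3, h4, h5, h6, h7, h8, h9, k6, k7, k8, k9, h10, h11⟩ := h
  exact ⟨⟨D1, D2, D1', D2', h1, h2, h3, h4, h5, h7, h6, h8, h9, k6, k7, k8, k9, h10, h11⟩,
    ⟨D1, D2, D1', D2', h1, h2, h3, h4, h5, h6, h7, h9, h8, k6, k7, k8, k9, h10, h11⟩,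
    ⟨D1, D2, D1', D2', h1, h2, h3, h4, h5, h6, h7, h8, h9, k7, k6, k8, k9, h10, h11⟩,
    ⟨D1, D2, D1', D2', h1, h2, h3, h4, h5, h6, h7, h8, h9, k6, k7, k9, k8, h10, h11⟩⟩

end Gad

end Pool.Agent.H95.Scr
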