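import Pool.Agent.H95.Scr.Gad
import Pool.Agent.H95.Scr.Alg

/-!
# The frame of a triple
-/

namespace Pool.Agent.H95.Scr

open Submodule



theorem Gad.frame {E : Type*} [AddCommGroup E] [Module ℝ E] {x : Q → E} {g : Fin 9 → E}
    (G : Gad x g) : ∃ e : Fin 3 → E, ∀ j,
      Pos ((G9 j 0 : ℝ) • e 0 + (G9 j 1 : ℝ) • e 1 + (G9 j 2 : ℝ) • e 2) (g j) := by
  choose φ h1 h2 h3 using G.side
  obtain ⟨ψ, h0, hp⟩ := G.plane
  have I := fun (t : HB × Fin 9 × Q × Q) (ht : t ∈ TI) => G.relI h0 hp h1 h2 ht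
  have J := fun (t : HB × HB) (ht : t ∈ TII) => G.relII h0 hp h1 h2 ht
  have i1 := I (TI[0]'(by decide)) (List.getElem_mem _)
  have i2 := I (TI[1]'(by decide)) (List.getElem_mem _)
  have i3 := I (TI[2]'(by decide)) (List.getElem_mem _)
  have i4 := I (TI[3]'(by decide)) (List.getElem_mem _)
  have i5 := I (TI[4]'(by decide)) (List.getElem_mem _)
  have i6 := I (TI[5]'(by decide)) (List.getElem_mem _)
  have j1 := J (TII[0]'(by decide)) (List.getElem_mem _)
  have j2 := J (TII[1]'(by decide)) (List.getElem_mem _)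
  have j3 := J (TII[2]'(by decide)) (List.getElem_mem _)
  have j4 := J (TII[3]'(by decide)) (List.getElem_mem _)
  obtain ⟨e, he⟩ := nonagon_rigid (V := Gad.pl g) G.dim
    (fun i => (φ i).domRestrict (Gad.pl g)) (fun j => ⟨g j, subset_span ⟨j, rfl⟩⟩) h1 h2 h3
    (Gad.relI_symm (Gad.relI_symm i1).1).2
    (Gad.relI_symm (Gad.relI_symm i2).1).2 i3 i4 i5
    (Gad.relI_symm (Gad.relI_symm i6).1).2 j1 j2
    (Gad.relII_symm j3).2.2.1
    (Gad.relII_symm (Gad.relII_symm j4).1).2.2.1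
  refine ⟨fun i => e i, fun j => ?_⟩
  obtain ⟨c, hc, h⟩ := he j
  exact ⟨c, hc, congrArg Subtype.val h⟩

end Pool.Agent.H95.Scr
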