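import Pool.Agent.H95.Scr.Check
import Pool.Agent.H95.Scr.Check2
import Pool.Graph.R_pool_sql_team_seeded_620a6dc7.Helper101_Scrib.Poly

/-!
# The vertices of the polytope and estimates for the functionals
-/

namespace Pool.Agent.H95.Scr

open Pool.Agent.Helper101_Scrib (Amb conicHull IsPolytopeCone linDim sphBall bil)

/-- A basis and auxiliary indices. -/
structure Fr (d : ℕ) where
  b : Module.Basis (Fin (d + 1)) ℝ (Amb d)
  hb : ∀ k, b k 0 = 1
  A : (Fin 3 → Fin (d + 1)) → Fin (d + 1)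
  C : (Fin 3 → Fin (d + 1)) → Fin (d + 1)
  hA : ∀ T i, A T ≠ T i
  hC : ∀ T i, C T ≠ T i
  hAC : ∀ T, A T ≠ C T

theorem exists_Fr {d : ℕ} (hd : 4 ≤ d) : Nonempty (Fr d) := by
  classical
  obtain ⟨b, hb⟩ := Pool.Agent.Helper101_Scrib.exists_affine_basis d
  have h1 : ∀ T : Fin 3 → Fin (d + 1), ∃ a c : Fin (d + 1), (∀ i, a ≠ T i) ∧ (∀ i, c ≠ T i) ∧
      a ≠ c := by
    intro T
    have e1 : (Finset.univ.image T).card ≤ 3 := by
      simpa using (Finset.card_image_le (s := Finset.univ) (f := T))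
    obtain ⟨a, ha⟩ : ∃ a, a ∉ Finset.univ.image T := by
      by_contra hcon
      push Not at hcon
      have : (Finset.univ : Finset (Fin (d + 1))) ⊆ Finset.univ.image T := fun x _ => hcon x
      have := Finset.card_le_card this
      simp only [Finset.card_univ, Fintype.card_fin] at this
      omega
    obtain ⟨c, hc⟩ : ∃ c, c ∉ insert a (Finset.univ.image T) := by
      by_contra hcon
      push Not at hcon
      have : (Finset.univ : Finset (Fin (d + 1))) ⊆ insert a (Finset.univ.image T) :=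
        fun x _ => hcon x
      have := Finset.card_le_card this
      have e2 := Finset.card_insert_le a (Finset.univ.image T)
      simp only [Finset.card_univ, Fintype.card_fin] at this
      omega
    refine ⟨a, c, ?_, ?_, ?_⟩
    · rintro i rfl
      exact ha (Finset.mem_image_of_mem _ (Finset.mem_univ _))
    · rintro i rfl
      exact hc (Finset.mem_insert_of_mem (Finset.mem_image_of_mem _ (Finset.mem_univ _)))
    · rintro rfl
      exact hc (Finset.mem_insert_self _ _)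
  choose A C h2 h3 h4 using h1
  exact ⟨⟨b, hb, A, C, h2, h3, h4⟩⟩

namespace Fr

variable {d : ℕ} (F : Fr d)

noncomputable def lf (f : Fin (d + 1) → ℝ) : Amb d →ₗ[ℝ] ℝ := F.b.constr ℝ f

theorem lf_b (f : Fin (d + 1) → ℝ) (k : Fin (d + 1)) : F.lf f (F.b k) = f k :=
  F.b.constr_basis ℝ f k

noncomputable def u (k l : Fin (d + 1)) : Amb d := (2 : ℝ) • F.b k + F.b l

noncomputable def w (k l m : Fin (d + 1)) : Amb d := (6 : ℝ) • F.b k + F.b l + F.b m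

theorem w_comm (k l m : Fin (d + 1)) : F.w k l m = F.w k m l := by
  unfold w
  module

noncomputable def emb (T : Fin 3 → Fin (d + 1)) (y : ℤ × ℤ × ℤ) : Amb d :=
  (y.1 : ℝ) • F.b (T 0) + (y.2.1 : ℝ) • F.b (T 1) + (y.2.2 : ℝ) • F.b (T 2)

noncomputable def g (T : Fin 3 → Fin (d + 1)) (j : Fin 9) : Amb d := F.emb T (G9t j)

noncomputable def lay (T : Fin 3 → Fin (d + 1)) (t : ℤ) : Amb d :=
  ((KK * t * t : ℤ) : ℝ) • (F.b (T 0) + F.b (T 1) + F.b (T 2)) + F.b (F.A T) -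
    (t : ℝ) • F.b (F.C T)

noncomputable def kap (T : Fin 3 → Fin (d + 1)) (q : Q) : Amb d := F.emb T q.2 + F.lay T q.1

theorem lf_u (f : Fin (d + 1) → ℝ) (k l : Fin (d + 1)) : F.lf f (F.u k l) = 2 * f k + f l := by
  simp only [u, map_add, map_smul, lf_b, smul_eq_mul]

theorem lf_w (f : Fin (d + 1) → ℝ) (k l m : Fin (d + 1)) :
    F.lf f (F.w k l m) = 6 * f k + f l + f m := by
  simp only [w, map_add, map_smul, lf_b, smul_eq_mul]

theorem lf_emb (f : Fin (d + 1) → ℝ) (T : Fin 3 → Fin (d + 1)) (y : ℤ × ℤ × ℤ) :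
    F.lf f (F.emb T y) = y.1 * f (T 0) + y.2.1 * f (T 1) + y.2.2 * f (T 2) := by
  simp only [emb, map_add, map_smul, lf_b, smul_eq_mul]

theorem lf_kap (f : Fin (d + 1) → ℝ) (T : Fin 3 → Fin (d + 1)) (q : Q) :
    F.lf f (F.kap T q) = (q.2.1 + KK * q.1 * q.1) * f (T 0) +
      (q.2.2.1 + KK * q.1 * q.1) * f (T 1) +
      (q.2.2.2 + KK * q.1 * q.1) * f (T 2) + f (F.A T) - q.1 * f (F.C T) := by
  simp only [kap, lay, map_add, map_sub, map_smul, lf_b, smul_eq_mul, lf_emb]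
  push_cast
  ring

open Classical in
/-- The vertices of the polytope. -/
noncomputable def verts : Finset (Amb d) :=
  ((Finset.univ : Finset (Fin (d + 1) × Fin (d + 1))).filter fun p => p.1 ≠ p.2).image
    (fun p => F.u p.1 p.2) ∪
  ((Finset.univ : Finset (Fin (d + 1) × Fin (d + 1) × Fin (d + 1))).filter
    fun p => p.1 ≠ p.2.1 ∧ p.1 ≠ p.2.2 ∧ p.2.1 ≠ p.2.2).image (fun p => F.w p.1 p.2.1 p.2.2) ∪
  (((Finset.univ : Finset (Fin 3 → Fin (d + 1))).filter fun T => StrictMono T) ×ˢ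
    KL.toFinset).image (fun p => F.kap p.1 p.2)

theorem mem_verts (v : Amb d) : v ∈ F.verts ↔ (∃ k l, k ≠ l ∧ v = F.u k l) ∨
    (∃ k l m, k ≠ l ∧ k ≠ m ∧ l ≠ m ∧ v = F.w k l m) ∨
    ∃ T, StrictMono T ∧ ∃ q ∈ KL, v = F.kap T q := by
  classical
  simp only [verts, Finset.mem_union, Finset.mem_image, Finset.mem_filter, Finset.mem_univ,
    true_and, Finset.mem_product, List.mem_toFinset]
  constructor
  · rintro ((⟨p, h, rfl⟩ | ⟨p, ⟨h1, h2, h3⟩, rfl⟩) | ⟨p, ⟨h1, h2⟩, rfl⟩)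
    · exact Or.inl ⟨_, _, h, rfl⟩
    · exact Or.inr (Or.inl ⟨_, _, _, h1, h2, h3, rfl⟩)
    · exact Or.inr (Or.inr ⟨_, h1, _, h2, rfl⟩)
  · rintro (⟨k, l, h, rfl⟩ | ⟨k, l, m, h1, h2, h3, rfl⟩ | ⟨T, h1, q, h2, rfl⟩)
    · exact Or.inl (Or.inl ⟨(k, l), h, rfl⟩)
    · exact Or.inl (Or.inr ⟨(k, l, m), ⟨h1, h2, h3⟩, rfl⟩)
    · exact Or.inr ⟨(T, q), ⟨h1, h2⟩, rfl⟩

theorem u_mem {k l : Fin (d + 1)} (h : k ≠ l) : F.u k l ∈ F.verts :=
  (F.mem_verts _).2 (Or.inl ⟨k, l, h, rfl⟩)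

theorem w_mem {k l m : Fin (d + 1)} (h1 : k ≠ l) (h2 : k ≠ m) (h3 : l ≠ m) :
    F.w k l m ∈ F.verts :=
  (F.mem_verts _).2 (Or.inr (Or.inl ⟨k, l, m, h1, h2, h3, rfl⟩))

theorem kap_mem {T : Fin 3 → Fin (d + 1)} (hT : StrictMono T) {q : Q} (hq : q ∈ KL) :
    F.kap T q ∈ F.verts :=
  (F.mem_verts _).2 (Or.inr (Or.inr ⟨T, hT, q, hq, rfl⟩))

/-- The vertices with indices in a triple are the vertices of the nonagon. -/
theorem u_eq_g (T : Fin 3 → Fin (d + 1)) {i j : Fin 3} (h : i ≠ j) :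
    ∃ n, F.u (T i) (T j) = F.g T n := by
  fin_cases i <;> fin_cases j
  · exact absurd rfl h
  · exact ⟨1, by simp [u, g, emb, G9t, G9]⟩
  · exact ⟨3, by simp [u, g, emb, G9t, G9]⟩
  · exact ⟨0, by simp [u, g, emb, G9t, G9, add_comm]⟩
  · exact absurd rfl h
  · exact ⟨7, by simp [u, g, emb, G9t, G9]⟩
  · exact ⟨4, by simp [u, g, emb, G9t, G9, add_comm]⟩
  · exact ⟨6, by simp [u, g, emb, G9t, G9, add_comm]⟩
  · exact absurd rfl h

theorem w_eq_g (T : Fin 3 → Fin (d + 1)) {i j k : Fin 3} (h1 : i ≠ j) (h2 : i ≠ k)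
    (h3 : j ≠ k) : ∃ n, F.w (T i) (T j) (T k) = F.g T n := by
  have e0 : F.w (T 0) (T 1) (T 2) = F.g T 2 := by simp [w, g, emb, G9t, G9]
  have e1 : F.w (T 1) (T 0) (T 2) = F.g T 8 := by simp [w, g, emb, G9t, G9, add_comm]
  have e2 : F.w (T 2) (T 0) (T 1) = F.g T 5 := by
    simp only [w, g, emb, G9t, G9]
    simp
    abel
  fin_cases i <;> fin_cases j <;> fin_cases k <;>
    first
    | exact absurd rfl h1
    | exact absurd rfl h2
    | exact absurd rfl h3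
    | exact ⟨_, e0⟩
    | exact ⟨_, (F.w_comm _ _ _).trans e0⟩
    | exact ⟨_, e1⟩
    | exact ⟨_, (F.w_comm _ _ _).trans e1⟩
    | exact ⟨_, e2⟩
    | exact ⟨_, (F.w_comm _ _ _).trans e2⟩

theorem g_mem {T : Fin 3 → Fin (d + 1)} (hT : StrictMono T) (n : Fin 9) : F.g T n ∈ F.verts := by
  have hi := hT.injective
  have h01 : T 0 ≠ T 1 := fun h => by simpa using hi h
  have h02 : T 0 ≠ T 2 := fun h => by simpa using hi h
  have h12 : T 1 ≠ T 2 := fun h => by simpa using hi h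
  fin_cases n
  · convert F.u_mem h01.symm using 1
    simp [u, g, emb, G9t, G9, add_comm]
  · convert F.u_mem h01 using 1
    simp [u, g, emb, G9t, G9]
  · convert F.w_mem h01 h02 h12 using 1
    simp [w, g, emb, G9t, G9]
  · convert F.u_mem h02 using 1
    simp [u, g, emb, G9t, G9]
  · convert F.u_mem h02.symm using 1
    simp [u, g, emb, G9t, G9, add_comm]
  · convert F.w_mem h02.symm h12.symm h01 using 1
    simp only [w, g, emb, G9t, G9]
    simp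
    abel
  · convert F.u_mem h12.symm using 1
    simp [u, g, emb, G9t, G9, add_comm]
  · convert F.u_mem h12 using 1
    simp [u, g, emb, G9t, G9]
  · convert F.w_mem h01.symm h12 h02 using 1
    simp [w, g, emb, G9t, G9, add_comm]

end Fr

theorem q_bounds {q : Q} (hq : q ∈ KL) : (1 : ℝ) ≤ q.1 ∧ (q.1 : ℝ) ≤ 48 ∧ (-300 : ℝ) ≤ q.2.1 ∧
    (q.2.1 : ℝ) ≤ 300 ∧ (-300 : ℝ) ≤ q.2.2.1 ∧ (q.2.2.1 : ℝ) ≤ 300 ∧ (-300 : ℝ) ≤ q.2.2.2 ∧
    (q.2.2.2 : ℝ) ≤ 300 := by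
  have h := List.all_eq_true.1 KL_ok q hq
  simp only [qok, Bool.and_eq_true, decide_eq_true_eq] at h
  obtain ⟨⟨⟨⟨⟨⟨⟨h1, h2⟩, h3⟩, h4⟩, h5⟩, h6⟩, h7⟩, h8⟩ := h
  refine ⟨by exact_mod_cast h1, by exact_mod_cast h2, by exact_mod_cast h3, by exact_mod_cast h4,
    by exact_mod_cast h5, by exact_mod_cast h6, by exact_mod_cast h7, by exact_mod_cast h8⟩

/-- Two increasing triples with the same entries are equal. -/
theorem triple_eq {n : ℕ} {T T' : Fin 3 → Fin n} (hT : StrictMono T) (hT' : StrictMono T')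
    (h : ∀ i, ∃ j, T' i = T j) : T' = T := by
  choose σ hσ using h
  have h1 : ∀ i j, i < j → σ i < σ j := by
    intro i j hij
    have := hT' hij
    rw [hσ, hσ] at this
    exact hT.lt_iff_lt.1 this
  have h01 := h1 0 1 (by decide)
  have h12 := h1 1 2 (by decide)
  have e0 : σ 0 = 0 := by omega
  have e1 : σ 1 = 1 := by omega
  have e2 : σ 2 = 2 := by omega
  funext i
  rw [hσ]
  fin_cases i
  · exact congrArg T e0
  · exact congrArg T e1
  · exact congrArg T e2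

namespace Fr

variable {d : ℕ} (F : Fr d)

/-- Generic functionals are positive on all gadgets. -/
theorem kap_pos_of_generic {f : Fin (d + 1) → ℝ} (h1 : ∀ m, -1 ≤ f m) (h2 : ∀ m, f m ≤ 10)
    (h3 : ∀ k l m, k ≠ l → k ≠ m → l ≠ m → 3 ≤ f k + f l + f m) {T : Fin 3 → Fin (d + 1)}
    (hT : StrictMono T) {q : Q} (hq : q ∈ KL) : 0 < F.lf f (F.kap T q) := by
  obtain ⟨t1, t2, x1, x2, y1, y2, z1, z2⟩ := q_bounds hq
  have hi := hT.injective
  have h01 : T 0 ≠ T 1 := fun h => by simpa using hi h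
  have h02 : T 0 ≠ T 2 := fun h => by simpa using hi h
  have h12 : T 1 ≠ T 2 := fun h => by simpa using hi h
  rw [F.lf_kap]
  have hs := h3 _ _ _ h01 h02 h12
  have key : ∀ x f : ℝ, -300 ≤ x → x ≤ 300 → -1 ≤ f → f ≤ 10 → -3000 ≤ x * f := by
    intro x f a b c e
    nlinarith
  have k0 := key _ _ x1 x2 (h1 (T 0)) (h2 (T 0))
  have k1 := key _ _ y1 y2 (h1 (T 1)) (h2 (T 1))
  have k2 := key _ _ z1 z2 (h1 (T 2)) (h2 (T 2))
  have k3 : (q.1 : ℝ) * f (F.C T) ≤ 480 := by nlinarith [h2 (F.C T)]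
  have k4 := h1 (F.A T)
  have k5 : (1 : ℝ) ≤ (q.1 : ℝ) * q.1 := by nlinarith
  have k6 : (300000000 : ℝ) ≤ (KK : ℝ) * q.1 * q.1 * (f (T 0) + f (T 1) + f (T 2)) := by
    have : (KK : ℝ) = 100000000 := by norm_num [KK]
    rw [this]
    have : (0 : ℝ) ≤ ((q.1 : ℝ) * q.1 - 1) := by linarith
    nlinarith [mul_nonneg this (by linarith : (0 : ℝ) ≤ f (T 0) + f (T 1) + f (T 2))]
  nlinarith

/-- The functional of a certificate. -/
noncomputable def cf (T : Fin 3 → Fin (d + 1)) (c : Cert) : Fin (d + 1) → ℝ := fun m =>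
  if m = T 0 then (c.n0 : ℝ) else if m = T 1 then (c.n1 : ℝ) else if m = T 2 then (c.n2 : ℝ) else
  if m = F.A T then (c.pa : ℝ) else if m = F.C T then (c.pc : ℝ) else 100000000

/-- The bounds for the entries of a certificate. -/
def Bd (c : Cert) : Prop := -28 ≤ c.n0 ∧ c.n0 ≤ 28 ∧ -28 ≤ c.n1 ∧ c.n1 ≤ 28 ∧ -28 ≤ c.n2 ∧
  c.n2 ≤ 28 ∧ 50000000 ≤ c.pa ∧ 50000000 ≤ c.pc ∧ c.pa ≤ 10000000000000 ∧ c.pc ≤ 10000000000000

section

variable {T : Fin 3 → Fin (d + 1)} (hT : StrictMono T) (c : Cert)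

theorem cf_0 : F.cf T c (T 0) = c.n0 := by simp [cf]

include hT in
theorem cf_1 : F.cf T c (T 1) = c.n1 := by
  have h01 : T 1 ≠ T 0 := fun h => by simpa using hT.injective h
  simp [cf, h01]

include hT in
theorem cf_2 : F.cf T c (T 2) = c.n2 := by
  have h02 : T 2 ≠ T 0 := fun h => by simpa using hT.injective h
  have h12 : T 2 ≠ T 1 := fun h => by simpa using hT.injective h
  simp [cf, h02, h12]

theorem cf_A : F.cf T c (F.A T) = c.pa := by
  simp [cf, F.hA]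

theorem cf_C : F.cf T c (F.C T) = c.pc := by
  simp [cf, F.hC, (F.hAC T).symm]

include hT in
theorem lf_cf_kap (q : Q) : F.lf (F.cf T c) (F.kap T q) = (c.val q : ℝ) := by
  rw [F.lf_kap, F.cf_0, F.cf_1 hT, F.cf_2 hT, F.cf_A, F.cf_C, Cert.val]
  push_cast
  ring

include hT in
theorem lf_cf_g (j : Fin 9) : F.lf (F.cf T c) (F.g T j) = (c.gval j : ℝ) := by
  rw [g, F.lf_emb, F.cf_0, F.cf_1 hT, F.cf_2 hT, Cert.gval]
  simp only [G9t]
  push_cast
  ring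

variable {c}

theorem cf_lo (hc : Bd c) (m : Fin (d + 1)) : -28 ≤ F.cf T c m := by
  obtain ⟨a1, a2, a3, a4, a5, a6, a7, a8, a9, a10⟩ := hc
  have b1 : (-28 : ℝ) ≤ c.n0 := by exact_mod_cast a1
  have b2 : (-28 : ℝ) ≤ c.n1 := by exact_mod_cast a3
  have b3 : (-28 : ℝ) ≤ c.n2 := by exact_mod_cast a5
  have b4 : (50000000 : ℝ) ≤ c.pa := by exact_mod_cast a7
  have b5 : (50000000 : ℝ) ≤ c.pc := by exact_mod_cast a8
  unfold cf
  split_ifs <;> linarith

theorem cf_hi (hc : Bd c) (m : Fin (d + 1)) : F.cf T c m ≤ 10000000000000 := by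
  obtain ⟨a1, a2, a3, a4, a5, a6, a7, a8, a9, a10⟩ := hc
  have b1 : (c.n0 : ℝ) ≤ 28 := by exact_mod_cast a2
  have b2 : (c.n1 : ℝ) ≤ 28 := by exact_mod_cast a4
  have b3 : (c.n2 : ℝ) ≤ 28 := by exact_mod_cast a6
  have b4 : (c.pa : ℝ) ≤ 10000000000000 := by exact_mod_cast a9
  have b5 : (c.pc : ℝ) ≤ 10000000000000 := by exact_mod_cast a10
  unfold cf
  split_ifs <;> linarith

theorem cf_big (hc : Bd c) {m : Fin (d + 1)} (hm : ∀ i, m ≠ T i) : 50000000 ≤ F.cf T c m := by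
  obtain ⟨a1, a2, a3, a4, a5, a6, a7, a8, a9, a10⟩ := hc
  have b4 : (50000000 : ℝ) ≤ c.pa := by exact_mod_cast a7
  have b5 : (50000000 : ℝ) ≤ c.pc := by exact_mod_cast a8
  unfold cf
  rw [if_neg (hm 0), if_neg (hm 1), if_neg (hm 2)]
  split_ifs <;> linarith

theorem cf_u_pos (hc : Bd c) {k l : Fin (d + 1)} (h : (∀ i, k ≠ T i) ∨ (∀ i, l ≠ T i)) :
    0 < F.lf (F.cf T c) (F.u k l) := by
  rw [F.lf_u]
  have h1 := F.cf_lo (T := T) hc k
  have h2 := F.cf_lo (T := T) hc l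
  rcases h with h | h
  · have := F.cf_big hc h
    linarith
  · have := F.cf_big hc h
    linarith

theorem cf_w_pos (hc : Bd c) {k l m : Fin (d + 1)}
    (h : (∀ i, k ≠ T i) ∨ (∀ i, l ≠ T i) ∨ (∀ i, m ≠ T i)) :
    0 < F.lf (F.cf T c) (F.w k l m) := by
  rw [F.lf_w]
  have h1 := F.cf_lo (T := T) hc k
  have h2 := F.cf_lo (T := T) hc l
  have h3 := F.cf_lo (T := T) hc m
  rcases h with h | h | h
  · have := F.cf_big hc h
    linarith
  · have := F.cf_big hc h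
    linarith
  · have := F.cf_big hc h
    linarith

include hT in
theorem cf_other (hc : Bd c) {T' : Fin 3 → Fin (d + 1)} (hT' : StrictMono T') (hne : T' ≠ T)
    {q : Q} (hq : q ∈ KL) : 0 < F.lf (F.cf T c) (F.kap T' q) := by
  obtain ⟨t1, t2, x1, x2, y1, y2, z1, z2⟩ := q_bounds hq
  have hex : ∃ i, ∀ j, T' i ≠ T j := by
    by_contra hcon
    push Not at hcon
    exact hne (triple_eq hT hT' hcon)
  rw [F.lf_kap]
  have hKK : (KK : ℝ) = 100000000 := by norm_num [KK]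
  have k5 : (1 : ℝ) ≤ (q.1 : ℝ) * q.1 := by nlinarith
  rw [hKK]
  have lo : ∀ x f : ℝ, -300 ≤ x → x ≤ 300 → -28 ≤ f →
      -28 * (300 + 100000000 * q.1 * q.1) ≤ (x + 100000000 * q.1 * q.1) * f := by
    intro x f a b e
    nlinarith [mul_nonneg (by nlinarith : (0 : ℝ) ≤ x + 100000000 * q.1 * q.1)
      (by linarith : (0 : ℝ) ≤ f + 28)]
  have big : ∀ x f : ℝ, -300 ≤ x → 50000000 ≤ f →
      50000000 * (100000000 * q.1 * q.1 - 300) ≤ (x + 100000000 * q.1 * q.1) * f := by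
    intro x f a e
    nlinarith [mul_nonneg (by nlinarith : (0 : ℝ) ≤ x + 100000000 * q.1 * q.1)
      (by linarith : (0 : ℝ) ≤ f - 50000000)]
  have a0 := F.cf_lo (T := T) hc (T' 0)
  have a1 := F.cf_lo (T := T) hc (T' 1)
  have a2 := F.cf_lo (T := T) hc (T' 2)
  have a3 := F.cf_lo (T := T) hc (F.A T')
  have a4 := F.cf_lo (T := T) hc (F.C T')
  have a5 := F.cf_hi (T := T) hc (F.C T')
  have l0 := lo _ _ x1 x2 a0
  have l1 := lo _ _ y1 y2 a1
  have l2 := lo _ _ z1 z2 a2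
  have l3 : (q.1 : ℝ) * F.cf T c (F.C T') ≤ 48 * 10000000000000 := by nlinarith
  obtain ⟨i, hi⟩ := hex
  have hbig := F.cf_big hc hi
  fin_cases i
  · have := big _ _ x1 hbig
    simp only [Fin.zero_eta] at this
    nlinarith
  · have := big _ _ y1 hbig
    simp only [Fin.mk_one] at this
    nlinarith
  · have := big _ _ z1 hbig
    simp only [Fin.reduceFinMk] at this
    nlinarith

include hT in
/-- The functional of a certificate is nonnegative. -/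
theorem cf_nonneg (hc : Bd c) (hg : ∀ j, 0 ≤ c.gval j) (hk : ∀ q ∈ KL, 0 ≤ c.val q) :
    ∀ v ∈ F.verts, 0 ≤ F.lf (F.cf T c) v := by
  intro v hv
  rcases (F.mem_verts v).1 hv with ⟨k, l, hkl, rfl⟩ | ⟨k, l, m, h1, h2, h3, rfl⟩ | ⟨T', hT', q, hq, rfl⟩
  · by_cases h : (∀ i, k ≠ T i) ∨ (∀ i, l ≠ T i)
    · exact (F.cf_u_pos hc h).le
    · push Not at h
      obtain ⟨⟨i, rfl⟩, ⟨j, rfl⟩⟩ := h
      obtain ⟨n, hn⟩ := F.u_eq_g T (i := i) (j := j) (fun h => hkl (by rw [h]))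
      rw [hn, F.lf_cf_g hT]
      exact_mod_cast hg n
  · by_cases h : (∀ i, k ≠ T i) ∨ (∀ i, l ≠ T i) ∨ (∀ i, m ≠ T i)
    · exact (F.cf_w_pos hc h).le
    · push Not at h
      obtain ⟨⟨i, rfl⟩, ⟨j, rfl⟩, ⟨r, rfl⟩⟩ := h
      obtain ⟨n, hn⟩ := F.w_eq_g T (i := i) (j := j) (k := r) (fun h => h1 (by rw [h]))
        (fun h => h2 (by rw [h])) (fun h => h3 (by rw [h]))
      rw [hn, F.lf_cf_g hT]
      exact_mod_cast hg n
  · by_cases h : T' = T
    · rw [h, F.lf_cf_kap hT]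
      exact_mod_cast hk q hq
    · exact (F.cf_other hT hc hT' h hq).le

include hT in
/-- The zero set of the functional of a certificate. -/
theorem cf_zero (hc : Bd c) {v : Amb d} (hv : v ∈ F.verts) (h0 : F.lf (F.cf T c) v = 0) :
    (∃ j, c.gval j = 0 ∧ v = F.g T j) ∨ ∃ q ∈ KL, c.val q = 0 ∧ v = F.kap T q := by
  rcases (F.mem_verts v).1 hv with ⟨k, l, hkl, rfl⟩ | ⟨k, l, m, h1, h2, h3, rfl⟩ | ⟨T', hT', q, hq, rfl⟩
  · by_cases h : (∀ i, k ≠ T i) ∨ (∀ i, l ≠ T i)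
    · exact absurd h0 (F.cf_u_pos hc h).ne'
    · push Not at h
      obtain ⟨⟨i, rfl⟩, ⟨j, rfl⟩⟩ := h
      obtain ⟨n, hn⟩ := F.u_eq_g T (i := i) (j := j) (fun h => hkl (by rw [h]))
      rw [hn, F.lf_cf_g hT] at h0
      exact Or.inl ⟨n, by exact_mod_cast h0, hn⟩
  · by_cases h : (∀ i, k ≠ T i) ∨ (∀ i, l ≠ T i) ∨ (∀ i, m ≠ T i)
    · exact absurd h0 (F.cf_w_pos hc h).ne'
    · push Not at h
      obtain ⟨⟨i, rfl⟩, ⟨j, rfl⟩, ⟨r, rfl⟩⟩ := h
      obtain ⟨n, hn⟩ := F.w_eq_g T (i := i) (j := j) (k := r) (fun h => h1 (by rw [h]))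
        (fun h => h2 (by rw [h])) (fun h => h3 (by rw [h]))
      rw [hn, F.lf_cf_g hT] at h0
      exact Or.inl ⟨n, by exact_mod_cast h0, hn⟩
  · by_cases h : T' = T
    · rw [h, F.lf_cf_kap hT] at h0
      exact Or.inr ⟨q, hq, by exact_mod_cast h0, by rw [h]⟩
    · exact absurd h0 (F.cf_other hT hc hT' h hq).ne'

end

end Fr

end Pool.Agent.H95.Scr
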