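import Pool.Agent.H95.Scr.Geo1
import Pool.Agent.H95.Scr.Gad

/-!
# Faces of the polytope and the gadgets of a realization
-/

namespace Pool.Agent.H95.Scr

open Pool.Agent.Helper101_Scrib (Amb conicHull IsPolytopeCone linDim sphBall bil IsFace Rz L4)
open Pool.Agent.Helper101_Scrib.Frame (linDim_le_three)
open Submodule

theorem ok_spec {c : Cert} (h : c.ok = true) :
    (∀ q ∈ KL, 0 ≤ c.val q ∧ (c.val q = 0 ↔ q ∈ c.zq)) ∧ (∀ q ∈ c.zq, q ∈ KL) ∧ Fr.Bd c := by
  simp only [Cert.ok, Bool.and_eq_true, decide_eq_true_eq, List.all_eq_true, beq_iff_eq,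
    decide_eq_decide] at h
  obtain ⟨⟨⟨⟨⟨⟨⟨⟨⟨⟨⟨h1, h2⟩, h3⟩, h4⟩, h5⟩, h6⟩, h7⟩, h8⟩, h9⟩, h10⟩, h11⟩, h12⟩ := h
  exact ⟨h1, h2, h3, h4, h5, h6, h7, h8, h9, h10, h11, h12⟩

theorem posOk_spec {c : Cert} (h : c.posOk = true) (j : Fin 9) : 0 < c.gval j := by
  simp only [Cert.posOk, decide_eq_true_eq, List.all_eq_true] at h
  exact h j (List.mem_finRange j)

theorem sideOk_spec {c : Cert} {i : Fin 9} (h : c.sideOk i = true) :
    c.gval i = 0 ∧ c.gval (i + 1) = 0 ∧ ∀ j, j ≠ i → j ≠ i + 1 → 0 < c.gval j := by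
  simp only [Cert.sideOk, List.all_eq_true] at h
  refine ⟨?_, ?_, fun j h1 h2 => ?_⟩
  · have := h i (List.mem_finRange _)
    simpa using this
  · have := h (i + 1) (List.mem_finRange _)
    simpa using this
  · have := h j (List.mem_finRange j)
    simpa [h1, h2] using this

/-- The certificate of the plane of the nonagon. -/
def c0 : Cert := ⟨0, 0, 0, 5000000000, 100000000, []⟩

theorem c0_gval (j : Fin 9) : c0.gval j = 0 := by simp [c0, Cert.gval]

theorem c0_bd : Fr.Bd c0 := by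
  unfold Fr.Bd c0
  norm_num

theorem c0_val {q : Q} (hq : q ∈ KL) : 0 < c0.val q := by
  have h := List.all_eq_true.1 KL_ok q hq
  simp only [qok, Bool.and_eq_true, decide_eq_true_eq] at h
  obtain ⟨⟨⟨⟨⟨⟨⟨h1, h2⟩, h3⟩, h4⟩, h5⟩, h6⟩, h7⟩, h8⟩ := h
  simp only [c0, Cert.val]
  omega

/-- Every side has a certificate. -/
theorem side_all (i : Fin 9) : ∃ p ∈ UC, p.1 = i := by
  have : (List.finRange 9).all (fun i => UC.any fun p => decide (p.1 = i)) = true := by
    decide +kernel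
  simp only [List.all_eq_true, List.any_eq_true, decide_eq_true_eq] at this
  exact this i (List.mem_finRange i)

namespace Fr

variable {d : ℕ} (F : Fr d)

theorem emb_sub (T : Fin 3 → Fin (d + 1)) (a b : ℤ × ℤ × ℤ) :
    F.emb T (subp a b) = F.emb T a - F.emb T b := by
  simp only [emb, subp, Int.cast_sub]
  module

theorem comb_spec (T : Fin 3 → Fin (d + 1)) {c a b : ℤ} {y u v : ℤ × ℤ × ℤ}
    (h : comb c y a u b v = true) :
    F.emb T y = ((a : ℝ) / c) • F.emb T u + ((b : ℝ) / c) • F.emb T v := by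
  simp only [comb, Bool.and_eq_true, decide_eq_true_eq] at h
  obtain ⟨⟨⟨h0, h1⟩, h2⟩, h3⟩ := h
  have h0' : (c : ℝ) ≠ 0 := by exact_mod_cast h0
  have e1 : (c : ℝ) * y.1 = a * u.1 + b * v.1 := by exact_mod_cast h1
  have e2 : (c : ℝ) * y.2.1 = a * u.2.1 + b * v.2.1 := by exact_mod_cast h2
  have e3 : (c : ℝ) * y.2.2 = a * u.2.2 + b * v.2.2 := by exact_mod_cast h3
  have f1 : (y.1 : ℝ) = a / c * u.1 + b / c * v.1 := by
    field_simp
    linarith
  have f2 : (y.2.1 : ℝ) = a / c * u.2.1 + b / c * v.2.1 := by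
    field_simp
    linarith
  have f3 : (y.2.2 : ℝ) = a / c * u.2.2 + b / c * v.2.2 := by
    field_simp
    linarith
  simp only [emb]
  rw [f1, f2, f3]
  module

theorem kap_sub (T : Fin 3 → Fin (d + 1)) {q q' : Q} (h : q.1 = q'.1) :
    F.kap T q = F.kap T q' + F.emb T (subp q.2 q'.2) := by
  rw [emb_sub]
  unfold kap
  rw [h]
  abel

section

variable {T : Fin 3 → Fin (d + 1)} (hT : StrictMono T)

include hT

theorem kap_inj {q q' : Q} (h : F.kap T q = F.kap T q') : q = q' := by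
  have key : ∀ c : Cert, c.val q = c.val q' := by
    intro c
    have := congrArg (F.lf (F.cf T c)) h
    rw [F.lf_cf_kap hT, F.lf_cf_kap hT] at this
    exact_mod_cast this
  have h1 := key ⟨0, 0, 0, 0, 1, []⟩
  have h2 := key ⟨1, 0, 0, 0, 0, []⟩
  have h3 := key ⟨0, 1, 0, 0, 0, []⟩
  have h4 := key ⟨0, 0, 1, 0, 0, []⟩
  obtain ⟨t, x, y, z⟩ := q
  obtain ⟨t', x', y', z'⟩ := q'
  simp only [Cert.val, zero_mul, mul_zero, add_zero, zero_add, mul_one, one_mul, zero_sub, neg_inj,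
    sub_zero] at h1 h2 h3 h4
  subst h1
  have e2 : x = x' := by linarith
  have e3 : y = y' := by linarith
  have e4 : z = z' := by linarith
  rw [e2, e3, e4]

theorem g_inj {i j : Fin 9} (h : F.g T i = F.g T j) : i = j := by
  have key : ∀ c : Cert, c.gval i = c.gval j := by
    intro c
    have := congrArg (F.lf (F.cf T c)) h
    rw [F.lf_cf_g hT, F.lf_cf_g hT] at this
    exact_mod_cast this
  have h2 := key ⟨1, 0, 0, 0, 0, []⟩
  have h3 := key ⟨0, 1, 0, 0, 0, []⟩
  have h4 := key ⟨0, 0, 1, 0, 0, []⟩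
  simp only [Cert.gval, zero_mul, add_zero, zero_add, one_mul] at h2 h3 h4
  clear h key
  revert h2 h3 h4
  revert i j
  decide +kernel

theorem kap_ne_g {q : Q} (hq : q ∈ KL) (j : Fin 9) : F.kap T q ≠ F.g T j := by
  intro h
  have := congrArg (F.lf (F.cf T c0)) h
  rw [F.lf_cf_kap hT, F.lf_cf_g hT, c0_gval] at this
  have h1 : c0.val q = 0 := by exact_mod_cast this
  exact (c0_val hq).ne' h1

/-- The faces of the type `U`. -/
theorem linDim_U {p : Fin 9 × Cert} (hp : p ∈ UC) :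
    linDim {v | v ∈ F.verts ∧ F.lf (F.cf T p.2) v = 0} ≤ 3 := by
  obtain ⟨o1, o2, o3⟩ := ok_spec (List.all_eq_true.1 UC_ok p hp)
  obtain ⟨s1, s2, s3⟩ := sideOk_spec (List.all_eq_true.1 UC_side p hp)
  have hd := List.all_eq_true.1 UC_dim p hp
  rcases hz : p.2.zq with _ | ⟨q0, l⟩
  · rw [uDim, hz] at hd
    exact absurd hd (by simp)
  · rw [uDim, hz] at hd
    simp only [List.all_eq_true, Bool.and_eq_true, decide_eq_true_eq] at hd
    apply linDim_le_three (a := F.kap T q0) (b := F.g T p.1) (c := F.g T (p.1 + 1))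
    rintro v ⟨hv, h0⟩
    rw [Submodule.mem_span_triple]
    rcases F.cf_zero hT o3 hv h0 with ⟨j, hj, rfl⟩ | ⟨q, hq, hq0, rfl⟩
    · by_cases h1 : j = p.1
      · exact ⟨0, 1, 0, by rw [h1]; simp⟩
      · by_cases h2 : j = p.1 + 1
        · exact ⟨0, 0, 1, by rw [h2]; simp⟩
        · exact absurd hj (s3 j h1 h2).ne'
    · have hq1 := (o1 q hq).2.1 hq0
      rw [hz, List.mem_cons] at hq1
      rcases hq1 with rfl | hq1
      · exact ⟨1, 0, 0, by simp⟩
      · obtain ⟨e1, e2⟩ := hd q hq1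
        have e3 := F.comb_spec T e2
        rw [F.kap_sub T e1, e3]
        exact ⟨1, _, _, by unfold g; rw [one_smul, add_assoc]⟩

/-- The faces of the type `Z`. -/
theorem linDim_Z {c : Cert} (hc : c ∈ ZC) :
    linDim {v | v ∈ F.verts ∧ F.lf (F.cf T c) v = 0} ≤ 3 := by
  obtain ⟨o1, o2, o3⟩ := ok_spec (List.all_eq_true.1 ZC_ok c hc)
  have s1 := posOk_spec (List.all_eq_true.1 ZC_pos c hc)
  have hd := List.all_eq_true.1 ZC_dim c hc
  unfold zDim at hd
  split at hd
  · rename_i q0 q1 m0 m1 hz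
    simp only [Bool.and_eq_true, decide_eq_true_eq] at hd
    obtain ⟨⟨d1, d2⟩, d3⟩ := hd
    apply linDim_le_three (a := F.kap T q0) (b := F.kap T q1) (c := F.kap T m0)
    rintro v ⟨hv, h0⟩
    rw [Submodule.mem_span_triple]
    rcases F.cf_zero hT o3 hv h0 with ⟨j, hj, rfl⟩ | ⟨q, hq, hq0, rfl⟩
    · exact absurd hj (s1 j).ne'
    · have hq1 := (o1 q hq).2.1 hq0
      rw [hz] at hq1
      simp only [List.mem_cons, List.not_mem_nil, or_false] at hq1
      rcases hq1 with rfl | rfl | rfl | rfl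
      · exact ⟨1, 0, 0, by simp⟩
      · exact ⟨0, 1, 0, by simp⟩
      · exact ⟨0, 0, 1, by simp⟩
      · have e3 := F.comb_spec T d3
        have e1 := F.kap_sub T d1.symm
        have e2 := F.kap_sub T d2.symm
        rw [e3] at e2
        have e4 : F.emb T (subp q1.2 q0.2) = F.kap T q1 - F.kap T q0 := by
          rw [e1]
          abel
        rw [e4] at e2
        rw [e2]
        refine ⟨-(((dotp (subp q1.2 q0.2) (subp q.2 m0.2) : ℤ) : ℝ) /
          ((dotp (subp q1.2 q0.2) (subp q1.2 q0.2) : ℤ) : ℝ)),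
          ((dotp (subp q1.2 q0.2) (subp q.2 m0.2) : ℤ) : ℝ) /
          ((dotp (subp q1.2 q0.2) (subp q1.2 q0.2) : ℤ) : ℝ), 1, ?_⟩
        simp only [Int.cast_zero, zero_div]
        module
  · exact absurd hd (by simp)

/-- The plane of a nonagon. -/
theorem plane_set : {v | v ∈ F.verts ∧ F.lf (F.cf T c0) v = 0} = Set.range (F.g T) := by
  ext v
  constructor
  · rintro ⟨hv, h0⟩
    rcases F.cf_zero hT c0_bd hv h0 with ⟨j, hj, rfl⟩ | ⟨q, hq, hq0, rfl⟩
    · exact ⟨j, rfl⟩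
    · exact absurd hq0 (c0_val hq).ne'
  · rintro ⟨j, rfl⟩
    refine ⟨F.g_mem hT j, ?_⟩
    rw [F.lf_cf_g hT, c0_gval]
    norm_num

theorem c0_nonneg : ∀ v ∈ F.verts, 0 ≤ F.lf (F.cf T c0) v :=
  F.cf_nonneg hT c0_bd (fun j => (c0_gval j).ge) (fun _ hq => (c0_val hq).le)

theorem linDim_plane : linDim {v | v ∈ F.verts ∧ F.lf (F.cf T c0) v = 0} = 3 := by
  rw [F.plane_set hT]
  have hli : LinearIndependent ℝ (fun i => F.b (T i)) :=
    F.b.linearIndependent.comp T hT.injective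
  have h1 : span ℝ (Set.range (F.g T)) = span ℝ (Set.range fun i => F.b (T i)) := by
    apply le_antisymm
    · rw [Submodule.span_le]
      rintro _ ⟨j, rfl⟩
      have m : ∀ i, F.b (T i) ∈ span ℝ (Set.range fun i => F.b (T i)) :=
        fun i => subset_span ⟨i, rfl⟩
      exact add_mem (add_mem (smul_mem _ _ (m 0)) (smul_mem _ _ (m 1))) (smul_mem _ _ (m 2))
    · rw [Submodule.span_le]
      have m : ∀ j, F.g T j ∈ span ℝ (Set.range (F.g T)) := fun j => subset_span ⟨j, rfl⟩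
      rintro _ ⟨i, rfl⟩
      fin_cases i
      · have : F.b (T 0) = (2 / 3 : ℝ) • F.g T 1 - (1 / 3 : ℝ) • F.g T 0 := by
          simp only [g, emb, G9t, G9]
          simp
          module
        show F.b (T 0) ∈ _
        rw [this]
        exact sub_mem (smul_mem _ _ (m 1)) (smul_mem _ _ (m 0))
      · have : F.b (T 1) = (2 / 3 : ℝ) • F.g T 0 - (1 / 3 : ℝ) • F.g T 1 := by
          simp only [g, emb, G9t, G9]
          simp
          module
        show F.b (T 1) ∈ _
        rw [this]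
        exact sub_mem (smul_mem _ _ (m 0)) (smul_mem _ _ (m 1))
      · have : F.b (T 2) = (2 / 3 : ℝ) • F.g T 4 - (1 / 3 : ℝ) • F.g T 3 := by
          simp only [g, emb, G9t, G9]
          simp
          module
        show F.b (T 2) ∈ _
        rw [this]
        exact sub_mem (smul_mem _ _ (m 4)) (smul_mem _ _ (m 3))
  unfold linDim
  rw [h1, finrank_span_eq_card hli, Fintype.card_fin]

end

end Fr

end Pool.Agent.H95.Scr
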